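import Pool.Agent.Lib.MP_6cc1fa_pr.Defs

/-! MP_6cc1fa_pr, part (A): small factors, all distributions `μ` (helper60).  Definitions. -/

set_option autoImplicit false

namespace Pool.Agent.MP6cc1fa

open Polynomial Finset UniqueFactorizationMonoid

noncomputable section

/-- The polynomial with the digits `a`. -/
def pol {p N : ℕ} (a : Fin N → ZMod p) : (ZMod p)[X] := ∑ i, C (a i) * X ^ (i : ℕ)

/-- The Fourier transform of `μ`. -/
def muh {p : ℕ} [Fact p.Prime] (μ : ZMod p → ℝ) (t : ZMod p) : ℂ := ∑ x, (μ x : ℂ) * ch (t * x)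

/-- The absolute value of the Fourier transform of the product measure. -/
def WW {p N : ℕ} [Fact p.Prime] (μ : ZMod p → ℝ) (θ : Fin N → ZMod p) : ℝ := ∏ i, ‖muh μ (θ i)‖

/-- The probability that `D` divides the random polynomial with `N` independent digits. -/
def prD {p : ℕ} [Fact p.Prime] (μ : ZMod p → ℝ) (N : ℕ) (D : (ZMod p)[X]) : ℝ := by
  classical
  exact ∑ a : Fin N → ZMod p, if D ∣ pol a then ∏ i, μ (a i) else 0

/-- The error in the level of distribution. -/
def err {p : ℕ} [Fact p.Prime] (μ : ZMod p → ℝ) (N : ℕ) (D : (ZMod p)[X]) : ℝ :=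
  |prD μ N D - 1 / (p : ℝ) ^ D.natDegree|

/-- Sequences annihilated by a monic polynomial of degree at most `c` not divisible by `X`. -/
def Low {p : ℕ} (N c : ℕ) (θ : Fin N → ZMod p) : Prop :=
  ∃ G : (ZMod p)[X], G.Monic ∧ G.coeff 0 ≠ 0 ∧ G.natDegree ≤ c ∧ Ann N G (ext θ)

/-- The `m`-smooth part of `f`, the prime `X` excluded: the product of the monic irreducible
factors of `f` other than `X` of degree at most `m`, with multiplicity. -/
def smo {p : ℕ} [Fact p.Prime] (m : ℕ) (f : (ZMod p)[X]) : (ZMod p)[X] := by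
  classical
  exact ((normalizedFactors f).filter fun P => P ≠ X ∧ P.natDegree ≤ m).prod

/-- The primes of degree at most `m` other than `X`. -/
def PP (p : ℕ) [Fact p.Prime] (m : ℕ) : Finset (ZMod p)[X] := by
  classical
  exact ((range (m + 1)).biUnion (Irr p)).filter fun P => P ≠ X

/-! ### Brun-Hooley weights -/

/-- The part of `D` in class `j`. -/
def part {ι : Type} [DecidableEq ι] (cls : ι → ℕ) (D : Finset ι) (j : ℕ) : Finset ι :=
  D.filter fun P => cls P = j

open Classical in
/-- Upper bound sieve weights. -/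
def lamP {ι : Type} [DecidableEq ι] (cls : ι → ℕ) (b : ℕ → ℕ) (L : ℕ) (D : Finset ι) : ℝ :=
  if ∀ j < L, (part cls D j).card ≤ 2 * b j then (-1) ^ D.card else 0

open Classical in
/-- Lower bound sieve weights. -/
def lamM {ι : Type} [DecidableEq ι] (cls : ι → ℕ) (b : ℕ → ℕ) (L : ℕ) (D : Finset ι) : ℝ :=
  if (∀ j < L, (part cls D j).card ≤ 2 * b j) ∨
    (∃ l < L, (part cls D l).card = 2 * b l + 1 ∧
      ∀ j < L, j ≠ l → (part cls D j).card ≤ 2 * b j) then (-1) ^ D.card else 0

/-- The dyadic class of a prime. -/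
def dcl {p : ℕ} (m : ℕ) (P : (ZMod p)[X]) : ℕ := Nat.log 2 (m / P.natDegree)

end

end Pool.Agent.MP6cc1fa
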