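import Pool.Agent.Lib.MP_6cc1fa_pr.SM.SM8

/-! MP_6cc1fa_pr, module GAPA: the density of the polynomials without prime factors of degree in
`(k, m]`. -/

set_option autoImplicit false

namespace Pool.Agent.MP6cc1fa

open Polynomial Finset UniqueFactorizationMonoid

noncomputable section

variable {p : ℕ} [Fact p.Prime]

/-- The primes of degree `d` other than `X`. -/
def IP (p : ℕ) [Fact p.Prime] (d : ℕ) : Finset (ZMod p)[X] := by
  classical
  exact (Irr p d).filter fun P => P ≠ X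

/-- The primes other than `X` of degree in `(k, m]`. -/
def GS (p : ℕ) [Fact p.Prime] (k m : ℕ) : Finset (ZMod p)[X] := by
  classical
  exact (Ioc k m).biUnion (IP p)

theorem mem_IP {d : ℕ} {P : (ZMod p)[X]} :
    P ∈ IP p d ↔ P.Monic ∧ P.natDegree = d ∧ Irreducible P ∧ P ≠ X := by
  classical
  unfold IP
  rw [Finset.mem_filter, mem_Irr]
  tauto

theorem mem_GS {k m : ℕ} {P : (ZMod p)[X]} :
    P ∈ GS p k m ↔ P.Monic ∧ k < P.natDegree ∧ P.natDegree ≤ m ∧ Irreducible P ∧ P ≠ X := by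
  classical
  unfold GS
  rw [Finset.mem_biUnion]
  constructor
  · rintro ⟨d, hd, hP⟩
    rw [Finset.mem_Ioc] at hd
    obtain ⟨h1, h2, h3, h4⟩ := mem_IP.1 hP
    exact ⟨h1, by omega, by omega, h3, h4⟩
  · rintro ⟨h1, h2, h3, h4, h5⟩
    exact ⟨P.natDegree, Finset.mem_Ioc.2 ⟨h2, h3⟩, mem_IP.2 ⟨h1, rfl, h4, h5⟩⟩

theorem gap_count (d : ℕ) (hd : 1 ≤ d) :
    p ^ d ≤ d * (Irr p d).card + ∑ e ∈ range (d / 2 + 1), p ^ e := by
  classical
  have hp1 : 1 < p := (Fact.out : p.Prime).one_lt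
  set q : (ZMod p)[X] := X ^ p ^ d - X with hq
  have hd0 : d ≠ 0 := by omega
  have hq0 : q ≠ 0 := FiniteField.X_pow_card_pow_sub_X_ne_zero _ hd0 hp1
  have hsep : q.Separable := galois_poly_separable p (p ^ d) (dvd_pow_self p hd0)
  have hsq : Squarefree q := hsep.squarefree
  have hdeg : q.natDegree = p ^ d := FiniteField.X_pow_card_pow_sub_X_natDegree_eq _ hd0 hp1
  have hnd : (normalizedFactors q).Nodup := (squarefree_iff_nodup_normalizedFactors hq0).1 hsq
  have hfac : ∀ P ∈ normalizedFactors q, P.Monic ∧ Irreducible P ∧ P.natDegree ∣ d := by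
    intro P hP
    have h1 := irreducible_of_normalized_factor P hP
    have h2 := dvd_of_mem_normalizedFactors hP
    refine ⟨sm7_monic_of_mem hP, h1, ?_⟩
    refine (h1.natDegree_dvd_iff_dvd_X_pow_card_pow_sub_X (n := d)).2 ?_
    rwa [Nat.card_zmod]
  have h1 : q.natDegree = ∑ P ∈ (normalizedFactors q).toFinset, P.natDegree := by
    have h2 : q.natDegree = ((normalizedFactors q).map natDegree).sum := by
      rw [← natDegree_multiset_prod_of_monic _ fun P hP => (hfac P hP).1]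
      exact (natDegree_eq_of_degree_eq
        (degree_eq_degree_of_associated (prod_normalizedFactors hq0))).symm
    rw [h2, Finset.sum, Multiset.toFinset_val, hnd.dedup]
  have h3 := Finset.sum_filter_add_sum_filter_not (normalizedFactors q).toFinset
    (fun P => P.natDegree = d) (fun P : (ZMod p)[X] => P.natDegree)
  have h4 : ∑ P ∈ (normalizedFactors q).toFinset.filter (fun P => P.natDegree = d),
      P.natDegree ≤ d * (Irr p d).card := by
    rw [Finset.sum_congr rfl (g := fun _ => d) fun P hP => (Finset.mem_filter.1 hP).2,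
      Finset.sum_const, smul_eq_mul, mul_comm]
    refine Nat.mul_le_mul_left _ (Finset.card_le_card fun P hP => ?_)
    obtain ⟨h5, h6⟩ := Finset.mem_filter.1 hP
    have h7 := hfac P (Multiset.mem_toFinset.1 h5)
    exact (mem_Irr d P).2 ⟨h7.1, h6, h7.2.1⟩
  have h5 : ∑ P ∈ (normalizedFactors q).toFinset.filter (fun P => ¬ P.natDegree = d),
      P.natDegree ≤ ∑ e ∈ range (d / 2 + 1), p ^ e := by
    have hmaps : ∀ P ∈ (normalizedFactors q).toFinset.filter (fun P => ¬ P.natDegree = d),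
        P.natDegree ∈ range (d / 2 + 1) := by
      intro P hP
      obtain ⟨h6, h7⟩ := Finset.mem_filter.1 hP
      obtain ⟨c, hc⟩ := (hfac P (Multiset.mem_toFinset.1 h6)).2.2
      rw [Finset.mem_range, Nat.lt_succ_iff, Nat.le_div_iff_mul_le (by norm_num)]
      have hc2 : 2 ≤ c := by
        rcases c with _ | _ | c
        · omega
        · exact absurd (by rw [hc]; ring) h7
        · omega
      calc P.natDegree * 2 ≤ P.natDegree * c := Nat.mul_le_mul_left _ hc2
        _ = d := hc.symm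
    rw [← Finset.sum_fiberwise_of_maps_to hmaps]
    refine Finset.sum_le_sum fun e _ => ?_
    refine le_trans ?_ (s1_card_Irr_le (p := p) e)
    rw [Finset.sum_congr rfl (g := fun _ => e) fun P hP => (Finset.mem_filter.1 hP).2,
      Finset.sum_const, smul_eq_mul, mul_comm]
    refine Nat.mul_le_mul_left _ (Finset.card_le_card fun P hP => ?_)
    obtain ⟨h6, h7⟩ := Finset.mem_filter.1 hP
    have h8 := hfac P (Multiset.mem_toFinset.1 (Finset.mem_filter.1 h6).1)
    exact (mem_Irr e P).2 ⟨h8.1, h7, h8.2.1⟩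
  rw [← hdeg, h1, ← h3]
  exact Nat.add_le_add h4 h5

theorem gap_two_pow (d : ℕ) : (d : ℝ) + 1 ≤ 2 ^ d := by
  exact_mod_cast Nat.lt_two_pow_self (n := d)

/-- The geometric sum. -/
theorem gap_geom (h : ℕ) : ∑ e ∈ range (h + 1), (p : ℝ) ^ e ≤ 2 * (p : ℝ) ^ h := by
  have hp2 : (2 : ℝ) ≤ p := by exact_mod_cast (Fact.out : p.Prime).two_le
  induction h with
  | zero => simp
  | succ h ih =>
    rw [Finset.sum_range_succ]
    have h1 : (p : ℝ) ^ (h + 1) = p * (p : ℝ) ^ h := by ring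
    have h2 : (0 : ℝ) < (p : ℝ) ^ h := by positivity
    rw [h1]
    nlinarith

/-- Lower bound for the number of primes other than `X`. -/
theorem gap_IP_ge (d : ℕ) (hd : 1 ≤ d) :
    1 / (d : ℝ) - 5 * (1 / ((d : ℝ) * (d + 1))) ≤ ((IP p d).card : ℝ) * (1 / (p : ℝ) ^ d) := by
  classical
  have hp2 : (2 : ℝ) ≤ p := by exact_mod_cast (Fact.out : p.Prime).two_le
  have hp0 : (0 : ℝ) < p := by linarith
  have hd0 : (0 : ℝ) < d := by exact_mod_cast hd
  have hpd : (0 : ℝ) < (p : ℝ) ^ d := by positivity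
  have h1 : ((p : ℝ) ^ d) ≤ d * ((Irr p d).card : ℝ) + 2 * (p : ℝ) ^ (d / 2) := by
    have h2 : ((p ^ d : ℕ) : ℝ) ≤ ((d * (Irr p d).card + ∑ e ∈ range (d / 2 + 1), p ^ e : ℕ) : ℝ) :=
      by exact_mod_cast gap_count (p := p) d hd
    push_cast at h2
    exact h2.trans (by linarith [gap_geom (p := p) (d / 2)])
  -- the number of primes
  have h3 : 1 / (d : ℝ) - 4 * (1 / ((d : ℝ) * (d + 1))) ≤
      ((Irr p d).card : ℝ) * (1 / (p : ℝ) ^ d) := by
    have h4 : (p : ℝ) ^ (d / 2) * (((d : ℝ) + 1) / 2) ≤ (p : ℝ) ^ d := by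
      have h5 : d / 2 + (d - d / 2) = d := by omega
      rw [← h5, pow_add, h5]
      refine mul_le_mul_of_nonneg_left ?_ (by positivity)
      have h6 : ((d : ℝ) + 1) ≤ 2 * (((d - d / 2 : ℕ) : ℝ) + 1) := by
        have : d + 1 ≤ 2 * ((d - d / 2) + 1) := by omega
        exact_mod_cast this
      have h7 := gap_two_pow (d - d / 2)
      have h8 : (2 : ℝ) ^ (d - d / 2) ≤ (p : ℝ) ^ (d - d / 2) :=
        pow_le_pow_left₀ (by norm_num) hp2 _
      linarith
    have h9 : (p : ℝ) ^ (d / 2) ≤ (p : ℝ) ^ d * (2 / (d + 1)) := by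
      rw [mul_div_assoc', le_div_iff₀ (by positivity)]
      nlinarith
    have h10 : (p : ℝ) ^ d * (1 - 4 / (d + 1)) ≤ d * ((Irr p d).card : ℝ) := by
      have : (p : ℝ) ^ d * (1 - 4 / (d + 1)) = (p : ℝ) ^ d - 2 * ((p : ℝ) ^ d * (2 / (d + 1))) := by
        ring
      rw [this]
      linarith
    have h0 : ((Irr p d).card : ℝ) * (1 / (p : ℝ) ^ d) = ((Irr p d).card : ℝ) / (p : ℝ) ^ d :=
      mul_one_div _ _
    rw [h0, le_div_iff₀ hpd]
    have h11 : (1 / (d : ℝ) - 4 * (1 / ((d : ℝ) * (d + 1)))) * (p : ℝ) ^ d =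
        ((p : ℝ) ^ d * (1 - 4 / (d + 1))) / d := by
      field_simp
    rw [h11, div_le_iff₀ hd0]
    linarith
  -- remove `X`
  have h12 : ((Irr p d).card : ℝ) * (1 / (p : ℝ) ^ d) - 1 / ((d : ℝ) * (d + 1)) ≤
      ((IP p d).card : ℝ) * (1 / (p : ℝ) ^ d) := by
    by_cases hd1 : d = 1
    · subst hd1
      have h13 : ((Irr p 1).card : ℝ) ≤ ((IP p 1).card : ℝ) + 1 := by
        have h14 : Irr p 1 ⊆ insert X (IP p 1) := by
          intro P hP
          by_cases hX : P = X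
          · rw [hX]; exact Finset.mem_insert_self _ _
          · refine Finset.mem_insert_of_mem (mem_IP.2 ?_)
            obtain ⟨a, b, c⟩ := (mem_Irr 1 P).1 hP
            exact ⟨a, b, c, hX⟩
        have := (Finset.card_le_card h14).trans (Finset.card_insert_le _ _)
        exact_mod_cast this
      have h15 : (1 : ℝ) / (p : ℝ) ^ 1 ≤ 1 / 2 := by
        rw [pow_one]
        exact one_div_le_one_div_of_le (by norm_num) hp2
      have h16 : (0 : ℝ) < 1 / (p : ℝ) ^ 1 := by positivity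
      have h17 : (1 : ℝ) / (((1 : ℕ) : ℝ) * ((1 : ℕ) + 1)) = 1 / 2 := by norm_num
      rw [h17]
      nlinarith
    · have h14 : Irr p d ⊆ IP p d := by
        intro P hP
        obtain ⟨a, b, c⟩ := (mem_Irr d P).1 hP
        refine mem_IP.2 ⟨a, b, c, ?_⟩
        rintro rfl
        rw [natDegree_X] at b
        exact hd1 b.symm
      have h18 : ((Irr p d).card : ℝ) ≤ ((IP p d).card : ℝ) := by
        exact_mod_cast Finset.card_le_card h14
      have h19 : (0 : ℝ) < 1 / ((d : ℝ) * (d + 1)) := by positivity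
      have h20 : ((Irr p d).card : ℝ) * (1 / (p : ℝ) ^ d) ≤
          ((IP p d).card : ℝ) * (1 / (p : ℝ) ^ d) := mul_le_mul_of_nonneg_right h18 (by positivity)
      linarith
  linarith

theorem gap_IP_le (d : ℕ) (hd : 1 ≤ d) :
    ((IP p d).card : ℝ) * (1 / (p : ℝ) ^ d) ≤ 1 / d := by
  classical
  have hp2 : (2 : ℝ) ≤ p := by exact_mod_cast (Fact.out : p.Prime).two_le
  have hd0 : (0 : ℝ) < d := by exact_mod_cast hd
  have hpd : (0 : ℝ) < (p : ℝ) ^ d := by positivity
  have h1 : ((IP p d).card : ℝ) ≤ ((Irr p d).card : ℝ) := by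
    have : (IP p d).card ≤ (Irr p d).card := by
      unfold IP
      exact Finset.card_le_card (Finset.filter_subset _ _)
    exact_mod_cast this
  have h2 : (d : ℝ) * ((Irr p d).card : ℝ) ≤ (p : ℝ) ^ d := by
    exact_mod_cast s1_card_Irr_le (p := p) d
  rw [mul_one_div, div_le_div_iff₀ hpd hd0]
  nlinarith

/-- One degree, upper bound. -/
theorem gap_step_le (d : ℕ) (hd : 1 ≤ d) :
    ∏ P ∈ IP p d, (1 - 1 / (p : ℝ) ^ P.natDegree) ≤
      Real.exp (5 * (1 / ((d : ℝ) * (d + 1)))) * ((d : ℝ) / (d + 1)) := by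
  have hp2 : (2 : ℝ) ≤ p := by exact_mod_cast (Fact.out : p.Prime).two_le
  have hd0 : (0 : ℝ) < d := by exact_mod_cast hd
  have hpd : (0 : ℝ) < (p : ℝ) ^ d := by positivity
  have hpd1 : (1 : ℝ) ≤ (p : ℝ) ^ d := one_le_pow₀ (by linarith)
  rw [Finset.prod_congr rfl (g := fun _ => 1 - 1 / (p : ℝ) ^ d)
    fun P hP => by rw [(mem_IP.1 hP).2.1], Finset.prod_const]
  have h0 : 0 ≤ 1 - 1 / (p : ℝ) ^ d := by
    rw [sub_nonneg, div_le_one hpd]
    exact hpd1
  have h1 : (1 - 1 / (p : ℝ) ^ d) ^ (IP p d).card ≤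
      Real.exp (-(((IP p d).card : ℝ) * (1 / (p : ℝ) ^ d))) := by
    have h2 : 1 - 1 / (p : ℝ) ^ d ≤ Real.exp (-(1 / (p : ℝ) ^ d)) := by
      have := Real.add_one_le_exp (-(1 / (p : ℝ) ^ d))
      linarith
    refine (pow_le_pow_left₀ h0 h2 _).trans (le_of_eq ?_)
    rw [← Real.exp_nat_mul]
    ring_nf
  refine h1.trans ?_
  have h3 := gap_IP_ge (p := p) d hd
  have h4 : Real.exp (-(1 / (d : ℝ))) ≤ d / (d + 1) := by
    rw [Real.exp_neg, inv_le_comm₀ (Real.exp_pos _) (by positivity), inv_div]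
    have := Real.add_one_le_exp (1 / (d : ℝ))
    refine le_trans (le_of_eq ?_) this
    field_simp
    ring
  calc Real.exp (-(((IP p d).card : ℝ) * (1 / (p : ℝ) ^ d)))
      ≤ Real.exp (5 * (1 / ((d : ℝ) * (d + 1))) + -(1 / (d : ℝ))) :=
        Real.exp_le_exp.2 (by linarith)
    _ = Real.exp (5 * (1 / ((d : ℝ) * (d + 1)))) * Real.exp (-(1 / (d : ℝ))) := Real.exp_add _ _
    _ ≤ _ := mul_le_mul_of_nonneg_left h4 (Real.exp_pos _).le

/-- One degree, lower bound. -/
theorem gap_step_ge (d : ℕ) (hd : 1 ≤ d) :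
    Real.exp (-(2 * (1 / ((d : ℝ) * (d + 1))))) * ((d : ℝ) / (d + 1)) ≤
      ∏ P ∈ IP p d, (1 - 1 / (p : ℝ) ^ P.natDegree) := by
  have hp2 : (2 : ℝ) ≤ p := by exact_mod_cast (Fact.out : p.Prime).two_le
  have hd0 : (0 : ℝ) < d := by exact_mod_cast hd
  have hpd : (0 : ℝ) < (p : ℝ) ^ d := by positivity
  rw [Finset.prod_congr rfl (g := fun _ => 1 - 1 / (p : ℝ) ^ d)
    fun P hP => by rw [(mem_IP.1 hP).2.1], Finset.prod_const]
  set x : ℝ := 1 / (p : ℝ) ^ d with hx
  have hx0 : 0 < x := by positivity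
  have hpd2 : (2 : ℝ) ^ d ≤ (p : ℝ) ^ d := pow_le_pow_left₀ (by norm_num) hp2 _
  have hxh : x ≤ 1 / 2 := by
    refine one_div_le_one_div_of_le (by norm_num) ?_
    refine le_trans ?_ hpd2
    calc (2 : ℝ) = 2 ^ 1 := by norm_num
      _ ≤ 2 ^ d := pow_le_pow_right₀ (by norm_num) hd
  have hxd : x ≤ 1 / (d + 1) :=
    one_div_le_one_div_of_le (by positivity) ((gap_two_pow d).trans hpd2)
  have h1 : Real.exp (-(x + x ^ 2)) ≤ 1 - x := by
    rw [Real.exp_neg, inv_le_comm₀ (Real.exp_pos _) (by linarith)]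
    refine le_trans ?_ (Real.quadratic_le_exp_of_nonneg (by positivity))
    rw [inv_le_iff_one_le_mul₀ (by linarith)]
    have h2 : 0 ≤ x ^ 2 * (1 / 2 - x) := mul_nonneg (by positivity) (by linarith)
    have h3 : 0 ≤ x ^ 3 * (1 / 2 - x) := mul_nonneg (by positivity) (by linarith)
    have h4 : 0 ≤ x ^ 4 * (1 / 2 - x) := mul_nonneg (by positivity) (by linarith)
    nlinarith
  have h5 : Real.exp (-(((IP p d).card : ℝ) * x * (1 + x))) ≤ (1 - x) ^ (IP p d).card := by
    refine le_trans (le_of_eq ?_) (pow_le_pow_left₀ (Real.exp_pos _).le h1 _)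
    rw [← Real.exp_nat_mul]
    congr 1
    ring
  refine le_trans ?_ h5
  have h6 := gap_IP_le (p := p) d hd
  have h7 : ((IP p d).card : ℝ) * x * (1 + x) ≤ 1 / d + 1 / ((d : ℝ) * (d + 1)) := by
    calc ((IP p d).card : ℝ) * x * (1 + x) ≤ 1 / d * (1 + 1 / (d + 1)) :=
          mul_le_mul h6 (by linarith) (by positivity) (by positivity)
      _ = 1 / d + 1 / ((d : ℝ) * (d + 1)) := by field_simp
  have h8 : Real.exp (1 / (d : ℝ)) * (d / (d + 1)) ≤ Real.exp (1 / ((d : ℝ) * (d + 1))) := by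
    have h9 : (d : ℝ) / (d + 1) ≤ Real.exp (-(1 / ((d : ℝ) + 1))) := by
      have := Real.add_one_le_exp (-(1 / ((d : ℝ) + 1)))
      refine le_trans (le_of_eq ?_) this
      field_simp
      ring
    refine (mul_le_mul_of_nonneg_left h9 (Real.exp_pos _).le).trans (le_of_eq ?_)
    rw [← Real.exp_add]
    congr 1
    field_simp
    ring
  have h10 : Real.exp (-(2 * (1 / ((d : ℝ) * (d + 1))))) * ((d : ℝ) / (d + 1)) =
      Real.exp (-(2 * (1 / ((d : ℝ) * (d + 1)))) - 1 / d) *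
        (Real.exp (1 / (d : ℝ)) * (d / (d + 1))) := by
    rw [← mul_assoc, ← Real.exp_add]
    congr 2
    ring
  rw [h10]
  refine (mul_le_mul_of_nonneg_left h8 (Real.exp_pos _).le).trans ?_
  rw [← Real.exp_add, Real.exp_le_exp]
  linarith

theorem GS_prod (k m : ℕ) (φ : (ZMod p)[X] → ℝ) :
    ∏ P ∈ GS p k m, φ P = ∏ d ∈ Ioc k m, ∏ P ∈ IP p d, φ P := by
  classical
  unfold GS
  refine Finset.prod_biUnion ?_
  intro d _ e _ hde
  rw [Function.onFun, Finset.disjoint_left]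
  intro P h1 h2
  exact hde ((mem_IP.1 h1).2.1.symm.trans (mem_IP.1 h2).2.1)

/-- The density of the polynomials without prime factors of degree in `(k, m]`. -/
theorem gap_density {k m : ℕ} (h : k ≤ m) :
    Real.exp (-(2 * (1 / ((k : ℝ) + 1) - 1 / ((m : ℝ) + 1)))) * (((k : ℝ) + 1) / (m + 1)) ≤
        ∏ P ∈ GS p k m, (1 - 1 / (p : ℝ) ^ P.natDegree) ∧
      ∏ P ∈ GS p k m, (1 - 1 / (p : ℝ) ^ P.natDegree) ≤
        Real.exp (5 * (1 / ((k : ℝ) + 1) - 1 / ((m : ℝ) + 1))) * (((k : ℝ) + 1) / (m + 1)) := by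
  rw [GS_prod]
  induction m, h using Nat.le_induction with
  | base =>
    have : ((k : ℝ) + 1) ≠ 0 := by positivity
    simp [this]
  | succ m hkm ih =>
    rw [← Finset.insert_Ioc_right_eq_Ioc_add_one hkm, Finset.prod_insert (by simp)]
    have h1 := gap_step_le (p := p) (m + 1) (by omega)
    have h2 := gap_step_ge (p := p) (m + 1) (by omega)
    push_cast at h1 h2
    have e1 : (1 : ℝ) / (((m : ℝ) + 1) * (m + 1 + 1)) = 1 / ((m : ℝ) + 1) - 1 / (m + 1 + 1) := by
      field_simp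
      ring
    rw [e1] at h1 h2
    have h0 : (0 : ℝ) ≤ ∏ d ∈ Ioc k m, ∏ P ∈ IP p d, (1 - 1 / (p : ℝ) ^ P.natDegree) :=
      le_trans (by positivity) ih.1
    push_cast
    constructor
    · refine le_trans (le_of_eq ?_) (mul_le_mul h2 ih.1 (by positivity)
        (le_trans (by positivity) h2))
      have e2 : Real.exp (-(2 * (1 / ((k : ℝ) + 1) - 1 / ((m : ℝ) + 1 + 1)))) =
          Real.exp (-(2 * (1 / ((m : ℝ) + 1) - 1 / (m + 1 + 1)))) *
            Real.exp (-(2 * (1 / ((k : ℝ) + 1) - 1 / ((m : ℝ) + 1)))) := by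
        rw [← Real.exp_add]
        congr 1
        ring
      rw [e2]
      field_simp
    · refine (mul_le_mul h1 ih.2 h0 (by positivity)).trans (le_of_eq ?_)
      have e2 : Real.exp (5 * (1 / ((k : ℝ) + 1) - 1 / ((m : ℝ) + 1 + 1))) =
          Real.exp (5 * (1 / ((m : ℝ) + 1) - 1 / (m + 1 + 1))) *
            Real.exp (5 * (1 / ((k : ℝ) + 1) - 1 / ((m : ℝ) + 1))) := by
        rw [← Real.exp_add]
        congr 1
        ring
      rw [e2]
      field_simp

theorem gap_density_le {k m : ℕ} (h : k ≤ m) :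
    ∏ P ∈ GS p k m, (1 - 1 / (p : ℝ) ^ P.natDegree) ≤ Real.exp 5 * (((k : ℝ) + 1) / (m + 1)) := by
  refine (gap_density h).2.trans (mul_le_mul_of_nonneg_right (Real.exp_le_exp.2 ?_)
    (by positivity))
  have h1 : (1 : ℝ) / ((k : ℝ) + 1) ≤ 1 := by
    rw [div_le_one (by positivity)]
    linarith [(Nat.cast_nonneg k : (0 : ℝ) ≤ k)]
  have h2 : (0 : ℝ) ≤ 1 / ((m : ℝ) + 1) := by positivity
  linarith

theorem gap_density_ge {k m : ℕ} (h : k ≤ m) :
    Real.exp (-2) * (((k : ℝ) + 1) / (m + 1)) ≤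
      ∏ P ∈ GS p k m, (1 - 1 / (p : ℝ) ^ P.natDegree) := by
  refine (mul_le_mul_of_nonneg_right (Real.exp_le_exp.2 ?_) (by positivity)).trans
    (gap_density h).1
  have h1 : (1 : ℝ) / ((k : ℝ) + 1) ≤ 1 := by
    rw [div_le_one (by positivity)]
    linarith [(Nat.cast_nonneg k : (0 : ℝ) ≤ k)]
  have h2 : (0 : ℝ) ≤ 1 / ((m : ℝ) + 1) := by positivity
  linarith

end

end Pool.Agent.MP6cc1fa
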