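import Pool.Agent.Lib.MP_6cc1fa_pr.SM.GapA

/-! MP_6cc1fa_pr, module GAPB: the sieve for prime factors of degree in `(k, m]`. -/

set_option autoImplicit false

namespace Pool.Agent.MP6cc1fa

open Polynomial Finset UniqueFactorizationMonoid

noncomputable section

section comb

set_option linter.unusedSectionVars false

variable {ι : Type} [DecidableEq ι]

theorem gap_V_ge (g : ι → ℝ) (S : Finset ι) (hg0 : ∀ P ∈ S, 0 ≤ g P)
    (hg1 : ∀ P ∈ S, g P ≤ 1 / 2) (hs : ∑ P ∈ S, g P ≤ 1) : 1 / 8 ≤ ∏ P ∈ S, (1 - g P) := by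
  have h1 : Real.exp (-2) ≤ ∏ P ∈ S, (1 - g P) := by
    calc Real.exp (-2) ≤ Real.exp (∑ P ∈ S, (-(2 * g P))) := by
          rw [Real.exp_le_exp, Finset.sum_neg_distrib, ← Finset.mul_sum]
          linarith
      _ = ∏ P ∈ S, Real.exp (-(2 * g P)) := Real.exp_sum _ _
      _ ≤ ∏ P ∈ S, (1 - g P) := by
          refine Finset.prod_le_prod (fun P _ => (Real.exp_pos _).le) fun P hP => ?_
          have h2 := hg0 P hP
          have h3 := hg1 P hP
          have h4 : 1 + 2 * g P ≤ Real.exp (2 * g P) := by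
            have := Real.add_one_le_exp (2 * g P)
            linarith
          rw [Real.exp_neg]
          rw [inv_le_comm₀ (Real.exp_pos _) (by linarith)]
          refine le_trans ?_ h4
          rw [inv_le_comm₀ (by linarith) (by linarith)]
          rw [inv_le_iff_one_le_mul₀ (by linarith)]
          nlinarith
  refine le_trans ?_ h1
  have h2 : Real.exp 2 ≤ 8 := by
    have h3 : Real.exp 2 = Real.exp 1 ^ 2 := by
      rw [← Real.exp_nat_mul]
      norm_num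
    rw [h3]
    have h4 := Real.exp_one_lt_d9
    have h5 := Real.exp_pos 1
    nlinarith
  rw [Real.exp_neg, one_div]
  exact inv_anti₀ (Real.exp_pos 2) h2

theorem gap_Y_le (g : ι → ℝ) (S : Finset ι) (hg0 : ∀ P ∈ S, 0 ≤ g P)
    (hg1 : ∀ P ∈ S, g P ≤ 1 / 2) (hs : ∑ P ∈ S, g P ≤ 1) (b : ℕ) :
    sm5Y g (2 * b) S ≤ (1 + (8 : ℝ) / (2 * b + 1).factorial) * ∏ P ∈ S, (1 - g P) := by
  have h := sm5_bonf g S hg0 (fun P hP => (hg1 P hP).trans (by norm_num)) (2 * b + 1)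
  have hsucc := sm5Y_succ g (2 * b) S
  have hodd : (-1 : ℝ) ^ (2 * b + 1) = -1 := Odd.neg_one_pow ⟨b, rfl⟩
  rw [hodd] at h hsucc
  have hf : (0 : ℝ) < (2 * b + 1).factorial := by positivity
  have h1 := sm5E_le g S hg0 (2 * b + 1)
  have h2 : (∑ P ∈ S, g P) ^ (2 * b + 1) ≤ 1 :=
    pow_le_one₀ (Finset.sum_nonneg fun P hP => hg0 P hP) hs
  have h3 : sm5E g (2 * b + 1) S ≤ 1 / (2 * b + 1).factorial := by
    rw [le_div_iff₀ hf]
    exact h1.trans h2
  have h4 := gap_V_ge g S hg0 hg1 hs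
  have h5 : (1 : ℝ) / (2 * b + 1).factorial ≤
      (8 : ℝ) / (2 * b + 1).factorial * ∏ P ∈ S, (1 - g P) := by
    rw [div_mul_eq_mul_div, div_le_div_iff_of_pos_right hf]
    linarith
  linarith

theorem gap_Y_ge (g : ι → ℝ) (S : Finset ι) (hg0 : ∀ P ∈ S, 0 ≤ g P)
    (hg1 : ∀ P ∈ S, g P ≤ 1 / 2) (b : ℕ) :
    ∏ P ∈ S, (1 - g P) ≤ sm5Y g (2 * b) S := by
  have h := sm5_bonf g S hg0 (fun P hP => (hg1 P hP).trans (by norm_num)) (2 * b)
  rw [Even.neg_one_pow ⟨b, by ring⟩, one_mul, sub_nonneg] at h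
  exact h

theorem gap_prod_part (cls : ι → ℕ) (L : ℕ) (S : Finset ι) (hS : ∀ P ∈ S, cls P < L)
    (φ : ι → ℝ) : ∏ j ∈ range L, ∏ P ∈ part cls S j, φ P = ∏ P ∈ S, φ P := by
  unfold part
  exact Finset.prod_fiberwise_of_maps_to (fun P hP => Finset.mem_range.2 (hS P hP)) φ

/-- The main terms of the two sieves. -/
theorem gap_main_term (cls : ι → ℕ) (b : ℕ → ℕ) (L : ℕ) (S : Finset ι)
    (hS : ∀ P ∈ S, cls P < L) (g : ι → ℝ) (hg0 : ∀ P ∈ S, 0 ≤ g P) (hg1 : ∀ P ∈ S, g P ≤ 1 / 2)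
    (hs : ∀ l < L, ∑ P ∈ part cls S l, g P ≤ 1) {ε : ℝ}
    (hε : ∑ l ∈ range L, (8 : ℝ) / (2 * b l + 1).factorial ≤ ε) :
    ∏ P ∈ S, (1 - g P) ≤ ∑ D ∈ S.powerset, lamP cls b L D * ∏ P ∈ D, g P ∧
    ∑ D ∈ S.powerset, lamP cls b L D * ∏ P ∈ D, g P ≤ Real.exp ε * ∏ P ∈ S, (1 - g P) := by
  have hsub : ∀ j, ∀ P ∈ part cls S j, P ∈ S := fun j P hP => (sm5_mem_part.1 hP).1
  have hV0 : ∀ j, 0 ≤ ∏ P ∈ part cls S j, (1 - g P) := fun j =>
    Finset.prod_nonneg fun P hP => by linarith [hg1 P (hsub j P hP)]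
  rw [sm5_sumP cls b L g S hS, ← gap_prod_part cls L S hS]
  constructor
  · exact Finset.prod_le_prod (fun j _ => hV0 j) fun j _ =>
      gap_Y_ge g _ (fun P hP => hg0 P (hsub j P hP)) (fun P hP => hg1 P (hsub j P hP)) (b j)
  · have h1 : ∀ j ∈ range L, sm5Y g (2 * b j) (part cls S j) ≤
        Real.exp ((8 : ℝ) / (2 * b j + 1).factorial) * ∏ P ∈ part cls S j, (1 - g P) := by
      intro j hj
      refine (gap_Y_le g _ (fun P hP => hg0 P (hsub j P hP)) (fun P hP => hg1 P (hsub j P hP))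
        (hs j (Finset.mem_range.1 hj)) (b j)).trans ?_
      refine mul_le_mul_of_nonneg_right ?_ (hV0 j)
      have := Real.add_one_le_exp ((8 : ℝ) / (2 * b j + 1).factorial)
      linarith
    refine (Finset.prod_le_prod (fun j _ => (hV0 j).trans (gap_Y_ge g _
      (fun P hP => hg0 P (hsub j P hP)) (fun P hP => hg1 P (hsub j P hP)) (b j))) h1).trans ?_
    rw [Finset.prod_mul_distrib, ← Real.exp_sum]
    exact mul_le_mul_of_nonneg_right (Real.exp_le_exp.2 hε) (Finset.prod_nonneg fun j _ => hV0 j)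

end comb

variable {p : ℕ} [Fact p.Prime]

theorem GS_subset (k m : ℕ) : GS p k m ⊆ PP p m := by
  intro P hP
  obtain ⟨h1, -, h3, h4, h5⟩ := mem_GS.1 hP
  exact sm8_mem_PP.2 ⟨h1, h4, h3, h5⟩

/-- The density of the polynomials without divisor in `S`. -/
def VV (S : Finset (ZMod p)[X]) : ℝ := ∏ P ∈ S, (1 - 1 / (p : ℝ) ^ P.natDegree)

theorem gap_g_le {m : ℕ} {P : (ZMod p)[X]} (hP : P ∈ PP p m) :
    1 / (p : ℝ) ^ P.natDegree ≤ 1 / 2 := by
  have hp2 := sm4_p_two (p := p)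
  obtain ⟨-, h2, -, -⟩ := sm8_mem_PP.1 hP
  have hd := h2.natDegree_pos
  rw [one_div, one_div]
  refine inv_anti₀ (by norm_num) ?_
  calc (2 : ℝ) ≤ p := hp2
    _ = (p : ℝ) ^ 1 := (pow_one _).symm
    _ ≤ (p : ℝ) ^ P.natDegree := pow_le_pow_right₀ (by linarith) hd

theorem VV_nonneg {m : ℕ} {S : Finset (ZMod p)[X]} (hS : S ⊆ PP p m) : 0 ≤ VV S :=
  Finset.prod_nonneg fun P hP => by linarith [gap_g_le (hS hP)]

theorem gap_dcl_sum {m : ℕ} {S : Finset (ZMod p)[X]} (hS : S ⊆ PP p m) (l : ℕ) :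
    ∑ P ∈ part (dcl m) S l, 1 / (p : ℝ) ^ P.natDegree ≤ 1 := by
  refine le_trans (Finset.sum_le_sum_of_subset_of_nonneg ?_ fun P _ _ => by positivity)
    (dcl_sum (p := p) (m := m) l)
  intro P hP
  obtain ⟨h1, h2⟩ := sm5_mem_part.1 hP
  exact sm5_mem_part.2 ⟨hS h1, h2⟩

/-- The main terms for a set of primes of degree at most `m`. -/
theorem gap_terms {m b0 : ℕ} (hb : 2 ≤ b0) {S : Finset (ZMod p)[X]} (hS : S ⊆ PP p m) :
    (1 - 11 / 4 ^ b0) * VV S ≤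
        ∑ D ∈ S.powerset, lamM (dcl m) (fun l => b0 + l) (Nat.log 2 m + 1) D *
          ∏ P ∈ D, 1 / (p : ℝ) ^ P.natDegree ∧
      ∑ D ∈ S.powerset, lamP (dcl m) (fun l => b0 + l) (Nat.log 2 m + 1) D *
          ∏ P ∈ D, 1 / (p : ℝ) ^ P.natDegree ≤ Real.exp (11 / 4 ^ b0) * VV S := by
  have hS' : ∀ P ∈ S, dcl m P < Nat.log 2 m + 1 := fun P hP => dcl_lt (hS hP)
  have hg0 : ∀ P ∈ S, 0 ≤ 1 / (p : ℝ) ^ P.natDegree := fun P _ => by positivity
  have hg1 : ∀ P ∈ S, 1 / (p : ℝ) ^ P.natDegree ≤ 1 / 2 := fun P hP => gap_g_le (hS hP)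
  have heps : (∑ l ∈ range (Nat.log 2 m + 1), (8 : ℝ) / (2 * (b0 + l) + 1).factorial) ≤
      11 / 4 ^ b0 := lam_eps b0 _
  obtain ⟨h1, h2⟩ := gap_main_term (dcl m) (fun l => b0 + l) (Nat.log 2 m + 1) S hS'
    (fun P => 1 / (p : ℝ) ^ P.natDegree) hg0 hg1 (fun l _ => gap_dcl_sum hS l) heps
  obtain ⟨h3, h4⟩ := lam_main (dcl m) (fun l => b0 + l) (Nat.log 2 m + 1) S hS'
    (fun P => 1 / (p : ℝ) ^ P.natDegree) hg0 hg1 (fun l _ => gap_dcl_sum hS l)
  have hV0 := VV_nonneg hS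
  have hb1 : (11 : ℝ) / 4 ^ b0 ≤ 1 := by
    have : (4 : ℝ) ^ 2 ≤ 4 ^ b0 := pow_le_pow_right₀ (by norm_num) hb
    rw [div_le_one (by positivity)]
    linarith
  exact ⟨le_trans (mul_le_mul (by linarith) h1 hV0 (by linarith)) h4, h2⟩

open Classical in
theorem gap_sum_lam {m : ℕ} {S : Finset (ZMod p)[X]} (hS : S ⊆ PP p m)
    (lam : Finset (ZMod p)[X] → ℝ) (f : (ZMod p)[X]) :
    (∑ D ∈ S.powerset, if ∏ P ∈ D, P ∣ f then lam D else 0) =
      ∑ D ∈ (S.filter fun P => P ∣ f).powerset, lam D := by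
  rw [← sum_filter]
  refine sum_congr ?_ fun _ _ => rfl
  ext D
  rw [mem_filter, mem_powerset, mem_powerset]
  constructor
  · rintro ⟨h1, h2⟩ P hP
    exact mem_filter.2 ⟨h1 hP, (sm8_dvd (h1.trans hS) f).1 h2 P hP⟩
  · intro h
    have h1 : D ⊆ S := fun P hP => (mem_filter.1 (h hP)).1
    exact ⟨h1, (sm8_dvd (h1.trans hS) f).2 fun P hP => (mem_filter.1 (h hP)).2⟩

open Classical in
theorem gap_law (μ : ZMod p → ℝ) {m N : ℕ} {S : Finset (ZMod p)[X]} (hS : S ⊆ PP p m)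
    (lam : Finset (ZMod p)[X] → ℝ) :
    ∑ D ∈ S.powerset, lam D * prD μ N (∏ P ∈ D, P) =
      ∑ a : Fin N → ZMod p, (∏ i, μ (a i)) *
        ∑ D ∈ (S.filter fun P => P ∣ pol a).powerset, lam D := by
  simp only [prD, mul_sum, ← gap_sum_lam hS]
  rw [sum_comm]
  refine sum_congr rfl fun a _ => sum_congr rfl fun D _ => ?_
  split_ifs
  · ring
  · ring

theorem one_mem_GG (m t : ℕ) : (1 : (ZMod p)[X]) ∈ GG p m t := by
  classical
  refine sm8_mem_GG.2 ⟨monic_one, by simp, ?_⟩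
  rw [sm8_smo_def]
  simp

/-- The error of the level of distribution. -/
def EE' (μ : ZMod p → ℝ) (N B : ℕ) : ℝ := by
  classical
  exact ∑ b ∈ range (B + 1), ∑ D ∈ (MD p b).filter (fun D => D.coeff 0 ≠ 0),
    (tau D : ℝ) * err μ N D

/-- The error terms of the sieves. -/
theorem gap_error (μ : ZMod p → ℝ) {m N b0 : ℕ} (hm : 1 ≤ m) {S : Finset (ZMod p)[X]}
    (hS : S ⊆ PP p m) (lam : Finset (ZMod p)[X] → ℝ) (h1 : ∀ D, |lam D| ≤ 1)
    (h2 : ∀ D, lam D ≠ 0 → lamM (dcl m) (fun l => b0 + l) (Nat.log 2 m + 1) D ≠ 0) :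
    |∑ D ∈ S.powerset, lam D * prD μ N (∏ P ∈ D, P) -
        ∑ D ∈ S.powerset, lam D * ∏ P ∈ D, 1 / (p : ℝ) ^ P.natDegree| ≤
      EE' μ N ((4 * b0 + 6) * m) := by
  classical
  have hE := sm8_errors (p := p) μ (N := N) (m := m) (t := 0) (b0 := b0) hm
  rw [zero_add] at hE
  have hE' : EE' μ N ((4 * b0 + 6) * m) = ∑ b ∈ range ((4 * b0 + 6) * m + 1),
      ∑ B ∈ (MD p b).filter (fun B => B.coeff 0 ≠ 0), (tau B : ℝ) * err μ N B := by
    unfold EE'
    congr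
  rw [hE']
  refine le_trans ?_ hE
  refine le_trans ?_ (Finset.single_le_sum (f := fun A => ∑ D ∈ (PP p m).powerset.filter
        (fun D => lamM (dcl m) (fun l => b0 + l) (Nat.log 2 m + 1) D ≠ 0),
          err μ N (A * ∏ P ∈ D, P))
      (fun A _ => Finset.sum_nonneg fun D _ => abs_nonneg _) (one_mem_GG m 0))
  simp only [one_mul]
  rw [← Finset.sum_sub_distrib]
  refine (Finset.abs_sum_le_sum_abs _ _).trans ?_
  have h3 : ∀ D ∈ S.powerset,
      |lam D * prD μ N (∏ P ∈ D, P) - lam D * ∏ P ∈ D, 1 / (p : ℝ) ^ P.natDegree| ≤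
        if lamM (dcl m) (fun l => b0 + l) (Nat.log 2 m + 1) D ≠ 0 then
          err μ N (∏ P ∈ D, P) else 0 := by
    intro D hD
    have hD' : D ⊆ PP p m := (Finset.mem_powerset.1 hD).trans hS
    by_cases hz : lam D = 0
    · rw [hz, zero_mul, zero_mul, sub_zero, abs_zero]
      split_ifs
      · exact abs_nonneg _
      · exact le_rfl
    · rw [if_pos (h2 D hz), ← mul_sub, abs_mul]
      have e : ∏ P ∈ D, 1 / (p : ℝ) ^ P.natDegree = 1 / (p : ℝ) ^ (∏ P ∈ D, P).natDegree := by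
        rw [sm8_natDegree_prod hD', prod_div_distrib, prod_const_one, prod_pow_eq_pow_sum]
      rw [e]
      have h4 : 0 ≤ err μ N (∏ P ∈ D, P) := abs_nonneg _
      calc |lam D| * |prD μ N (∏ P ∈ D, P) - 1 / (p : ℝ) ^ (∏ P ∈ D, P).natDegree|
          ≤ 1 * err μ N (∏ P ∈ D, P) := mul_le_mul_of_nonneg_right (h1 D) h4
        _ = _ := one_mul _
  refine (Finset.sum_le_sum h3).trans ?_
  rw [Finset.sum_filter]
  refine Finset.sum_le_sum_of_subset_of_nonneg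
    (Finset.powerset_mono.2 hS) fun D _ _ => ?_
  split_ifs
  · exact abs_nonneg _
  · exact le_rfl

/-- The probability of `Z` for the random polynomial with `N` independent digits. -/
def PR (μ : ZMod p → ℝ) (N : ℕ) (Z : Set (ZMod p)[X]) : ℝ := by
  classical
  exact ∑ a : Fin N → ZMod p, if pol a ∈ Z then ∏ i, μ (a i) else 0

/-- The polynomials without divisor in `S`. -/
def ND (S : Finset (ZMod p)[X]) : Set (ZMod p)[X] := {f | ∀ P ∈ S, ¬ P ∣ f}

/-- The sieve: upper and lower bound. -/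
theorem gap_sieve (μ : ZMod p → ℝ) (h0 : ∀ x, 0 ≤ μ x) {m N b0 : ℕ} (hm : 1 ≤ m) (hb : 2 ≤ b0)
    {S : Finset (ZMod p)[X]} (hS : S ⊆ PP p m) :
    (1 - 11 / 4 ^ b0) * VV S - EE' μ N ((4 * b0 + 6) * m) ≤ PR μ N (ND S) ∧
    PR μ N (ND S) ≤ Real.exp (11 / 4 ^ b0) * VV S + EE' μ N ((4 * b0 + 6) * m) := by
  classical
  obtain ⟨ht1, ht2⟩ := gap_terms (p := p) hb hS
  have habsM : ∀ D : Finset (ZMod p)[X],
      |lamM (dcl m) (fun l => b0 + l) (Nat.log 2 m + 1) D| ≤ 1 := fun D => sm8_lamM_abs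
  have habsP : ∀ D : Finset (ZMod p)[X],
      |lamP (dcl m) (fun l => b0 + l) (Nat.log 2 m + 1) D| ≤ 1 := by
    intro D
    unfold lamP
    split_ifs
    · rw [abs_pow, abs_neg, abs_one, one_pow]
    · simp
  have heM := gap_error μ (N := N) hm hS _ habsM (fun D h => h)
  have heP := gap_error μ (N := N) hm hS _ habsP (fun D h => sm8_lamP_lamM h)
  rw [abs_le] at heM heP
  rw [gap_law μ hS] at heM heP
  have hQ : ∀ a : Fin N → ZMod p, ∀ P ∈ S.filter (fun P => P ∣ pol a),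
      dcl m P < Nat.log 2 m + 1 := fun a P hP =>
    dcl_lt (hS (mem_filter.1 hP).1)
  have hiff : ∀ a : Fin N → ZMod p, S.filter (fun P => P ∣ pol a) = ∅ ↔
      pol a ∈ ND S := fun a => Finset.filter_eq_empty_iff
  have hw : ∀ a : Fin N → ZMod p, 0 ≤ ∏ i, μ (a i) := fun a => prod_nonneg fun i _ => h0 _
  have hM : ∑ a : Fin N → ZMod p, (∏ i, μ (a i)) *
      ∑ D ∈ (S.filter fun P => P ∣ pol a).powerset,
        lamM (dcl m) (fun l => b0 + l) (Nat.log 2 m + 1) D ≤ PR μ N (ND S) := by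
    unfold PR
    refine sum_le_sum fun a _ => ?_
    refine (mul_le_mul_of_nonneg_left (lamM_le (dcl m) (fun l => b0 + l) _ _ (hQ a)) (hw a)).trans
      (le_of_eq ?_)
    simp only [hiff]
    split_ifs <;> simp
  have hP : PR μ N (ND S) ≤
      ∑ a : Fin N → ZMod p, (∏ i, μ (a i)) *
      ∑ D ∈ (S.filter fun P => P ∣ pol a).powerset,
        lamP (dcl m) (fun l => b0 + l) (Nat.log 2 m + 1) D := by
    unfold PR
    refine sum_le_sum fun a _ => ?_
    refine le_trans (le_of_eq ?_)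
      (mul_le_mul_of_nonneg_left (lamP_ge (dcl m) (fun l => b0 + l) _ _ (hQ a)) (hw a))
    simp only [hiff]
    split_ifs <;> simp
  constructor
  · linarith [heM.1]
  · linarith [heP.2]

end

end Pool.Agent.MP6cc1fa
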