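import Pool.Agent.Lib.MP_6cc1fa_pr.SM.GapB

/-! MP_6cc1fa_pr, module GAPC: the fundamental lemma with relative error, and gaps. -/

set_option autoImplicit false

namespace Pool.Agent.MP6cc1fa

open Polynomial Finset UniqueFactorizationMonoid

noncomputable section

variable {p : ℕ} [Fact p.Prime]

/-- The laws `μ` on `F_p` with `max μ ≤ 1 - η`. -/
structure Law (η : ℝ) (μ : ZMod p → ℝ) : Prop where
  nn : ∀ x, 0 ≤ μ x
  one : ∑ x, μ x = 1
  le : ∀ x, μ x ≤ 1 - η

theorem PR_nonneg {μ : ZMod p → ℝ} (h0 : ∀ x, 0 ≤ μ x) (N : ℕ) (Z : Set (ZMod p)[X]) :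
    0 ≤ PR μ N Z := by
  classical
  unfold PR
  refine sum_nonneg fun a _ => ?_
  split_ifs
  · exact prod_nonneg fun i _ => h0 _
  · exact le_rfl

theorem PR_mono {μ : ZMod p → ℝ} (h0 : ∀ x, 0 ≤ μ x) (N : ℕ) {Z Z' : Set (ZMod p)[X]}
    (h : Z ⊆ Z') : PR μ N Z ≤ PR μ N Z' := by
  classical
  unfold PR
  refine sum_le_sum fun a _ => ?_
  have := prod_nonneg (s := univ) (f := fun i => μ (a i)) fun i _ => h0 _
  by_cases h1 : pol a ∈ Z
  · rw [if_pos h1, if_pos (h h1)]
  · rw [if_neg h1]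
    split_ifs
    · exact this
    · exact le_rfl

theorem PR_univ {μ : ZMod p → ℝ} (h1 : ∑ x, μ x = 1) (N : ℕ) : PR μ N Set.univ = 1 := by
  classical
  unfold PR
  simp only [Set.mem_univ, if_true]
  have h2 : ∑ a : Fin N → ZMod p, ∏ i, μ (a i) = ∏ _i : Fin N, ∑ x, μ x := by
    rw [Finset.prod_univ_sum, Fintype.piFinset_univ]
  rw [h2]
  simp [h1]

theorem PR_le_one {μ : ZMod p → ℝ} (h0 : ∀ x, 0 ≤ μ x) (h1 : ∑ x, μ x = 1) (N : ℕ)
    (Z : Set (ZMod p)[X]) : PR μ N Z ≤ 1 := by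
  rw [← PR_univ h1 N]
  exact PR_mono h0 N (Set.subset_univ _)

theorem VV_le_one {m : ℕ} {S : Finset (ZMod p)[X]} (hS : S ⊆ PP p m) : VV S ≤ 1 :=
  Finset.prod_le_one (fun P hP => by linarith [gap_g_le (hS hP)]) fun P _ => by
    have : (0 : ℝ) < 1 / (p : ℝ) ^ P.natDegree := by
      have := sm4_p_pos (p := p)
      positivity
    linarith

/-- The fundamental lemma for small `m`. -/
theorem gap_basic {η : ℝ} (hη : 0 < η) : ∃ δ c C : ℝ, 0 < δ ∧ δ ≤ 1 ∧ 0 < c ∧ 0 < C ∧
    ∀ μ : ZMod p → ℝ, Law η μ → ∀ N m b0 : ℕ, 1 ≤ m → 2 ≤ b0 →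
      (((4 * b0 + 6) * m : ℕ) : ℝ) ≤ δ * N → ∀ S : Finset (ZMod p)[X], S ⊆ PP p m →
      |PR μ N (ND S) - VV S| ≤ 22 / 4 ^ b0 * VV S + C * Real.exp (-c * Real.sqrt N) := by
  classical
  obtain ⟨δ, c, C, hδ, hc, hC, H⟩ := level_dist (p := p) hη
  refine ⟨min δ 1, c, C, lt_min hδ one_pos, min_le_right _ _, hc, hC,
    fun μ hμ N m b0 hm hb hB S hS => ?_⟩
  have hB' : (((4 * b0 + 6) * m : ℕ) : ℝ) ≤ δ * N :=
    hB.trans (mul_le_mul_of_nonneg_right (min_le_left _ _) (Nat.cast_nonneg _))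
  have hE : EE' μ N ((4 * b0 + 6) * m) ≤ C * Real.exp (-c * Real.sqrt N) := by
    have := H μ hμ.nn hμ.one hμ.le N _ hB'
    unfold EE'
    convert this
  obtain ⟨h1, h2⟩ := gap_sieve μ hμ.nn (N := N) hm hb hS
  have hV0 := VV_nonneg hS
  have hb1 : (11 : ℝ) / 4 ^ b0 ≤ 1 := by
    have : (4 : ℝ) ^ 2 ≤ 4 ^ b0 := pow_le_pow_right₀ (by norm_num) hb
    rw [div_le_one (by positivity)]
    linarith
  have hb2 : (0 : ℝ) < 11 / 4 ^ b0 := by positivity
  have h3 : Real.exp (11 / 4 ^ b0) ≤ 1 + 22 / 4 ^ b0 := by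
    have h4 := Real.abs_exp_sub_one_sub_id_le (x := 11 / 4 ^ b0) (by
      rw [abs_of_pos hb2]; exact hb1)
    have h5 := (abs_le.1 h4).2
    have h6 : (11 / (4 : ℝ) ^ b0) ^ 2 ≤ 11 / 4 ^ b0 := by nlinarith
    have h7 : (22 : ℝ) / 4 ^ b0 = 11 / 4 ^ b0 + 11 / 4 ^ b0 := by ring
    linarith
  have h8 : (22 : ℝ) / 4 ^ b0 = 11 / 4 ^ b0 + 11 / 4 ^ b0 := by ring
  have h9 : 0 ≤ 11 / 4 ^ b0 * VV S := mul_nonneg hb2.le hV0
  rw [abs_le]
  constructor
  · rw [h8]
    nlinarith
  · have h10 : Real.exp (11 / 4 ^ b0) * VV S ≤ (1 + 22 / 4 ^ b0) * VV S :=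
      mul_le_mul_of_nonneg_right h3 hV0
    nlinarith

theorem VV_split {m m' : ℕ} {S : Finset (ZMod p)[X]} (hS : S ⊆ PP p m) (hm : m' ≤ m)
    {S' : Finset (ZMod p)[X]} (hS' : ∀ P, P ∈ S' ↔ P ∈ S ∧ P.natDegree ≤ m') :
    VV S' * (Real.exp (-2) * (((m' : ℝ) + 1) / (m + 1))) ≤ VV S := by
  classical
  have hsub : S' ⊆ S := fun P hP => ((hS' P).1 hP).1
  have h1 : VV S' * VV (S \ S') = VV S := by
    unfold VV
    rw [mul_comm, Finset.prod_sdiff hsub]
  have h2 : S \ S' ⊆ GS p m' m := by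
    intro P hP
    obtain ⟨hP1, hP2⟩ := Finset.mem_sdiff.1 hP
    obtain ⟨a, b, c, d⟩ := sm8_mem_PP.1 (hS hP1)
    refine mem_GS.2 ⟨a, ?_, c, b, d⟩
    by_contra h
    exact hP2 ((hS' P).2 ⟨hP1, by omega⟩)
  have h3 : VV (GS p m' m) ≤ VV (S \ S') := by
    unfold VV
    rw [← Finset.prod_sdiff h2]
    refine mul_le_of_le_one_left (VV_nonneg (h2.trans (GS_subset m' m))) ?_
    exact VV_le_one (Finset.sdiff_subset.trans (GS_subset m' m))
  rw [← h1]
  refine mul_le_mul_of_nonneg_left ?_ (VV_nonneg (hsub.trans hS))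
  exact (gap_density_ge hm).trans h3

/-- The fundamental lemma with relative error, for all `m ≤ N`. -/
theorem gap_fundamental {η : ℝ} (hη : 0 < η) : ∃ A c : ℝ, 0 < A ∧ 0 < c ∧
    ∀ μ : ZMod p → ℝ, Law η μ → ∀ N m : ℕ, 1 ≤ m → m ≤ N →
      ∀ S : Finset (ZMod p)[X], S ⊆ PP p m →
      |PR μ N (ND S) - VV S| ≤
        A * (Real.exp (-c * N / m) * VV S + Real.exp (-c * Real.sqrt N)) := by
  classical
  obtain ⟨δ, c, C, hδ, hδ1, hc, hC, H⟩ := gap_basic (p := p) hη
  set c' : ℝ := min c (δ / 4) with hc'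
  have hc'0 : 0 < c' := lt_min hc (by linarith)
  set K : ℝ := 28 * Real.exp 2 / δ with hK
  have hK1 : 1 ≤ K := by
    rw [hK, one_le_div hδ]
    have := Real.add_one_le_exp (2 : ℝ)
    linarith
  set A : ℝ := 22 * Real.exp (5 / 2) + C + Real.exp (c' * Real.sqrt (14 / δ)) +
    3 * K * Real.exp (14 * c' / δ) with hA
  have hA0 : 0 < A := by positivity
  refine ⟨A, c', hA0, hc'0, fun μ hμ N m hm hmN S hS => ?_⟩
  have hV0 := VV_nonneg hS
  have hV1 := VV_le_one hS
  have hm0 : (0 : ℝ) < m := by exact_mod_cast hm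
  have hN1 : (1 : ℝ) ≤ N := by exact_mod_cast hm.trans hmN
  have hmN' : (m : ℝ) ≤ N := by exact_mod_cast hmN
  have hs0 := Real.sqrt_nonneg (N : ℝ)
  have hexp : Real.exp (-c * Real.sqrt N) ≤ Real.exp (-c' * Real.sqrt N) :=
    Real.exp_le_exp.2 (by nlinarith [min_le_left c (δ / 4)])
  have he1 := Real.exp_pos (-c' * Real.sqrt N)
  have he2 := Real.exp_pos (-c' * N / m)
  have he25 := Real.exp_pos (5 / 2)
  have heb := Real.exp_pos (c' * Real.sqrt (14 / δ))
  have hec := Real.exp_pos (14 * c' / δ)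
  by_cases hcase : 14 * (m : ℝ) ≤ δ * N
  · -- small `m`
    set y : ℝ := (δ * N / m - 6) / 4 with hy
    have hy2 : 2 ≤ y := by
      rw [hy, le_div_iff₀ (by norm_num)]
      have : 14 ≤ δ * N / m := by rwa [le_div_iff₀ hm0]
      linarith
    set b0 : ℕ := ⌊y⌋₊ with hb0
    have hb2 : 2 ≤ b0 := Nat.le_floor (by exact_mod_cast hy2)
    have hb3 : (b0 : ℝ) ≤ y := Nat.floor_le (by linarith)
    have hb4 : y < b0 + 1 := Nat.lt_floor_add_one y
    have hB : (((4 * b0 + 6) * m : ℕ) : ℝ) ≤ δ * N := by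
      push_cast
      have h1 : 4 * (b0 : ℝ) + 6 ≤ δ * N / m := by
        rw [hy] at hb3
        linarith
      rwa [le_div_iff₀ hm0] at h1
    have h1 := H μ hμ N m b0 hm hb2 hB S hS
    have h2 : (22 : ℝ) / 4 ^ b0 ≤ 22 * Real.exp (5 / 2) * Real.exp (-c' * N / m) := by
      have h3 : Real.exp b0 ≤ 4 ^ b0 := by
        have h4 : Real.exp b0 = Real.exp 1 ^ b0 := by
          rw [← Real.exp_nat_mul, mul_one]
        rw [h4]
        exact pow_le_pow_left₀ (Real.exp_pos _).le (by linarith [Real.exp_one_lt_d9]) _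
      have h5 : (22 : ℝ) / 4 ^ b0 ≤ 22 * Real.exp (-b0) := by
        rw [Real.exp_neg, div_eq_mul_inv]
        exact mul_le_mul_of_nonneg_left (inv_anti₀ (Real.exp_pos _) h3) (by norm_num)
      refine h5.trans ?_
      rw [mul_assoc, ← Real.exp_add]
      refine mul_le_mul_of_nonneg_left (Real.exp_le_exp.2 ?_) (by norm_num)
      have h6 : c' * (N / m) ≤ δ / 4 * (N / m) :=
        mul_le_mul_of_nonneg_right (min_le_right _ _) (by positivity)
      have h7 : -c' * N / m = -(c' * (N / m)) := by ring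
      have h8 : δ * N / m = 4 * (δ / 4 * (N / m)) := by ring
      rw [h7]
      rw [hy, h8] at hb4
      linarith
    refine h1.trans ?_
    have h9 : 22 / 4 ^ b0 * VV S ≤ 22 * Real.exp (5 / 2) * (Real.exp (-c' * N / m) * VV S) := by
      rw [← mul_assoc]
      exact mul_le_mul_of_nonneg_right h2 hV0
    have h10 : 22 * Real.exp (5 / 2) * (Real.exp (-c' * N / m) * VV S) ≤
        A * (Real.exp (-c' * N / m) * VV S) := by
      refine mul_le_mul_of_nonneg_right ?_ (by positivity)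
      rw [hA]
      have : 0 < 3 * K * Real.exp (14 * c' / δ) := by positivity
      linarith
    have h11 : C * Real.exp (-c * Real.sqrt N) ≤ A * Real.exp (-c' * Real.sqrt N) := by
      refine mul_le_mul ?_ hexp (Real.exp_pos _).le hA0.le
      rw [hA]
      have : 0 < 3 * K * Real.exp (14 * c' / δ) := by positivity
      linarith
    rw [mul_add]
    linarith
  · -- large `m`
    push Not at hcase
    have hPR0 := PR_nonneg hμ.nn N (ND S)
    have hPR1 := PR_le_one hμ.nn hμ.one N (ND S)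
    set m' : ℕ := ⌊δ * N / 14⌋₊ with hm'
    have hx0 : 0 ≤ δ * N / 14 := by positivity
    have hm'1 : (m' : ℝ) ≤ δ * N / 14 := Nat.floor_le hx0
    have hm'2 : δ * N / 14 < m' + 1 := Nat.lt_floor_add_one _
    by_cases hz : m' = 0
    · -- bounded `N`
      rw [hz] at hm'2
      have h1 : (N : ℝ) ≤ 14 / δ := by
        rw [le_div_iff₀ hδ]
        push_cast at hm'2
        linarith
      have h2 : 1 ≤ Real.exp (c' * Real.sqrt (14 / δ)) * Real.exp (-c' * Real.sqrt N) := by
        rw [← Real.exp_add]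
        refine Real.one_le_exp ?_
        have := Real.sqrt_le_sqrt h1
        nlinarith
      have h3 : |PR μ N (ND S) - VV S| ≤ 1 := by
        rw [abs_le]
        constructor <;> linarith
      refine h3.trans (h2.trans ?_)
      rw [mul_add]
      have h4 : Real.exp (c' * Real.sqrt (14 / δ)) * Real.exp (-c' * Real.sqrt N) ≤
          A * Real.exp (-c' * Real.sqrt N) := by
        refine mul_le_mul_of_nonneg_right ?_ he1.le
        rw [hA]
        have : 0 < 3 * K * Real.exp (14 * c' / δ) := by positivity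
        linarith
      have h5 : 0 ≤ A * (Real.exp (-c' * N / m) * VV S) := by positivity
      linarith
    · have hm'0 : 1 ≤ m' := Nat.one_le_iff_ne_zero.2 hz
      have hm'm : m' ≤ m := by
        have : (m' : ℝ) ≤ m := by linarith
        exact_mod_cast this
      set S' : Finset (ZMod p)[X] := S.filter fun P => P.natDegree ≤ m' with hS'
      have hS'S : ∀ P, P ∈ S' ↔ P ∈ S ∧ P.natDegree ≤ m' := fun P => Finset.mem_filter
      have hS'P : S' ⊆ PP p m' := by
        intro P hP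
        obtain ⟨h1, h2⟩ := (hS'S P).1 hP
        obtain ⟨a, b, c, d⟩ := sm8_mem_PP.1 (hS h1)
        exact sm8_mem_PP.2 ⟨a, b, h2, d⟩
      have hB : (((4 * 2 + 6) * m' : ℕ) : ℝ) ≤ δ * N := by
        push_cast
        linarith
      have h1 := H μ hμ N m' 2 hm'0 le_rfl hB S' hS'P
      have h2 : PR μ N (ND S) ≤ PR μ N (ND S') :=
        PR_mono hμ.nn N fun f hf P hP => hf P ((hS'S P).1 hP).1
      have h3 := (abs_le.1 h1).2
      have h4 := VV_split hS hm'm hS'S
      have hV'0 := VV_nonneg hS'P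
      have h5 : δ / 28 ≤ ((m' : ℝ) + 1) / (m + 1) := by
        rw [div_le_div_iff₀ (by norm_num) (by positivity)]
        have h6 : δ * ((m : ℝ) + 1) ≤ δ * (2 * N) := mul_le_mul_of_nonneg_left (by linarith) hδ.le
        linarith
      have h7 : VV S' ≤ K * VV S := by
        have h8 : VV S' * (Real.exp (-2) * (δ / 28)) ≤ VV S := by
          refine le_trans ?_ h4
          refine mul_le_mul_of_nonneg_left ?_ hV'0
          exact mul_le_mul_of_nonneg_left h5 (Real.exp_pos _).le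
        have h9 : K * (Real.exp (-2) * (δ / 28)) = 1 := by
          rw [hK, Real.exp_neg]
          field_simp
        calc VV S' = K * (VV S' * (Real.exp (-2) * (δ / 28))) := by
              rw [mul_left_comm, h9, mul_one]
          _ ≤ K * VV S := mul_le_mul_of_nonneg_left h8 (by linarith)
      have h10 : |PR μ N (ND S) - VV S| ≤ 3 * K * VV S + C * Real.exp (-c * Real.sqrt N) := by
        have hCe : 0 < C * Real.exp (-c * Real.sqrt N) := by positivity
        have hKV : 0 ≤ K * VV S := mul_nonneg (by linarith) hV0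
        have hKV' : VV S ≤ K * VV S := le_mul_of_one_le_left hV0 hK1
        rw [abs_le]
        constructor
        · nlinarith
        · have h22 : (22 : ℝ) / 4 ^ 2 = 11 / 8 := by norm_num
          rw [h22] at h3
          linarith
      refine h10.trans ?_
      have h11 : 3 * K * VV S ≤ A * (Real.exp (-c' * N / m) * VV S) := by
        rw [← mul_assoc]
        refine mul_le_mul_of_nonneg_right ?_ hV0
        have h12 : 1 ≤ Real.exp (14 * c' / δ) * Real.exp (-c' * N / m) := by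
          rw [← Real.exp_add]
          refine Real.one_le_exp ?_
          have h13 : (N : ℝ) / m ≤ 14 / δ := by
            rw [div_le_div_iff₀ hm0 hδ]
            linarith
          have h14 : c' * (N / m) ≤ c' * (14 / δ) := mul_le_mul_of_nonneg_left h13 hc'0.le
          have h15 : -c' * N / m = -(c' * (N / m)) := by ring
          have h16 : 14 * c' / δ = c' * (14 / δ) := by ring
          rw [h15, h16]
          linarith
        calc 3 * K = 3 * K * 1 := (mul_one _).symm
          _ ≤ 3 * K * (Real.exp (14 * c' / δ) * Real.exp (-c' * N / m)) :=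
              mul_le_mul_of_nonneg_left h12 (by positivity)
          _ = 3 * K * Real.exp (14 * c' / δ) * Real.exp (-c' * N / m) := by ring
          _ ≤ A * Real.exp (-c' * N / m) := by
              refine mul_le_mul_of_nonneg_right ?_ he2.le
              rw [hA]
              linarith
      have h17 : C * Real.exp (-c * Real.sqrt N) ≤ A * Real.exp (-c' * Real.sqrt N) := by
        refine mul_le_mul ?_ hexp (Real.exp_pos _).le hA0.le
        rw [hA]
        have : 0 < 3 * K * Real.exp (14 * c' / δ) := by positivity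
        linarith
      rw [mul_add]
      linarith

end

end Pool.Agent.MP6cc1fa
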