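import Pool.Agent.Lib.MP_6cc1fa_pr.SM.GapC

/-! MP_6cc1fa_pr, module GAPD: gaps, the degree of the complement of a large factor. -/

set_option autoImplicit false

namespace Pool.Agent.MP6cc1fa

open Polynomial Finset UniqueFactorizationMonoid

noncomputable section

variable {p : ℕ} [Fact p.Prime]

/-! ### Gaps -/

theorem exp_le_inv {c : ℝ} (hc : 0 < c) (k : ℕ) : ∃ K : ℝ, 0 < K ∧ ∀ N : ℕ,
    Real.exp (-c * Real.sqrt N) ≤ K / ((N : ℝ) + 1) ^ k := by
  obtain ⟨K, hK, H⟩ := sm4_poly k hc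
  refine ⟨K, hK, fun N => ?_⟩
  have h1 := H N
  rw [le_div_iff₀ (by positivity), neg_mul, Real.exp_neg, inv_mul_le_iff₀ (Real.exp_pos _)]
  linarith

theorem PP_eq_GS (m : ℕ) : PP p m = GS p 0 m := by
  ext P
  rw [sm8_mem_PP, mem_GS]
  constructor
  · rintro ⟨a, b, c, d⟩
    exact ⟨a, b.natDegree_pos, c, b, d⟩
  · rintro ⟨a, -, c, b, d⟩
    exact ⟨a, b, c, d⟩

theorem gap_upper {η : ℝ} (hη : 0 < η) : ∃ A : ℝ, 1 ≤ A ∧
    ∀ μ : ZMod p → ℝ, Law η μ → ∀ N k m : ℕ, k ≤ m → m ≤ N →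
      PR μ N (ND (GS p k m)) ≤ A * (((k : ℝ) + 1) / (m + 1)) := by
  classical
  obtain ⟨A₀, c, hA₀, hc, H⟩ := gap_fundamental (p := p) hη
  obtain ⟨K, hK, HK⟩ := exp_le_inv hc 1
  have hAp : 0 < (1 + A₀) * Real.exp 5 + A₀ * K := by positivity
  refine ⟨(1 + A₀) * Real.exp 5 + A₀ * K + 1, by linarith, fun μ hμ N k m hkm hmN => ?_⟩
  set r : ℝ := ((k : ℝ) + 1) / (m + 1) with hr
  have hr0 : 0 < r := by positivity
  rcases Nat.eq_zero_or_pos m with hm | hm
  · have hk : k = 0 := by omega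
    have hr1 : r = 1 := by rw [hr, hm, hk]; simp
    have := PR_le_one hμ.nn hμ.one N (ND (GS p k m))
    rw [hr1]
    linarith
  · have h1 := (abs_le.1 (H μ hμ N m hm hmN _ (GS_subset k m))).2
    have hV := gap_density_le (p := p) hkm
    have hV0 := VV_nonneg (GS_subset (p := p) k m)
    have hV' : VV (GS p k m) ≤ Real.exp 5 * r := hV
    have hm0 : (0 : ℝ) < m := by exact_mod_cast hm
    have he : Real.exp (-c * N / m) ≤ 1 := by
      rw [Real.exp_le_one_iff]
      have : 0 ≤ c * N / m := by positivity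
      have h2 : -c * N / m = -(c * N / m) := by ring
      linarith
    have hK1 : Real.exp (-c * Real.sqrt N) ≤ K * r := by
      refine (HK N).trans ?_
      rw [pow_one, div_eq_mul_one_div]
      refine mul_le_mul_of_nonneg_left ?_ hK.le
      rw [hr, div_le_div_iff₀ (by positivity) (by positivity)]
      have h3 : (m : ℝ) ≤ N := by exact_mod_cast hmN
      have h4 : (0 : ℝ) ≤ k := Nat.cast_nonneg k
      nlinarith
    have h5 : Real.exp (-c * N / m) * VV (GS p k m) ≤ Real.exp 5 * r :=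
      (mul_le_of_le_one_left hV0 he).trans hV'
    have h6 : A₀ * (Real.exp (-c * N / m) * VV (GS p k m) + Real.exp (-c * Real.sqrt N)) ≤
        A₀ * (Real.exp 5 * r + K * r) := mul_le_mul_of_nonneg_left (add_le_add h5 hK1) hA₀.le
    nlinarith

theorem gap_lower {η : ℝ} (hη : 0 < η) : ∃ c θ : ℝ, 0 < c ∧ 0 < θ ∧
    ∀ μ : ZMod p → ℝ, Law η μ → ∀ N k m : ℕ, 1 ≤ m → k ≤ m → (m : ℝ) ≤ θ * N →
      c * (((k : ℝ) + 1) / (m + 1)) ≤ PR μ N (ND (GS p k m)) := by
  classical
  obtain ⟨A₀, c, hA₀, hc, H⟩ := gap_fundamental (p := p) hη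
  obtain ⟨K, hK, HK⟩ := exp_le_inv hc 2
  have he2 : 0 < Real.exp (-2) := Real.exp_pos _
  set θ : ℝ := min 1 (min (c / (4 * A₀)) (Real.exp (-2) / (4 * A₀ * K))) with hθ
  have hθ0 : 0 < θ := by positivity
  have hθ1 : θ ≤ 1 := min_le_left _ _
  have hθ2 : θ ≤ c / (4 * A₀) := (min_le_right _ _).trans (min_le_left _ _)
  have hθ3 : θ ≤ Real.exp (-2) / (4 * A₀ * K) := (min_le_right _ _).trans (min_le_right _ _)
  refine ⟨Real.exp (-2) / 2, θ, by positivity, hθ0, fun μ hμ N k m hm hkm hmN => ?_⟩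
  set r : ℝ := ((k : ℝ) + 1) / (m + 1) with hr
  have hr0 : 0 < r := by positivity
  have hm1 : (1 : ℝ) ≤ m := by exact_mod_cast hm
  have hm0 : (0 : ℝ) < m := by linarith
  have hN0 : (0 : ℝ) ≤ N := Nat.cast_nonneg N
  have hmN1 : (m : ℝ) ≤ N := hmN.trans (mul_le_of_le_one_left hN0 hθ1)
  have hmN' : m ≤ N := by exact_mod_cast hmN1
  have hNpos : (0 : ℝ) < N := by linarith
  have h1 := (abs_le.1 (H μ hμ N m hm hmN' _ (GS_subset k m))).1
  have hV : Real.exp (-2) * r ≤ VV (GS p k m) := gap_density_ge (p := p) hkm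
  have hV0 := VV_nonneg (GS_subset (p := p) k m)
  have h2 : A₀ * Real.exp (-c * N / m) ≤ 1 / 4 := by
    have h3 : 0 < c * N / m := by positivity
    have h4 : Real.exp (-c * N / m) ≤ m / (c * N) := by
      have h5 : -c * N / m = -(c * N / m) := by ring
      rw [h5, Real.exp_neg, inv_le_comm₀ (Real.exp_pos _) (by positivity), inv_div]
      have := Real.add_one_le_exp (c * N / m)
      linarith
    have h6 : (m : ℝ) / (c * N) ≤ θ / c := by
      rw [div_le_div_iff₀ (by positivity) hc]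
      nlinarith
    have h7 : θ / c ≤ 1 / (4 * A₀) := by
      rw [div_le_div_iff₀ hc (by positivity)]
      rw [le_div_iff₀ (by positivity)] at hθ2
      linarith
    calc A₀ * Real.exp (-c * N / m) ≤ A₀ * (1 / (4 * A₀)) :=
          mul_le_mul_of_nonneg_left (h4.trans (h6.trans h7)) hA₀.le
      _ = 1 / 4 := by field_simp
  have h8 : A₀ * Real.exp (-c * Real.sqrt N) ≤ Real.exp (-2) / 4 * r := by
    have h9 : 1 / ((N : ℝ) + 1) ≤ r := by
      rw [hr, div_le_div_iff₀ (by positivity) (by positivity)]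
      have h4 : (0 : ℝ) ≤ k := Nat.cast_nonneg k
      nlinarith
    have h10 : 1 / ((N : ℝ) + 1) ≤ θ := by
      rw [div_le_iff₀ (by positivity)]
      nlinarith
    have h11 : A₀ * K * θ ≤ Real.exp (-2) / 4 := by
      rw [le_div_iff₀ (by positivity)] at hθ3
      linarith
    calc A₀ * Real.exp (-c * Real.sqrt N) ≤ A₀ * (K / ((N : ℝ) + 1) ^ 2) :=
          mul_le_mul_of_nonneg_left (HK N) hA₀.le
      _ = A₀ * K * (1 / ((N : ℝ) + 1)) * (1 / ((N : ℝ) + 1)) := by
          field_simp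
      _ ≤ A₀ * K * θ * r := by
          refine mul_le_mul ?_ h9 (by positivity) (by positivity)
          exact mul_le_mul_of_nonneg_left h10 (by positivity)
      _ ≤ Real.exp (-2) / 4 * r := mul_le_mul_of_nonneg_right h11 hr0.le
  have h12 : A₀ * Real.exp (-c * N / m) * VV (GS p k m) ≤ 1 / 4 * VV (GS p k m) :=
    mul_le_mul_of_nonneg_right h2 hV0
  nlinarith

/-! ### Unions and vanishing digits -/

theorem PR_union_le {μ : ZMod p → ℝ} (h0 : ∀ x, 0 ≤ μ x) (N : ℕ) (Z Z' : Set (ZMod p)[X]) :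
    PR μ N (Z ∪ Z') ≤ PR μ N Z + PR μ N Z' := by
  classical
  unfold PR
  rw [← sum_add_distrib]
  refine sum_le_sum fun a _ => ?_
  have h := prod_nonneg (s := univ) (f := fun i => μ (a i)) fun i _ => h0 _
  by_cases h1 : pol a ∈ Z
  · have hu : pol a ∈ Z ∪ Z' := Or.inl h1
    by_cases h2 : pol a ∈ Z'
    · rw [if_pos hu, if_pos h1, if_pos h2]; linarith
    · rw [if_pos hu, if_pos h1, if_neg h2]; linarith
  · by_cases h2 : pol a ∈ Z'
    · have hu : pol a ∈ Z ∪ Z' := Or.inr h2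
      rw [if_pos hu, if_neg h1, if_pos h2]; linarith
    · have hu : pol a ∉ Z ∪ Z' := by rintro (h3 | h3) <;> contradiction
      rw [if_neg hu, if_neg h1, if_neg h2]; linarith

theorem pol_coeff {N : ℕ} (a : Fin N → ZMod p) (i : Fin N) : (pol a).coeff (i : ℕ) = a i := by
  classical
  unfold pol
  rw [finsetSum_coeff]
  simp only [coeff_C_mul, coeff_X_pow]
  rw [Finset.sum_eq_single i]
  · simp
  · intro j _ hj
    rw [if_neg, mul_zero]
    intro h
    exact hj (Fin.ext h.symm)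
  · intro h
    exact absurd (Finset.mem_univ _) h

theorem pol_natDegree_lt {N : ℕ} (a : Fin N → ZMod p) (h : pol a ≠ 0) : (pol a).natDegree < N := by
  by_contra h1
  push Not at h1
  have h2 : (pol a).coeff (pol a).natDegree = 0 := by
    conv_lhs => unfold pol
    rw [finsetSum_coeff]
    refine Finset.sum_eq_zero fun i _ => ?_
    rw [coeff_C_mul, coeff_X_pow, if_neg, mul_zero]
    have := i.2
    unfold pol at h1
    omega
  exact h (leadingCoeff_eq_zero.1 h2)

theorem PR_zero {η : ℝ} {μ : ZMod p → ℝ} (hμ : Law η μ) {N q : ℕ} (e : Fin q ↪ Fin N) :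
    PR μ N {f | ∀ i : Fin q, f.coeff (e i : ℕ) = 0} ≤ Real.exp (-(η * q)) := by
  classical
  have h1 : PR μ N {f | ∀ i : Fin q, f.coeff (e i : ℕ) = 0} ≤
      ∑ a : Fin N → ZMod p, ∏ i, (if i ∈ (univ : Finset (Fin q)).map e ∧ a i ≠ 0 then 0
        else μ (a i)) := by
    unfold PR
    refine sum_le_sum fun a _ => ?_
    by_cases h : pol a ∈ {f : (ZMod p)[X] | ∀ i : Fin q, f.coeff (e i : ℕ) = 0}
    · rw [if_pos h]
      refine le_of_eq (Finset.prod_congr rfl fun i _ => ?_)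
      rw [if_neg]
      rintro ⟨h2, h3⟩
      obtain ⟨j, -, rfl⟩ := Finset.mem_map.1 h2
      have h4 := h j
      rw [pol_coeff] at h4
      exact h3 h4
    · rw [if_neg h]
      refine prod_nonneg fun i _ => ?_
      split_ifs
      · exact le_rfl
      · exact hμ.nn _
  refine h1.trans ?_
  have h2 : ∑ a : Fin N → ZMod p, ∏ i, (if i ∈ (univ : Finset (Fin q)).map e ∧ a i ≠ 0 then 0
        else μ (a i)) = ∏ i : Fin N, ∑ x, (if i ∈ (univ : Finset (Fin q)).map e ∧ x ≠ 0 then 0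
        else μ x) := by
    rw [Finset.prod_univ_sum, Fintype.piFinset_univ]
  have h3 : ∀ i : Fin N, (∑ x, (if i ∈ (univ : Finset (Fin q)).map e ∧ x ≠ 0 then 0
        else μ x)) = if i ∈ (univ : Finset (Fin q)).map e then μ 0 else 1 := by
    intro i
    by_cases hi : i ∈ (univ : Finset (Fin q)).map e
    · rw [if_pos hi, Finset.sum_eq_single 0]
      · rw [if_neg]
        tauto
      · intro x _ hx
        rw [if_pos ⟨hi, hx⟩]
      · intro h
        exact absurd (Finset.mem_univ _) h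
    · rw [if_neg hi, ← hμ.one]
      refine Finset.sum_congr rfl fun x _ => if_neg ?_
      tauto
  rw [h2, Finset.prod_congr rfl fun i _ => h3 i, Finset.prod_ite, Finset.prod_const,
    Finset.prod_const_one, mul_one]
  have h4 : (Finset.univ.filter fun i : Fin N => i ∈ (univ : Finset (Fin q)).map e).card = q := by
    rw [Finset.filter_mem_eq_inter, Finset.univ_inter, Finset.card_map, Finset.card_univ,
      Fintype.card_fin]
  rw [h4]
  have h5 : μ 0 ≤ Real.exp (-η) := by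
    have := Real.add_one_le_exp (-η)
    linarith [hμ.le 0]
  refine (pow_le_pow_left₀ (hμ.nn 0) h5 _).trans (le_of_eq ?_)
  rw [← Real.exp_nat_mul]
  congr 1
  ring

/-- The polynomials whose first `q` coefficients vanish. -/
def B1 (p q : ℕ) : Set (ZMod p)[X] := {f | ∀ i < q, f.coeff i = 0}

/-- The polynomials whose coefficients of index in `[N - q, N)` vanish. -/
def B2 (p N q : ℕ) : Set (ZMod p)[X] := {f | ∀ i, N - q ≤ i → i < N → f.coeff i = 0}

theorem PR_B1 {η : ℝ} {μ : ZMod p → ℝ} (hμ : Law η μ) {N q : ℕ} (h : q ≤ N) :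
    PR μ N (B1 p q) ≤ Real.exp (-(η * q)) := by
  refine le_trans (PR_mono hμ.nn N ?_) (PR_zero hμ (Fin.castLEEmb h))
  intro f hf i
  exact hf _ i.2

theorem PR_B2 {η : ℝ} {μ : ZMod p → ℝ} (hμ : Law η μ) {N q : ℕ} (h : q ≤ N) :
    PR μ N (B2 p N q) ≤ Real.exp (-(η * q)) := by
  refine le_trans (PR_mono hμ.nn N ?_) (PR_zero hμ
    ⟨fun i : Fin q => ⟨N - q + i, by omega⟩, fun i j hij => by
      have := congrArg Fin.val hij
      simp only at this
      exact Fin.ext (by omega)⟩)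
  intro f hf i
  have hi := i.2
  exact hf _ (Nat.le_add_right _ _) (show N - q + (i : ℕ) < N by omega)

theorem exists_B_bound {η : ℝ} (hη : 0 < η) : ∃ K : ℝ, 0 < K ∧ ∀ μ : ZMod p → ℝ, Law η μ →
    ∀ N : ℕ, PR μ N (B1 p (N / 8)) ≤ K / ((N : ℝ) + 1) ∧
      PR μ N (B2 p N (N / 8)) ≤ K / ((N : ℝ) + 1) := by
  obtain ⟨K, hK, HK⟩ := exp_le_inv (c := η / 8) (by positivity) 1
  refine ⟨Real.exp η * K, by positivity, fun μ hμ N => ?_⟩
  have h1 : Real.exp (-(η * ((N / 8 : ℕ) : ℝ))) ≤ Real.exp η * K / ((N : ℝ) + 1) := by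
    have h2 := HK N
    rw [pow_one] at h2
    rw [mul_div_assoc]
    refine le_trans ?_ (mul_le_mul_of_nonneg_left h2 (Real.exp_pos _).le)
    rw [← Real.exp_add, Real.exp_le_exp]
    have h3 : (N : ℝ) ≤ 8 * (((N / 8 : ℕ) : ℝ) + 1) := by
      have : N ≤ 8 * (N / 8 + 1) := by omega
      exact_mod_cast this
    have h4 : Real.sqrt N ≤ N := by
      rcases Nat.eq_zero_or_pos N with h5 | h5
      · rw [h5]; simp
      · have h6 : (1 : ℝ) ≤ N := by exact_mod_cast h5
        rw [Real.sqrt_le_left (by linarith)]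
        nlinarith
    nlinarith
  exact ⟨(PR_B1 hμ (Nat.div_le_self _ _)).trans h1, (PR_B2 hμ (Nat.div_le_self _ _)).trans h1⟩

end

end Pool.Agent.MP6cc1fa
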