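import Pool.Agent.Lib.MP_6cc1fa_pr.SM.GapD

/-! MP_6cc1fa_pr, module GAPE: the cofactor of a large irreducible factor. -/

set_option autoImplicit false

namespace Pool.Agent.MP6cc1fa

open Polynomial Finset UniqueFactorizationMonoid

noncomputable section

variable {p : ℕ} [Fact p.Prime]

/-! ### Cofactors of degree at most `k` -/

/-- The nonzero polynomials with an irreducible factor whose cofactor has degree at most `k`. -/
def LF (p k : ℕ) [Fact p.Prime] : Set (ZMod p)[X] :=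
  {f | f ≠ 0 ∧ ∃ Q : (ZMod p)[X], Irreducible Q ∧ Q ∣ f ∧ f.natDegree ≤ Q.natDegree + k}

theorem not_dvd_of_lt {P Q : (ZMod p)[X]} (hP : Irreducible P) (hQ : Irreducible Q)
    (h : P.natDegree < Q.natDegree) : ¬ P ∣ Q := by
  intro hd
  obtain ⟨u, hu⟩ := hP.associated_of_dvd hQ hd
  have h1 : Q.natDegree = P.natDegree := by
    rw [← hu, natDegree_mul hP.ne_zero u.ne_zero, natDegree_coe_units, add_zero]
  omega

theorem LF_subset {N k : ℕ} (_hk : k ≤ N / 8) :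
    LF p k ⊆ ND (GS p k (N / 8)) ∪ B2 p N (N / 8) := by
  rintro f ⟨hf, Q, hQ, hQf, hd⟩
  by_cases h : f ∈ B2 p N (N / 8)
  · exact Or.inr h
  refine Or.inl fun P hP hPf => ?_
  have h' : ¬ ∀ i, N - N / 8 ≤ i → i < N → f.coeff i = 0 := h
  push Not at h'
  obtain ⟨i, hi1, hi2, hi3⟩ := h'
  have h1 := le_natDegree_of_ne_zero hi3
  obtain ⟨hPm, hP0, hP1, hP2, hP3⟩ := mem_GS.1 hP
  have h2 : ¬ P ∣ Q := not_dvd_of_lt hP2 hQ (by omega)
  have h3 : IsCoprime P Q := hP2.coprime_iff_not_dvd.2 h2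
  have h4 := natDegree_le_of_dvd (h3.mul_dvd hPf hQf) hf
  rw [natDegree_mul hP2.ne_zero hQ.ne_zero] at h4
  omega

theorem gap_large {η : ℝ} (hη : 0 < η) : ∃ A : ℝ, 0 < A ∧
    ∀ μ : ZMod p → ℝ, Law η μ → ∀ N k : ℕ,
      PR μ N (LF p k) ≤ A * (((k : ℝ) + 1) / (N + 1)) := by
  classical
  obtain ⟨A₀, hA₀, H⟩ := gap_upper (p := p) hη
  obtain ⟨K, hK, HK⟩ := exists_B_bound (p := p) hη
  refine ⟨8 * A₀ + K + 8, by linarith, fun μ hμ N k => ?_⟩
  set r : ℝ := ((k : ℝ) + 1) / (N + 1) with hr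
  have hr0 : 0 < r := by positivity
  have hk0 : (0 : ℝ) ≤ k := Nat.cast_nonneg k
  rcases Nat.lt_or_ge (N / 8) k with h | h
  · have h1 : (1 : ℝ) / 8 ≤ r := by
      rw [hr, div_le_div_iff₀ (by norm_num) (by positivity)]
      have : N + 1 ≤ 8 * (k + 1) := by omega
      have h2 : ((N : ℝ) + 1) ≤ 8 * ((k : ℝ) + 1) := by exact_mod_cast this
      linarith
    have h3 := PR_le_one hμ.nn hμ.one N (LF p k)
    nlinarith
  · have h1 := PR_mono hμ.nn N (LF_subset (p := p) h)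
    have h2 := PR_union_le hμ.nn N (ND (GS p k (N / 8))) (B2 p N (N / 8))
    have h3 := H μ hμ N k (N / 8) h (Nat.div_le_self _ _)
    have h4 := (HK μ hμ N).2
    have h5 : ((k : ℝ) + 1) / (((N / 8 : ℕ) : ℝ) + 1) ≤ 8 * r := by
      rw [hr, mul_div_assoc', div_le_div_iff₀ (by positivity) (by positivity)]
      have : N + 1 ≤ 8 * (N / 8 + 1) := by omega
      have h2 : ((N : ℝ) + 1) ≤ 8 * (((N / 8 : ℕ) : ℝ) + 1) := by exact_mod_cast this
      nlinarith
    have h6 : K / ((N : ℝ) + 1) ≤ K * r := by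
      rw [div_eq_mul_one_div]
      refine mul_le_mul_of_nonneg_left ?_ hK.le
      rw [hr, div_le_div_iff₀ (by positivity) (by positivity)]
      nlinarith [(Nat.cast_nonneg N : (0 : ℝ) ≤ N)]
    have h7 : A₀ * (((k : ℝ) + 1) / (((N / 8 : ℕ) : ℝ) + 1)) ≤ A₀ * (8 * r) :=
      mul_le_mul_of_nonneg_left h5 (by linarith)
    nlinarith

/-! ### Cofactors in a given set -/

/-- The polynomials `X ^ v * Q * h` with `Q` irreducible and `h ∈ G`. -/
def CF (p : ℕ) [Fact p.Prime] (G : Finset (ZMod p)[X]) : Set (ZMod p)[X] :=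
  {f | ∃ (v : ℕ) (Q h : (ZMod p)[X]), Irreducible Q ∧ h ∈ G ∧ f = X ^ v * Q * h}

/-- The nonzero polynomials whose smooth part lies in `G`. -/
def SD (p m : ℕ) [Fact p.Prime] (G : Finset (ZMod p)[X]) : Set (ZMod p)[X] :=
  {f | f ≠ 0 ∧ smo m f ∈ G}

theorem smo_self {m : ℕ} {A : (ZMod p)[X]} (hA : A.Monic) (h0 : A.coeff 0 ≠ 0)
    (hm : A.natDegree ≤ m) : smo m A = A := by
  classical
  rw [sm8_smo_def, Multiset.filter_eq_self.2]
  · have h1 := prod_normalizedFactors hA.ne_zero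
    have h2 : ((normalizedFactors A).prod).Monic := by
      have h := monic_multiset_prod_of_monic (normalizedFactors A) id
        fun P hP => div_factor_monic hP
      simpa using h
    exact eq_of_monic_of_associated h2 hA h1
  · intro P hP
    have hd := dvd_of_mem_normalizedFactors hP
    refine ⟨?_, (natDegree_le_of_dvd hd hA.ne_zero).trans hm⟩
    rintro rfl
    exact h0 (X_dvd_iff.1 hd)

theorem CF_subset {N m j : ℕ} (_hm : 15 * m ≤ N) (_hj : 30 * j ≤ N) (hjm : j ≤ m)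
    {G : Finset (ZMod p)[X]} (hG : ∀ h ∈ G, h.Monic ∧ h.natDegree = j ∧ h.coeff 0 ≠ 0) :
    CF p G ⊆ SD p m G ∪ (B1 p (N / 8) ∪ B2 p N (N / 8)) := by
  classical
  rintro f ⟨v, Q, A, hQ, hAG, rfl⟩
  obtain ⟨hAm, hAd, hA0⟩ := hG A hAG
  by_cases hb1 : X ^ v * Q * A ∈ B1 p (N / 8)
  · exact Or.inr (Or.inl hb1)
  by_cases hb2 : X ^ v * Q * A ∈ B2 p N (N / 8)
  · exact Or.inr (Or.inr hb2)
  have hXv : (X ^ v : (ZMod p)[X]) ≠ 0 := pow_ne_zero _ X_ne_zero
  have hXQ : (X ^ v * Q : (ZMod p)[X]) ≠ 0 := mul_ne_zero hXv hQ.ne_zero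
  have hf : X ^ v * Q * A ≠ 0 := mul_ne_zero hXQ hAm.ne_zero
  refine Or.inl ⟨hf, ?_⟩
  -- the degree of `Q`
  have h1 : ¬ ∀ i < N / 8, (X ^ v * Q * A).coeff i = 0 := hb1
  push Not at h1
  obtain ⟨i, hi1, hi2⟩ := h1
  have hv : v ≤ i := by
    by_contra hvi
    rw [mul_assoc, coeff_X_pow_mul', if_neg hvi] at hi2
    exact hi2 rfl
  have h2 : ¬ ∀ i, N - N / 8 ≤ i → i < N → (X ^ v * Q * A).coeff i = 0 := hb2
  push Not at h2
  obtain ⟨i', hi'1, hi'2, hi'3⟩ := h2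
  have h3 := le_natDegree_of_ne_zero hi'3
  rw [natDegree_mul hXQ hAm.ne_zero, natDegree_mul hXv hQ.ne_zero, natDegree_X_pow, hAd] at h3
  have hQd : m < Q.natDegree := by omega
  -- the smooth part
  have hAs : smo m A = A := smo_self hAm hA0 (by omega)
  rw [mul_comm (X ^ v * Q) A, (sm8_smo_eq_iff hAm hAs hXQ).2]
  · exact hAG
  intro P hP hd
  obtain ⟨hPm, hPi, hPd, hPX⟩ := sm8_mem_PP.1 hP
  rcases hPi.prime.dvd_or_dvd hd with h5 | h5
  · have h6 := hPi.prime.dvd_of_dvd_pow h5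
    exact hPX (eq_of_monic_of_associated hPm monic_X (hPi.associated_of_dvd irreducible_X h6))
  · exact not_dvd_of_lt hPi hQ (by omega) h5

theorem PR_SD (μ : ZMod p → ℝ) (h0 : ∀ x, 0 ≤ μ x) {N m j : ℕ} (hm : 1 ≤ m)
    {G : Finset (ZMod p)[X]} (hG : ∀ A ∈ G, A ∈ GG p m j ∧ A.natDegree = j) :
    PR μ N (SD p m G) ≤ (G.card : ℝ) / (p : ℝ) ^ j * (Real.exp (11 / 4 ^ 2) * VV (PP p m)) +
      EE' μ N (j + 14 * m) := by
  classical
  set lam : Finset (ZMod p)[X] → ℝ := fun D => lamP (dcl m) (fun l => 2 + l) (Nat.log 2 m + 1) D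
    with hlam
  have hlamdef : ∀ D, lam D = lamP (dcl m) (fun l => 2 + l) (Nat.log 2 m + 1) D := fun D => rfl
  set U : (Fin N → ZMod p) → (ZMod p)[X] → ℝ := fun a A =>
    ∑ D ∈ (PP p m).powerset, if A * ∏ P ∈ D, P ∣ pol a then lam D else 0 with hU
  have hU0 : ∀ a, ∀ A ∈ G, 0 ≤ U a A := by
    intro a A hA
    obtain ⟨hA1, hA2⟩ := hG A hA
    obtain ⟨hAm, -, hAs⟩ := sm8_mem_GG.1 hA1
    by_cases ha : pol a = 0
    · have h1 := sm8_sum_lam (m := m) (g := 0) hAm lam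
      have h2 : U a A = ∑ D ∈ (PP p m).powerset,
          if A * ∏ P ∈ D, P ∣ A * 0 then lam D else 0 := by
        rw [hU]
        simp only [ha, mul_zero]
      rw [h2, h1]
      refine le_trans ?_ (lamP_ge (dcl m) (fun l => 2 + l) (Nat.log 2 m + 1) _ fun P hP =>
        dcl_lt (mem_filter.1 hP).1)
      split_ifs <;> norm_num
    · refine le_trans ?_ (sm8_upper (fun l => 2 + l) hAm hAs ha)
      split_ifs <;> norm_num
  have hU1 : ∀ a, pol a ∈ SD p m G → 1 ≤ ∑ A ∈ G, U a A := by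
    rintro a ⟨ha, hmem⟩
    refine le_trans ?_ (Finset.single_le_sum (f := fun A => U a A) (hU0 a) hmem)
    have h1 := sm8_upper (fun l => 2 + l) (sm8_smo_monic m (pol a)) (sm8_smo_smo m _) ha
    rw [if_pos rfl] at h1
    exact h1
  have hw : ∀ a : Fin N → ZMod p, 0 ≤ ∏ i, μ (a i) := fun a => prod_nonneg fun i _ => h0 _
  have h1 : PR μ N (SD p m G) ≤ ∑ a : Fin N → ZMod p, (∏ i, μ (a i)) * ∑ A ∈ G, U a A := by
    unfold PR
    refine sum_le_sum fun a _ => ?_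
    split_ifs with h
    · exact le_mul_of_one_le_right (hw a) (hU1 a h)
    · exact mul_nonneg (hw a) (Finset.sum_nonneg (hU0 a))
  have h2 : ∑ a : Fin N → ZMod p, (∏ i, μ (a i)) * ∑ A ∈ G, U a A =
      ∑ A ∈ G, ∑ D ∈ (PP p m).powerset, lam D * prD μ N (A * ∏ P ∈ D, P) := by
    simp only [prD, mul_sum, hU]
    rw [sum_comm]
    refine sum_congr rfl fun A _ => ?_
    rw [sum_comm]
    refine sum_congr rfl fun D _ => sum_congr rfl fun a _ => ?_
    split_ifs
    · ring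
    · ring
  have h3 : ∀ A ∈ G, ∑ D ∈ (PP p m).powerset, lam D * prD μ N (A * ∏ P ∈ D, P) ≤
      1 / (p : ℝ) ^ j * (Real.exp (11 / 4 ^ 2) * VV (PP p m)) +
        ∑ D ∈ (PP p m).powerset.filter
          (fun D => lamM (dcl m) (fun l => 2 + l) (Nat.log 2 m + 1) D ≠ 0),
          err μ N (A * ∏ P ∈ D, P) := by
    intro A hA
    obtain ⟨hA1, hA2⟩ := hG A hA
    obtain ⟨hAm, -, hAs⟩ := sm8_mem_GG.1 hA1
    have h4 := (gap_terms (p := p) (m := m) (le_refl 2) (Finset.Subset.refl (PP p m))).2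
    have h5 : ∀ D ∈ (PP p m).powerset, lam D * prD μ N (A * ∏ P ∈ D, P) ≤
        1 / (p : ℝ) ^ j * (lam D * ∏ P ∈ D, 1 / (p : ℝ) ^ P.natDegree) +
        if lamM (dcl m) (fun l => 2 + l) (Nat.log 2 m + 1) D ≠ 0 then
          err μ N (A * ∏ P ∈ D, P) else 0 := by
      intro D hD
      have hD' := Finset.mem_powerset.1 hD
      by_cases hz : lam D = 0
      · rw [hz, zero_mul, zero_mul, mul_zero, zero_add]
        split_ifs
        · exact abs_nonneg _
        · exact le_rfl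
      · rw [if_pos (sm8_lamP_lamM hz)]
        have e : 1 / (p : ℝ) ^ j * ∏ P ∈ D, 1 / (p : ℝ) ^ P.natDegree =
            1 / (p : ℝ) ^ (A * ∏ P ∈ D, P).natDegree := by
          rw [hAm.natDegree_mul (sm8_prod_monic hD'), sm8_natDegree_prod hD',
            prod_div_distrib, prod_const_one, prod_pow_eq_pow_sum, hA2, pow_add]
          ring
        have h6 : 1 / (p : ℝ) ^ j * (lam D * ∏ P ∈ D, 1 / (p : ℝ) ^ P.natDegree) =
            lam D * (1 / (p : ℝ) ^ (A * ∏ P ∈ D, P).natDegree) := by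
          rw [← e]; ring
        rw [h6]
        have h7 : |lam D| ≤ 1 := by
          rw [hlamdef]
          unfold lamP
          split_ifs
          · rw [abs_pow, abs_neg, abs_one, one_pow]
          · simp
        have h8 : lam D * prD μ N (A * ∏ P ∈ D, P) -
            lam D * (1 / (p : ℝ) ^ (A * ∏ P ∈ D, P).natDegree) ≤
              err μ N (A * ∏ P ∈ D, P) := by
          rw [← mul_sub]
          refine (le_abs_self _).trans ?_
          rw [abs_mul]
          have h9 : 0 ≤ err μ N (A * ∏ P ∈ D, P) := abs_nonneg _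
          calc |lam D| * |prD μ N (A * ∏ P ∈ D, P) -
                1 / (p : ℝ) ^ (A * ∏ P ∈ D, P).natDegree|
              ≤ 1 * err μ N (A * ∏ P ∈ D, P) := mul_le_mul_of_nonneg_right h7 h9
            _ = _ := one_mul _
        linarith
    refine (Finset.sum_le_sum h5).trans ?_
    rw [Finset.sum_add_distrib, ← Finset.mul_sum, ← Finset.sum_filter]
    refine add_le_add (mul_le_mul_of_nonneg_left h4 (by positivity)) le_rfl
  have h6 : ∑ A ∈ G, ∑ D ∈ (PP p m).powerset, lam D * prD μ N (A * ∏ P ∈ D, P) ≤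
      (G.card : ℝ) / (p : ℝ) ^ j * (Real.exp (11 / 4 ^ 2) * VV (PP p m)) +
        EE' μ N (j + 14 * m) := by
    refine (Finset.sum_le_sum h3).trans ?_
    rw [Finset.sum_add_distrib]
    refine add_le_add ?_ ?_
    · rw [Finset.sum_const, nsmul_eq_mul, ← mul_assoc, mul_one_div]
    · have hE := sm8_errors (p := p) μ (N := N) (m := m) (t := j) (b0 := 2) hm
      have hE' : EE' μ N (j + 14 * m) = ∑ b ∈ range (j + (4 * 2 + 6) * m + 1),
          ∑ B ∈ (MD p b).filter (fun B => B.coeff 0 ≠ 0), (tau B : ℝ) * err μ N B := by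
        unfold EE'
        congr
      rw [hE']
      refine le_trans ?_ hE
      exact Finset.sum_le_sum_of_subset_of_nonneg (fun A hA => (hG A hA).1)
        fun A _ _ => Finset.sum_nonneg fun D _ => abs_nonneg _
  linarith

theorem B_bound_exp {η : ℝ} (hη : 0 < η) : ∃ K c : ℝ, 0 < K ∧ 0 < c ∧
    ∀ μ : ZMod p → ℝ, Law η μ → ∀ N : ℕ,
      PR μ N (B1 p (N / 8)) ≤ K * Real.exp (-c * Real.sqrt N) ∧
      PR μ N (B2 p N (N / 8)) ≤ K * Real.exp (-c * Real.sqrt N) := by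
  refine ⟨Real.exp η, η / 8, Real.exp_pos _, by positivity, fun μ hμ N => ?_⟩
  have h1 : Real.exp (-(η * ((N / 8 : ℕ) : ℝ))) ≤ Real.exp η * Real.exp (-(η / 8) * √N) := by
    rw [← Real.exp_add, Real.exp_le_exp]
    have h3 : (N : ℝ) ≤ 8 * (((N / 8 : ℕ) : ℝ) + 1) := by
      have : N ≤ 8 * (N / 8 + 1) := by omega
      exact_mod_cast this
    have h4 : Real.sqrt N ≤ N := by
      rcases Nat.eq_zero_or_pos N with h5 | h5
      · rw [h5]; simp
      · have h6 : (1 : ℝ) ≤ N := by exact_mod_cast h5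
        rw [Real.sqrt_le_left (by linarith)]
        nlinarith
    nlinarith
  exact ⟨(PR_B1 hμ (Nat.div_le_self _ _)).trans h1, (PR_B2 hμ (Nat.div_le_self _ _)).trans h1⟩

theorem gap_shape {η : ℝ} (hη : 0 < η) : ∃ A c θ : ℝ, 0 < A ∧ 0 < c ∧ 0 < θ ∧
    ∀ μ : ZMod p → ℝ, Law η μ → ∀ N j : ℕ, (j : ℝ) ≤ θ * N → ∀ G : Finset (ZMod p)[X],
      (∀ h ∈ G, h.Monic ∧ h.natDegree = j ∧ h.coeff 0 ≠ 0) →
      PR μ N (CF p G) ≤
        A * ((G.card : ℝ) / (p : ℝ) ^ j / ((N : ℝ) + 1) + Real.exp (-c * Real.sqrt N)) := by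
  classical
  obtain ⟨δ₀, c, C, hδ₀, hc, hC, H⟩ := level_dist (p := p) hη
  set δ : ℝ := min δ₀ 1 with hδdef
  have hδ : 0 < δ := lt_min hδ₀ one_pos
  have hδ1 : δ ≤ 1 := min_le_right _ _
  obtain ⟨K, c₁, hK, hc₁, HK⟩ := B_bound_exp (p := p) hη
  set L : ℝ := 15 / δ + 1 with hL
  have hL1 : 1 ≤ L := by
    have : 0 < 15 / δ := by positivity
    linarith
  have hE1 : 0 < Real.exp (11 / 4 ^ 2) := Real.exp_pos _
  have hE5 : 0 < Real.exp 5 := Real.exp_pos _
  set c₀ : ℝ := min c c₁ with hc₀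
  have hc₀0 : 0 < c₀ := lt_min hc hc₁
  have hEL : 0 < Real.exp (c₀ * L) := Real.exp_pos _
  refine ⟨Real.exp (11 / 4 ^ 2) * Real.exp 5 * L + C + 2 * K + Real.exp (c₀ * L), c₀, δ / 30,
    by positivity, hc₀0, by positivity, fun μ hμ N j hj G hG => ?_⟩
  have hN0 : (0 : ℝ) ≤ N := Nat.cast_nonneg N
  set m : ℕ := ⌊δ * N / 15⌋₊ with hm
  have hx0 : 0 ≤ δ * N / 15 := by positivity
  have hm1 : (m : ℝ) ≤ δ * N / 15 := Nat.floor_le hx0
  have hm2 : δ * N / 15 < m + 1 := Nat.lt_floor_add_one _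
  have hNL : (N : ℝ) + 1 ≤ L * (m + 1) := by
    have h1 : (N : ℝ) ≤ 15 / δ * (m + 1) := by
      rw [div_mul_eq_mul_div, le_div_iff₀ hδ]
      nlinarith
    rw [hL]
    have h2 : (0 : ℝ) ≤ m := Nat.cast_nonneg m
    nlinarith
  have hp := sm4_p_pos (p := p)
  have hs : 0 ≤ Real.sqrt N := Real.sqrt_nonneg _
  set E : ℝ := Real.exp (-c₀ * Real.sqrt N) with hE
  have hE0 : 0 < E := Real.exp_pos _
  set ρ : ℝ := (G.card : ℝ) / (p : ℝ) ^ j / ((N : ℝ) + 1) with hρ
  have hρ0 : 0 ≤ ρ := by positivity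
  rcases Nat.eq_zero_or_pos m with hm0 | hm0
  · have h1 := PR_le_one hμ.nn hμ.one N (CF p G)
    rw [hm0] at hNL
    simp only [Nat.cast_zero, zero_add, mul_one] at hNL
    have h2 : 0 < Real.exp (11 / 4 ^ 2) * Real.exp 5 * L + C + 2 * K := by positivity
    have h3 : 1 ≤ Real.exp (c₀ * L) * E := by
      rw [hE, ← Real.exp_add]
      refine Real.one_le_exp ?_
      have h4 : Real.sqrt N ≤ N + 1 := by
        rw [Real.sqrt_le_left (by positivity)]
        nlinarith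
      nlinarith
    have h5 : 0 ≤ (Real.exp (11 / 4 ^ 2) * Real.exp 5 * L + C + 2 * K) * (ρ + E) := by positivity
    have h6 : 0 ≤ Real.exp (c₀ * L) * ρ := by positivity
    nlinarith
  · have hm3 : (1 : ℝ) ≤ m := by exact_mod_cast hm0
    have hjm' : (j : ℝ) ≤ m := by nlinarith
    have hjm : j ≤ m := by exact_mod_cast hjm'
    have h15 : 15 * m ≤ N := by
      have : (15 : ℝ) * m ≤ N := by nlinarith
      exact_mod_cast this
    have h30 : 30 * j ≤ N := by
      have : (30 : ℝ) * j ≤ N := by nlinarith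
      exact_mod_cast this
    have hGG : ∀ A ∈ G, A ∈ GG p m j ∧ A.natDegree = j := fun A hA => by
      obtain ⟨h1, h2, h3⟩ := hG A hA
      exact ⟨sm8_mem_GG.2 ⟨h1, h2.le, smo_self h1 h3 (by omega)⟩, h2⟩
    have h1 := PR_mono hμ.nn N (CF_subset (p := p) h15 h30 hjm hG)
    have h2 := PR_union_le hμ.nn N (SD p m G) (B1 p (N / 8) ∪ B2 p N (N / 8))
    have h3 := PR_union_le hμ.nn N (B1 p (N / 8)) (B2 p N (N / 8))
    have h4 := HK μ hμ N
    have h5 := PR_SD μ hμ.nn (N := N) (j := j) hm0 hGG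
    have hcE : Real.exp (-c * Real.sqrt N) ≤ E := by
      rw [hE, Real.exp_le_exp]
      nlinarith [min_le_left c c₁]
    have hc₁E : Real.exp (-c₁ * Real.sqrt N) ≤ E := by
      rw [hE, Real.exp_le_exp]
      nlinarith [min_le_right c c₁]
    have h6 : EE' μ N (j + 14 * m) ≤ C * E := by
      have h7 : ((j + 14 * m : ℕ) : ℝ) ≤ δ₀ * N := by
        push_cast
        have h8 : δ * N ≤ δ₀ * N := mul_le_mul_of_nonneg_right (min_le_left _ _) hN0
        nlinarith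
      have := H μ hμ.nn hμ.one hμ.le N _ h7
      refine le_trans ?_ (mul_le_mul_of_nonneg_left hcE hC.le)
      unfold EE'
      convert this
    have h7 : K * Real.exp (-c₁ * Real.sqrt N) ≤ K * E := mul_le_mul_of_nonneg_left hc₁E hK.le
    have h8 : VV (PP p m) ≤ Real.exp 5 * L / ((N : ℝ) + 1) := by
      rw [PP_eq_GS]
      refine (gap_density_le (p := p) (Nat.zero_le m)).trans ?_
      rw [mul_div_assoc]
      refine mul_le_mul_of_nonneg_left ?_ hE5.le
      rw [div_le_div_iff₀ (by positivity) (by positivity)]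
      push_cast
      linarith
    have h9 : (G.card : ℝ) / (p : ℝ) ^ j * (Real.exp (11 / 4 ^ 2) * VV (PP p m)) ≤
        Real.exp (11 / 4 ^ 2) * Real.exp 5 * L * ρ := by
      calc (G.card : ℝ) / (p : ℝ) ^ j * (Real.exp (11 / 4 ^ 2) * VV (PP p m))
          ≤ (G.card : ℝ) / (p : ℝ) ^ j *
            (Real.exp (11 / 4 ^ 2) * (Real.exp 5 * L / ((N : ℝ) + 1))) :=
            mul_le_mul_of_nonneg_left (mul_le_mul_of_nonneg_left h8 hE1.le) (by positivity)
        _ = Real.exp (11 / 4 ^ 2) * Real.exp 5 * L * ρ := by rw [hρ]; ring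
    have h10 : 0 ≤ (C + 2 * K + Real.exp (c₀ * L)) * ρ := by positivity
    have h11 : 0 ≤ (Real.exp (11 / 4 ^ 2) * Real.exp 5 * L + Real.exp (c₀ * L)) * E := by
      positivity
    have h12 : (Real.exp (11 / 4 ^ 2) * Real.exp 5 * L + C + 2 * K + Real.exp (c₀ * L)) *
        (ρ + E) = Real.exp (11 / 4 ^ 2) * Real.exp 5 * L * ρ +
          (C + 2 * K + Real.exp (c₀ * L)) * ρ +
          (Real.exp (11 / 4 ^ 2) * Real.exp 5 * L + Real.exp (c₀ * L)) * E + C * E +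
          2 * (K * E) := by ring
    rw [h12]
    linarith [h4.1, h4.2]

end

end Pool.Agent.MP6cc1fa
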