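import Pool.Agent.Lib.MP_6cc1fa_pr.SM.GapE

/-! MP_6cc1fa_pr, module GAPF: several large irreducible factors. -/

set_option autoImplicit false

namespace Pool.Agent.MP6cc1fa

open Polynomial Finset UniqueFactorizationMonoid

noncomputable section

variable {p : ℕ} [Fact p.Prime]

/-- The nonzero polynomials with at least `r` monic irreducible divisors, other than `X`, of
degree larger than `y`. -/
def MF (p r : ℕ) (y : ℝ) [Fact p.Prime] : Set (ZMod p)[X] :=
  {g | g ≠ 0 ∧ ∃ T : Finset (ZMod p)[X], T.card = r ∧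
    ∀ Q ∈ T, Q.Monic ∧ Irreducible Q ∧ Q ≠ X ∧ y < (Q.natDegree : ℝ) ∧ Q ∣ g}

theorem PR_iUnion_le {μ : ZMod p → ℝ} (h0 : ∀ x, 0 ≤ μ x) (N : ℕ) (Z : ℕ → Set (ZMod p)[X])
    (r : ℕ) : PR μ N {g | ∃ i < r, g ∈ Z i} ≤ ∑ i ∈ range r, PR μ N (Z i) := by
  induction r with
  | zero =>
    rw [Finset.sum_range_zero]
    unfold PR
    refine Finset.sum_nonpos fun a _ => ?_
    rw [if_neg]
    rintro ⟨i, hi, -⟩
    omega
  | succ r ih =>
    rw [Finset.sum_range_succ]
    refine le_trans (PR_mono h0 N (Z' := {g | ∃ i < r, g ∈ Z i} ∪ Z r) ?_)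
      ((PR_union_le h0 N _ _).trans (add_le_add ih le_rfl))
    rintro g ⟨i, hi, hg⟩
    rcases Nat.lt_succ_iff_lt_or_eq.1 hi with h | h
    · exact Or.inl ⟨i, h, hg⟩
    · exact Or.inr (h ▸ hg)

theorem gap_many {η : ℝ} (hη : 0 < η) : ∃ A : ℝ, 0 < A ∧
    ∀ μ : ZMod p → ℝ, Law η μ → ∀ N r : ℕ, 1 ≤ r → ∀ x : ℝ, 1 ≤ x * N → x ≤ 1 →
      PR μ N {g | g ∉ MF p r (x * N)} ≤ A * r * x ^ ((1 : ℝ) / r) := by
  classical
  obtain ⟨A₀, hA₀, H⟩ := gap_upper (p := p) hη
  obtain ⟨K, hK, HK⟩ := exists_B_bound (p := p) hη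
  refine ⟨A₀ * 2 + K, by linarith, fun μ hμ N r hr x hxN hx1 => ?_⟩
  have hN0 : (0 : ℝ) ≤ N := Nat.cast_nonneg N
  have hx0 : 0 < x := by
    by_contra h
    have : x * N ≤ 0 := mul_nonpos_of_nonpos_of_nonneg (not_lt.1 h) hN0
    linarith
  have hr0 : (0 : ℝ) < r := by exact_mod_cast hr
  set t : ℕ → ℝ := fun i => x ^ (1 - (i : ℝ) / r) * N with ht
  have htpos : ∀ i, 0 ≤ t i := fun i => mul_nonneg (Real.rpow_nonneg hx0.le _) hN0
  have htmono : Monotone t := by
    intro i j hij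
    refine mul_le_mul_of_nonneg_right ?_ hN0
    refine Real.rpow_le_rpow_of_exponent_ge hx0 hx1 ?_
    have h1 : (i : ℝ) / r ≤ (j : ℝ) / r :=
      div_le_div_of_nonneg_right (by exact_mod_cast hij) hr0.le
    linarith
  have ht0 : t 0 = x * N := by simp [ht]
  have htr : t r = N := by
    simp only [ht]
    rw [div_self hr0.ne', sub_self, Real.rpow_zero, one_mul]
  have ht1 : ∀ i, 1 ≤ t i := fun i => by
    have := htmono (Nat.zero_le i)
    rw [ht0] at this
    linarith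
  have hstep : ∀ i, t i = x ^ ((1 : ℝ) / r) * t (i + 1) := by
    intro i
    simp only [ht]
    rw [← mul_assoc, ← Real.rpow_add hx0]
    congr 2
    push_cast
    field_simp
    ring
  set k : ℕ → ℕ := fun i => ⌊t i⌋₊ with hk
  have hkmono : Monotone k := fun i j hij => Nat.floor_le_floor (htmono hij)
  have hkr : k r = N := by simp only [hk, htr, Nat.floor_natCast]
  have hsub : {g | g ∉ MF p r (x * N)} ⊆
      {g | ∃ i < r, g ∈ ND (GS p (k i) (k (i + 1)))} ∪ B1 p (N / 8) := by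
    intro g hg
    by_cases hg0 : g = 0
    · right
      intro i _
      rw [hg0, coeff_zero]
    left
    by_contra hcon
    have h1 : ∀ i, i < r → ∃ Q, Q ∈ GS p (k i) (k (i + 1)) ∧ Q ∣ g := by
      intro i hi
      by_contra h
      push Not at h
      exact hcon ⟨i, hi, fun P hP => h P hP⟩
    choose! Q hQ hQg using h1
    refine hg ⟨hg0, (range r).image Q, ?_, ?_⟩
    · rw [Finset.card_image_of_injOn, Finset.card_range]
      have hlt : ∀ i j, i < j → i < r → j < r → (Q i).natDegree < (Q j).natDegree := by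
        intro i j hij hi hj
        obtain ⟨-, -, h2, -, -⟩ := mem_GS.1 (hQ i hi)
        obtain ⟨-, h3, -, -, -⟩ := mem_GS.1 (hQ j hj)
        have h4 : k (i + 1) ≤ k j := hkmono hij
        omega
      intro i hi j hj hij
      have hi' : i < r := Finset.mem_range.1 hi
      have hj' : j < r := Finset.mem_range.1 hj
      have hij' : (Q i).natDegree = (Q j).natDegree := congrArg natDegree hij
      rcases Nat.lt_trichotomy i j with h | h | h
      · have := hlt i j h hi' hj'; omega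
      · exact h
      · have := hlt j i h hj' hi'; omega
    · intro P hP
      obtain ⟨i, hi, rfl⟩ := Finset.mem_image.1 hP
      have hi' : i < r := Finset.mem_range.1 hi
      obtain ⟨h1, h2, h3, h4, h5⟩ := mem_GS.1 (hQ i hi')
      refine ⟨h1, h4, h5, ?_, hQg i hi'⟩
      have h6 : k 0 ≤ k i := hkmono (Nat.zero_le i)
      have h7 : k 0 < (Q i).natDegree := by omega
      have h8 : t 0 < ((Q i).natDegree : ℝ) := (Nat.floor_lt (htpos 0)).1 h7
      rwa [ht0] at h8
  have hB := (HK μ hμ N).1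
  have hterm : ∀ i ∈ range r, PR μ N (ND (GS p (k i) (k (i + 1)))) ≤
      A₀ * 2 * x ^ ((1 : ℝ) / r) := by
    intro i hi
    have hi' : i < r := Finset.mem_range.1 hi
    have hkN : k (i + 1) ≤ N := by rw [← hkr]; exact hkmono hi'
    refine (H μ hμ N (k i) (k (i + 1)) (hkmono (Nat.le_succ i)) hkN).trans ?_
    rw [mul_assoc]
    refine mul_le_mul_of_nonneg_left ?_ (by linarith)
    have h1 : ((k i : ℕ) : ℝ) ≤ t i := Nat.floor_le (htpos i)
    have h2 : t (i + 1) < ((k (i + 1) : ℕ) : ℝ) + 1 := Nat.lt_floor_add_one _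
    rw [div_le_iff₀ (by positivity)]
    have h3 := hstep i
    have h4 : 0 < x ^ ((1 : ℝ) / r) := Real.rpow_pos_of_pos hx0 _
    have h5 := ht1 i
    have h6 : x ^ ((1 : ℝ) / r) * t (i + 1) ≤
        x ^ ((1 : ℝ) / r) * (((k (i + 1) : ℕ) : ℝ) + 1) := mul_le_mul_of_nonneg_left h2.le h4.le
    nlinarith
  have hsum := Finset.sum_le_sum hterm
  rw [Finset.sum_const, Finset.card_range, nsmul_eq_mul] at hsum
  have h1 := PR_mono hμ.nn N hsub
  have h2 := PR_union_le hμ.nn N {g | ∃ i < r, g ∈ ND (GS p (k i) (k (i + 1)))} (B1 p (N / 8))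
  have h3 := PR_iUnion_le hμ.nn N (fun i => ND (GS p (k i) (k (i + 1)))) r
  have h4 : K / ((N : ℝ) + 1) ≤ K * r * x ^ ((1 : ℝ) / r) := by
    have h5 : 1 / ((N : ℝ) + 1) ≤ x := by
      rw [div_le_iff₀ (by positivity)]
      nlinarith
    have h6 : x ≤ x ^ ((1 : ℝ) / r) := by
      have h7 : (1 : ℝ) ≤ r := by exact_mod_cast hr
      have h8 : (1 : ℝ) / r ≤ 1 := by rw [div_le_one hr0]; exact h7
      have h9 := Real.rpow_le_rpow_of_exponent_ge hx0 hx1 h8
      rwa [Real.rpow_one] at h9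
    have h7 : x ^ ((1 : ℝ) / r) ≤ r * x ^ ((1 : ℝ) / r) := by
      have h8 : (1 : ℝ) ≤ r := by exact_mod_cast hr
      exact le_mul_of_one_le_left (Real.rpow_nonneg hx0.le _) h8
    rw [div_eq_mul_one_div, mul_assoc]
    exact mul_le_mul_of_nonneg_left (by linarith) hK.le
  have h10 : (A₀ * 2 + K) * r * x ^ ((1 : ℝ) / r) =
      r * (A₀ * 2 * x ^ ((1 : ℝ) / r)) + K * r * x ^ ((1 : ℝ) / r) := by ring
  rw [h10]
  linarith

end

end Pool.Agent.MP6cc1fa
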