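import Pool.Agent.Lib.MP_6cc1fa_pr.SM.GapE

/-! MP_6cc1fa_pr, module GAPG: both bounds for the law of the smooth part. -/

set_option autoImplicit false

namespace Pool.Agent.MP6cc1fa

open Polynomial Finset UniqueFactorizationMonoid

noncomputable section

variable {p : ℕ} [Fact p.Prime]

theorem PR_SD_ge (μ : ZMod p → ℝ) (h0 : ∀ x, 0 ≤ μ x) {N m j : ℕ} (hm : 1 ≤ m)
    {G : Finset (ZMod p)[X]} (hG : ∀ A ∈ G, A ∈ GG p m j ∧ A.natDegree = j) :
    (G.card : ℝ) / (p : ℝ) ^ j * ((1 - 11 / 4 ^ 2) * VV (PP p m)) - EE' μ N (j + 14 * m) ≤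
      PR μ N {f | smo m f ∈ G} := by
  classical
  set lam : Finset (ZMod p)[X] → ℝ := fun D => lamM (dcl m) (fun l => 2 + l) (Nat.log 2 m + 1) D
    with hlam
  have h4 := (gap_terms (p := p) (m := m) (le_refl 2) (Finset.Subset.refl (PP p m))).1
  have h3 : ∀ A ∈ G, 1 / (p : ℝ) ^ j * ((1 - 11 / 4 ^ 2) * VV (PP p m)) -
        ∑ D ∈ (PP p m).powerset.filter (fun D => lam D ≠ 0), err μ N (A * ∏ P ∈ D, P) ≤
      ∑ a : Fin N → ZMod p, if smo m (pol a) = A then ∏ i, μ (a i) else 0 := by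
    intro A hA
    obtain ⟨hA1, hA2⟩ := hG A hA
    obtain ⟨hAm, -, hAs⟩ := sm8_mem_GG.1 hA1
    have h1 := sm8_lower_law μ h0 (N := N) hm (fun l => 2 + l) hAm hAs
    refine le_trans ?_ h1
    have h5 : ∀ D ∈ (PP p m).powerset, 1 / (p : ℝ) ^ j *
        (lam D * ∏ P ∈ D, 1 / (p : ℝ) ^ P.natDegree) -
        (if lam D ≠ 0 then err μ N (A * ∏ P ∈ D, P) else 0) ≤
          lam D * prD μ N (A * ∏ P ∈ D, P) := by
      intro D hD
      have hD' := Finset.mem_powerset.1 hD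
      by_cases hz : lam D = 0
      · rw [hz, if_neg (not_not.2 rfl)]
        simp
      · rw [if_pos hz]
        have e : 1 / (p : ℝ) ^ j * ∏ P ∈ D, 1 / (p : ℝ) ^ P.natDegree =
            1 / (p : ℝ) ^ (A * ∏ P ∈ D, P).natDegree := by
          rw [hAm.natDegree_mul (sm8_prod_monic hD'), sm8_natDegree_prod hD',
            prod_div_distrib, prod_const_one, prod_pow_eq_pow_sum, hA2, pow_add]
          ring
        have h6 : 1 / (p : ℝ) ^ j * (lam D * ∏ P ∈ D, 1 / (p : ℝ) ^ P.natDegree) =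
            lam D * (1 / (p : ℝ) ^ (A * ∏ P ∈ D, P).natDegree) := by
          rw [← e]; ring
        rw [h6]
        have h7 : |lam D| ≤ 1 := sm8_lamM_abs
        have h8 : lam D * (1 / (p : ℝ) ^ (A * ∏ P ∈ D, P).natDegree) -
            lam D * prD μ N (A * ∏ P ∈ D, P) ≤ err μ N (A * ∏ P ∈ D, P) := by
          rw [← mul_sub]
          refine (le_abs_self _).trans ?_
          rw [abs_mul, abs_sub_comm]
          have h9 : 0 ≤ err μ N (A * ∏ P ∈ D, P) := abs_nonneg _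
          calc |lam D| * |prD μ N (A * ∏ P ∈ D, P) -
                1 / (p : ℝ) ^ (A * ∏ P ∈ D, P).natDegree|
              ≤ 1 * err μ N (A * ∏ P ∈ D, P) := mul_le_mul_of_nonneg_right h7 h9
            _ = _ := one_mul _
        linarith
    refine le_trans ?_ (Finset.sum_le_sum h5)
    rw [Finset.sum_sub_distrib, ← Finset.mul_sum, ← Finset.sum_filter]
    refine sub_le_sub (mul_le_mul_of_nonneg_left h4 (by positivity)) le_rfl
  have h6 := Finset.sum_le_sum h3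
  rw [Finset.sum_sub_distrib, Finset.sum_const, nsmul_eq_mul, ← mul_assoc, mul_one_div] at h6
  have h7 : ∑ A ∈ G, ∑ D ∈ (PP p m).powerset.filter (fun D => lam D ≠ 0),
      err μ N (A * ∏ P ∈ D, P) ≤ EE' μ N (j + 14 * m) := by
    have hE := sm8_errors (p := p) μ (N := N) (m := m) (t := j) (b0 := 2) hm
    have hE' : EE' μ N (j + 14 * m) = ∑ b ∈ range (j + (4 * 2 + 6) * m + 1),
        ∑ B ∈ (MD p b).filter (fun B => B.coeff 0 ≠ 0), (tau B : ℝ) * err μ N B := by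
      unfold EE'
      congr
    rw [hE']
    refine le_trans ?_ hE
    exact Finset.sum_le_sum_of_subset_of_nonneg (fun A hA => (hG A hA).1)
      fun A _ _ => Finset.sum_nonneg fun D _ => abs_nonneg _
  have h8 : ∑ A ∈ G, (∑ a : Fin N → ZMod p, if smo m (pol a) = A then ∏ i, μ (a i) else 0) =
      PR μ N {f | smo m f ∈ G} := by
    rw [Finset.sum_comm]
    unfold PR
    refine sum_congr rfl fun a _ => ?_
    rw [Finset.sum_ite_eq]
    by_cases h9 : smo m (pol a) ∈ G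
    · rw [if_pos h9, if_pos (show pol a ∈ {f | smo m f ∈ G} from h9)]
    · rw [if_neg h9, if_neg (show pol a ∉ {f | smo m f ∈ G} from h9)]
  linarith

/-- The nonzero polynomials `R * h` with `h ∈ G` and `R` without divisor in `PP p m`. -/
def RF (p m : ℕ) [Fact p.Prime] (G : Finset (ZMod p)[X]) : Set (ZMod p)[X] :=
  {f | f ≠ 0 ∧ ∃ R h : (ZMod p)[X], h ∈ G ∧ f = R * h ∧ ∀ P ∈ PP p m, ¬ P ∣ R}

theorem RF_eq {m j : ℕ} {G : Finset (ZMod p)[X]}
    (hG : ∀ A ∈ G, A ∈ GG p m j ∧ A.natDegree = j) : RF p m G = SD p m G := by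
  ext f
  constructor
  · rintro ⟨hf, R, h, hh, rfl, hR⟩
    obtain ⟨hm, -, hs⟩ := sm8_mem_GG.1 (hG h hh).1
    refine ⟨hf, ?_⟩
    rw [mul_comm R h, (sm8_smo_eq_iff hm hs (left_ne_zero_of_mul hf)).2 hR]
    exact hh
  · rintro ⟨hf, hs⟩
    obtain ⟨R, hR⟩ := sm8_smo_dvd m f
    refine ⟨hf, R, smo m f, hs, by rw [mul_comm]; exact hR, ?_⟩
    have hR0 : R ≠ 0 := by
      rintro rfl
      rw [mul_zero] at hR
      exact hf hR
    refine (sm8_smo_eq_iff (sm8_smo_monic m f) (sm8_smo_smo m f) hR0).1 ?_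
    rw [← hR]

theorem gap_rough {η : ℝ} (hη : 0 < η) : ∃ A c c' θ : ℝ, 0 < A ∧ 0 < c ∧ 0 < c' ∧ 0 < θ ∧
    ∀ μ : ZMod p → ℝ, Law η μ → ∀ N j m : ℕ, 1 ≤ m → j ≤ m → (m : ℝ) ≤ θ * N →
      ∀ G : Finset (ZMod p)[X], (∀ h ∈ G, h.Monic ∧ h.natDegree = j ∧ h.coeff 0 ≠ 0) →
      c' * ((G.card : ℝ) / (p : ℝ) ^ j / m) - A * Real.exp (-c * Real.sqrt N) ≤
        PR μ N (RF p m G) ∧
      PR μ N (RF p m G) ≤
        A * ((G.card : ℝ) / (p : ℝ) ^ j / m + Real.exp (-c * Real.sqrt N)) := by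
  classical
  obtain ⟨δ, c, C, hδ, hc, hC, H⟩ := level_dist (p := p) hη
  obtain ⟨K, c₁, hK, hc₁, HK⟩ := B_bound_exp (p := p) hη
  set c₀ : ℝ := min c c₁ with hc₀
  have hc₀0 : 0 < c₀ := lt_min hc hc₁
  refine ⟨Real.exp (11 / 4 ^ 2) * Real.exp 5 + C + K, c₀, 5 / 32 * Real.exp (-2), δ / 15,
    by positivity, hc₀0, by positivity, by positivity, fun μ hμ N j m hm hjm hmN G hG => ?_⟩
  have hm0 : (1 : ℝ) ≤ m := by exact_mod_cast hm
  have hp := sm4_p_pos (p := p)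
  have hs : 0 ≤ Real.sqrt N := Real.sqrt_nonneg _
  set E : ℝ := Real.exp (-c₀ * Real.sqrt N) with hE
  have hE0 : 0 < E := Real.exp_pos _
  set ρ : ℝ := (G.card : ℝ) / (p : ℝ) ^ j with hρ
  have hρ0 : 0 ≤ ρ := by positivity
  have hGG : ∀ A ∈ G, A ∈ GG p m j ∧ A.natDegree = j := fun A hA => by
    obtain ⟨h1, h2, h3⟩ := hG A hA
    exact ⟨sm8_mem_GG.2 ⟨h1, h2.le, smo_self h1 h3 (by omega)⟩, h2⟩
  have hcE : Real.exp (-c * Real.sqrt N) ≤ E := by
    rw [hE, Real.exp_le_exp]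
    nlinarith [min_le_left c c₁]
  have hc₁E : Real.exp (-c₁ * Real.sqrt N) ≤ E := by
    rw [hE, Real.exp_le_exp]
    nlinarith [min_le_right c c₁]
  have h6 : EE' μ N (j + 14 * m) ≤ C * E := by
    have h7 : ((j + 14 * m : ℕ) : ℝ) ≤ δ * N := by
      have h8 : (j : ℝ) ≤ m := by exact_mod_cast hjm
      push_cast
      nlinarith
    have := H μ hμ.nn hμ.one hμ.le N _ h7
    refine le_trans ?_ (mul_le_mul_of_nonneg_left hcE hC.le)
    unfold EE'
    convert this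
  have hVu : VV (PP p m) ≤ Real.exp 5 * (1 / m) := by
    rw [PP_eq_GS]
    refine (gap_density_le (p := p) (Nat.zero_le m)).trans ?_
    refine mul_le_mul_of_nonneg_left ?_ (Real.exp_pos _).le
    rw [div_le_div_iff₀ (by positivity) (by positivity)]
    push_cast
    linarith
  have hVl : Real.exp (-2) * (1 / 2 * (1 / m)) ≤ VV (PP p m) := by
    rw [PP_eq_GS]
    refine le_trans ?_ (gap_density_ge (p := p) (Nat.zero_le m))
    refine mul_le_mul_of_nonneg_left ?_ (Real.exp_pos _).le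
    rw [div_mul_div_comm, div_le_div_iff₀ (by positivity) (by positivity)]
    push_cast
    linarith
  rw [RF_eq hGG]
  constructor
  · have h1 := PR_SD_ge μ hμ.nn (N := N) (j := j) hm hGG
    have h2 : PR μ N {f | smo m f ∈ G} ≤ PR μ N (SD p m G) + PR μ N (B1 p (N / 8)) := by
      refine (PR_mono hμ.nn N ?_).trans (PR_union_le hμ.nn N _ _)
      intro f hf
      by_cases hf0 : f = 0
      · right
        intro i _
        rw [hf0, coeff_zero]
      · exact Or.inl ⟨hf0, hf⟩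
    have h3 := (HK μ hμ N).1
    have h7 : K * Real.exp (-c₁ * Real.sqrt N) ≤ K * E := mul_le_mul_of_nonneg_left hc₁E hK.le
    have h8 : 5 / 32 * Real.exp (-2) * (ρ / m) ≤ ρ * ((1 - 11 / 4 ^ 2) * VV (PP p m)) := by
      have h9 : ρ * ((1 - 11 / 4 ^ 2) * (Real.exp (-2) * (1 / 2 * (1 / m)))) ≤
          ρ * ((1 - 11 / 4 ^ 2) * VV (PP p m)) :=
        mul_le_mul_of_nonneg_left (mul_le_mul_of_nonneg_left hVl (by norm_num)) hρ0
      refine le_trans (le_of_eq ?_) h9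
      ring
    have h10 : 0 ≤ Real.exp (11 / 4 ^ 2) * Real.exp 5 * E := by positivity
    have h11 : (Real.exp (11 / 4 ^ 2) * Real.exp 5 + C + K) * E =
        Real.exp (11 / 4 ^ 2) * Real.exp 5 * E + C * E + K * E := by ring
    rw [h11]
    linarith
  · have h1 := PR_SD μ hμ.nn (N := N) (j := j) hm hGG
    have h2 : ρ * (Real.exp (11 / 4 ^ 2) * VV (PP p m)) ≤
        Real.exp (11 / 4 ^ 2) * Real.exp 5 * (ρ / m) := by
      have h9 : ρ * (Real.exp (11 / 4 ^ 2) * VV (PP p m)) ≤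
          ρ * (Real.exp (11 / 4 ^ 2) * (Real.exp 5 * (1 / m))) :=
        mul_le_mul_of_nonneg_left (mul_le_mul_of_nonneg_left hVu (Real.exp_pos _).le) hρ0
      refine h9.trans (le_of_eq ?_)
      ring
    have h3 : 0 ≤ (C + K) * (ρ / m) := by positivity
    have h4 : 0 ≤ (Real.exp (11 / 4 ^ 2) * Real.exp 5 + K) * E := by positivity
    have h11 : (Real.exp (11 / 4 ^ 2) * Real.exp 5 + C + K) * (ρ / m + E) =
        Real.exp (11 / 4 ^ 2) * Real.exp 5 * (ρ / m) + (C + K) * (ρ / m) +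
          (Real.exp (11 / 4 ^ 2) * Real.exp 5 + K) * E + C * E := by ring
    rw [h11]
    linarith

end

end Pool.Agent.MP6cc1fa
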