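import Pool.Agent.Lib.MP_6cc1fa_pr.SM.Defs
import Pool.Agent.Lib.MP_6cc1fa_pr.Ann1
import Pool.Agent.Lib.MP_6cc1fa_pr.S1

/-!
MP_6cc1fa_pr, part (A), module SM1: duality.
-/

set_option autoImplicit false

namespace Pool.Agent.MP6cc1fa

open Polynomial Finset UniqueFactorizationMonoid

noncomputable section

variable {p : ℕ} [Fact p.Prime]

/-- The linear functional `f ↦ ∑_k u_k (f mod D)_k`. -/
def sm1_L (D : (ZMod p)[X]) (u : Fin D.natDegree → ZMod p) (f : (ZMod p)[X]) : ZMod p :=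
  ∑ k : Fin D.natDegree, u k * (f %ₘ D).coeff k

theorem sm1_L_add (D : (ZMod p)[X]) (u : Fin D.natDegree → ZMod p) (f g : (ZMod p)[X]) :
    sm1_L D u (f + g) = sm1_L D u f + sm1_L D u g := by
  simp only [sm1_L, add_modByMonic, coeff_add, mul_add, Finset.sum_add_distrib]

theorem sm1_L_zero (D : (ZMod p)[X]) (u : Fin D.natDegree → ZMod p) :
    sm1_L D u 0 = 0 := by
  simp [sm1_L, zero_modByMonic]

theorem sm1_L_C_mul (D : (ZMod p)[X]) (u : Fin D.natDegree → ZMod p) (c : ZMod p)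
    (f : (ZMod p)[X]) : sm1_L D u (C c * f) = c * sm1_L D u f := by
  simp only [sm1_L]
  rw [← smul_eq_C_mul, smul_modByMonic, Finset.mul_sum]
  refine Finset.sum_congr rfl fun k _ => ?_
  rw [coeff_smul, smul_eq_mul]
  ring

theorem sm1_L_sum (D : (ZMod p)[X]) (u : Fin D.natDegree → ZMod p) {ι : Type} (s : Finset ι)
    (f : ι → (ZMod p)[X]) : sm1_L D u (∑ i ∈ s, f i) = ∑ i ∈ s, sm1_L D u (f i) := by
  classical
  induction s using Finset.induction_on with
  | empty => simp [sm1_L_zero]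
  | insert a t ha ih => rw [Finset.sum_insert ha, Finset.sum_insert ha, sm1_L_add, ih]

/-- The dual sequences. -/
def sm1_th (N : ℕ) (D : (ZMod p)[X]) (u : Fin D.natDegree → ZMod p) : Fin N → ZMod p :=
  fun i => sm1_L D u (X ^ (i : ℕ))

theorem sm1_L_pol {N : ℕ} (D : (ZMod p)[X]) (u : Fin D.natDegree → ZMod p)
    (a : Fin N → ZMod p) : sm1_L D u (pol a) = ∑ i, sm1_th N D u i * a i := by
  rw [pol, sm1_L_sum]
  refine Finset.sum_congr rfl fun i _ => ?_
  rw [sm1_L_C_mul, sm1_th, mul_comm]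

theorem sm1_dvd {D : (ZMod p)[X]} (hD : D.Monic) (f : (ZMod p)[X]) :
    D ∣ f ↔ ∀ k : Fin D.natDegree, (f %ₘ D).coeff k = 0 := by
  rw [← modByMonic_eq_zero_iff_dvd hD]
  constructor
  · intro h k
    rw [h, coeff_zero]
  · intro h
    have hdeg : (f %ₘ D).degree < D.degree := degree_modByMonic_lt f hD
    ext k
    rw [coeff_zero]
    by_cases hk : k < D.natDegree
    · exact h ⟨k, hk⟩
    · apply coeff_eq_zero_of_degree_lt
      refine lt_of_lt_of_le hdeg ?_
      rw [degree_eq_natDegree hD.ne_zero]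
      exact_mod_cast not_lt.1 hk

theorem sm1_sum_ch (c : ZMod p) :
    ∑ x : ZMod p, ch (x * c) = if c = 0 then (p : ℂ) else 0 := by
  have h := AddChar.sum_mulShift (R := ZMod p) (R' := ℂ) c (ZMod.isPrimitive_stdAddChar p)
  rw [ZMod.card] at h
  simpa [ch] using h

theorem sm1_orth {b : ℕ} (c : Fin b → ZMod p) :
    ∑ u : Fin b → ZMod p, ch (∑ k, u k * c k) = if ∀ k, c k = 0 then (p : ℂ) ^ b else 0 := by
  classical
  have h1 : ∀ u : Fin b → ZMod p, ch (∑ k, u k * c k) = ∏ k, ch (u k * c k) := fun u =>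
    s1_ch_sum univ fun k => u k * c k
  simp only [h1]
  have h2 := Finset.prod_univ_sum (fun _ : Fin b => (univ : Finset (ZMod p)))
    (fun k x => ch (x * c k))
  rw [Fintype.piFinset_univ] at h2
  rw [← h2]
  simp only [sm1_sum_ch]
  by_cases hc : ∀ k, c k = 0
  · rw [if_pos hc]
    rw [Finset.prod_congr rfl (fun k _ => if_pos (hc k))]
    simp
  · rw [if_neg hc]
    push Not at hc
    obtain ⟨k, hk⟩ := hc
    exact Finset.prod_eq_zero (mem_univ k) (if_neg hk)

theorem sm1_muh_zero (μ : ZMod p → ℝ) (h1 : ∑ x, μ x = 1) : muh μ 0 = 1 := by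
  unfold muh
  have : ∀ x : ZMod p, ch (0 * x) = 1 := by
    intro x
    simp [ch]
  simp only [this, mul_one]
  rw [← Complex.ofReal_sum, h1, Complex.ofReal_one]

/-- The duality formula. -/
theorem sm1_duality (μ : ZMod p → ℝ) {N : ℕ} {D : (ZMod p)[X]} (hD : D.Monic) :
    ((p : ℂ) ^ D.natDegree) * (prD μ N D : ℂ) =
      ∑ u : Fin D.natDegree → ZMod p, ∏ i, muh μ (sm1_th N D u i) := by
  classical
  have h1 : ∀ u : Fin D.natDegree → ZMod p, ∏ i, muh μ (sm1_th N D u i) =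
      ∑ a : Fin N → ZMod p, ((∏ i, μ (a i) : ℝ) : ℂ) * ch (sm1_L D u (pol a)) := by
    intro u
    have h2 := Finset.prod_univ_sum (fun _ : Fin N => (univ : Finset (ZMod p)))
      (fun i x => (μ x : ℂ) * ch (sm1_th N D u i * x))
    rw [Fintype.piFinset_univ] at h2
    unfold muh
    rw [h2]
    refine Finset.sum_congr rfl fun a _ => ?_
    rw [Finset.prod_mul_distrib, sm1_L_pol, s1_ch_sum, Complex.ofReal_prod]
  simp only [h1]
  rw [Finset.sum_comm]
  unfold prD
  rw [Complex.ofReal_sum, Finset.mul_sum]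
  refine Finset.sum_congr rfl fun a _ => ?_
  rw [← Finset.mul_sum]
  have h3 : ∑ u : Fin D.natDegree → ZMod p, ch (sm1_L D u (pol a)) =
      if ∀ k : Fin D.natDegree, (pol a %ₘ D).coeff k = 0 then (p : ℂ) ^ D.natDegree else 0 :=
    sm1_orth (fun k : Fin D.natDegree => (pol a %ₘ D).coeff k)
  rw [h3]
  by_cases hd : D ∣ pol a
  · rw [if_pos ((sm1_dvd hD _).1 hd), if_pos hd]
    ring
  · rw [if_neg (fun h => hd ((sm1_dvd hD _).2 h)), if_neg hd]
    simp

theorem sm1_th_low {N : ℕ} {D : (ZMod p)[X]} (hD : D.Monic) (u : Fin D.natDegree → ZMod p)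
    (i : Fin D.natDegree) (hi : (i : ℕ) < N) : sm1_th N D u ⟨i, hi⟩ = u i := by
  classical
  unfold sm1_th sm1_L
  have h1 : (X ^ (i : ℕ) : (ZMod p)[X]) %ₘ D = X ^ (i : ℕ) := by
    rw [modByMonic_eq_self_iff hD, degree_X_pow, degree_eq_natDegree hD.ne_zero]
    exact_mod_cast i.2
  simp only [h1, coeff_X_pow]
  rw [Finset.sum_eq_single i]
  · simp
  · intro k _ hk
    rw [if_neg (fun h => hk (Fin.ext h)), mul_zero]
  · intro h
    exact absurd (mem_univ i) h

theorem sm1_th_inj {N : ℕ} {D : (ZMod p)[X]} (hD : D.Monic) (hN : D.natDegree ≤ N) :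
    Function.Injective (sm1_th N D) := by
  intro u v huv
  funext i
  have hi : (i : ℕ) < N := lt_of_lt_of_le i.2 hN
  rw [← sm1_th_low hD u i hi, ← sm1_th_low hD v i hi, huv]

theorem sm1_th_zero (N : ℕ) (D : (ZMod p)[X]) : sm1_th N D 0 = 0 := by
  funext i
  simp [sm1_th, sm1_L]

theorem sm1_th_ann {N : ℕ} {D : (ZMod p)[X]} (hD : D.Monic) (u : Fin D.natDegree → ZMod p) :
    Ann N D (ext (sm1_th N D u)) := by
  intro j hj
  unfold act
  have h1 : ∀ i ∈ range (D.natDegree + 1), D.coeff i * ext (sm1_th N D u) (i + j) =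
      sm1_L D u (C (D.coeff i) * X ^ (i + j)) := by
    intro i hi
    have hi' := mem_range.1 hi
    have hlt : i + j < N := by omega
    rw [sm1_L_C_mul, ext, dif_pos hlt, sm1_th]
  rw [Finset.sum_congr rfl h1, ← sm1_L_sum]
  have h2 : ∑ i ∈ range (D.natDegree + 1), C (D.coeff i) * X ^ (i + j) = D * X ^ j := by
    conv_rhs => rw [D.as_sum_range_C_mul_X_pow]
    rw [Finset.sum_mul]
    refine Finset.sum_congr rfl fun i _ => ?_
    rw [pow_add, mul_assoc]
  rw [h2]
  have h3 : (D * X ^ j) %ₘ D = 0 := (modByMonic_eq_zero_iff_dvd hD).2 (Dvd.intro _ rfl)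
  simp [sm1_L, h3]

open Classical in
theorem err_le (μ : ZMod p → ℝ) (h1 : ∑ x, μ x = 1) {N : ℕ} {D : (ZMod p)[X]} (hD : D.Monic)
    (hN : D.natDegree ≤ N) :
    err μ N D ≤ (∑ θ : Fin N → ZMod p, if θ ≠ 0 ∧ Ann N D (ext θ) then WW μ θ else 0) /
      (p : ℝ) ^ D.natDegree := by
  have hp : (0 : ℝ) < p := by exact_mod_cast (Fact.out : p.Prime).pos
  have hpb : (0 : ℝ) < (p : ℝ) ^ D.natDegree := pow_pos hp _
  rw [le_div_iff₀ hpb]
  have hdual := sm1_duality (N := N) μ hD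
  have hz : ∏ i, muh μ (sm1_th N D 0 i) = 1 := by
    rw [sm1_th_zero]
    simp [sm1_muh_zero μ h1]
  have hsplit := Finset.add_sum_erase (univ : Finset (Fin D.natDegree → ZMod p))
    (fun u => ∏ i, muh μ (sm1_th N D u i)) (mem_univ 0)
  rw [← hsplit, hz] at hdual
  have herr : err μ N D * (p : ℝ) ^ D.natDegree =
      ‖((p : ℂ) ^ D.natDegree) * (prD μ N D : ℂ) - 1‖ := by
    have e1 : ((p : ℂ) ^ D.natDegree) * (prD μ N D : ℂ) - 1 =
        (((p : ℝ) ^ D.natDegree * prD μ N D - 1 : ℝ) : ℂ) := by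
      push_cast
      ring
    rw [e1, Complex.norm_real, Real.norm_eq_abs, err]
    have e2 : (p : ℝ) ^ D.natDegree * prD μ N D - 1 =
        (prD μ N D - 1 / (p : ℝ) ^ D.natDegree) * (p : ℝ) ^ D.natDegree := by
      field_simp
    rw [e2, abs_mul, abs_of_pos hpb]
  rw [herr, hdual, add_sub_cancel_left]
  refine (norm_sum_le _ _).trans ?_
  have h4 : ∀ u : Fin D.natDegree → ZMod p,
      ‖∏ i, muh μ (sm1_th N D u i)‖ = WW μ (sm1_th N D u) := by
    intro u
    rw [norm_prod, WW]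
  simp only [h4]
  rw [← Finset.sum_filter]
  have h5 : ∑ u ∈ univ.erase (0 : Fin D.natDegree → ZMod p), WW μ (sm1_th N D u) =
      ∑ θ ∈ (univ.erase (0 : Fin D.natDegree → ZMod p)).image (sm1_th N D), WW μ θ := by
    rw [Finset.sum_image]
    intro u _ v _ huv
    exact sm1_th_inj hD hN huv
  rw [h5]
  refine Finset.sum_le_sum_of_subset_of_nonneg ?_ ?_
  · intro θ hθ
    rw [Finset.mem_image] at hθ
    obtain ⟨u, hu, rfl⟩ := hθ
    rw [Finset.mem_filter]
    refine ⟨mem_univ _, ?_, sm1_th_ann hD u⟩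
    intro h0
    apply (Finset.mem_erase.1 hu).1
    apply sm1_th_inj hD hN
    rw [h0, sm1_th_zero]
  · intro θ _ _
    exact Finset.prod_nonneg fun i _ => norm_nonneg _

end

end Pool.Agent.MP6cc1fa
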