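import Pool.Agent.Lib.MP_6cc1fa_pr.SM.Defs
import Pool.Agent.Lib.MP_6cc1fa_pr.Ann1
import Pool.Agent.Lib.MP_6cc1fa_pr.Win

/-!
MP_6cc1fa_pr, module SM2: windows.
-/

set_option autoImplicit false

namespace Pool.Agent.MP6cc1fa

open Polynomial Finset UniqueFactorizationMonoid

noncomputable section

variable {p : ℕ} [Fact p.Prime]

theorem sm2_ch_norm (a : ZMod p) : ‖ch a‖ = 1 := AddChar.norm_apply _ _

theorem sm2_muh_le (μ : ZMod p → ℝ) (h0 : ∀ x, 0 ≤ μ x) (h1 : ∑ x, μ x = 1) (t : ZMod p) :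
    ‖muh μ t‖ ≤ 1 := by
  unfold muh
  refine (norm_sum_le _ _).trans ?_
  rw [← h1]
  refine Finset.sum_le_sum fun x _ => ?_
  rw [norm_mul, sm2_ch_norm, mul_one, Complex.norm_real, Real.norm_of_nonneg (h0 x)]

theorem sm2_muh_zero (μ : ZMod p → ℝ) (h1 : ∑ x, μ x = 1) : muh μ 0 = 1 := by
  unfold muh
  have h : ∀ x : ZMod p, (μ x : ℂ) * ch (0 * x) = μ x := by
    intro x
    rw [zero_mul]
    unfold ch
    rw [AddChar.map_zero_eq_one, mul_one]
  simp only [h]
  exact_mod_cast h1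

theorem sm2_muh_lt (μ : ZMod p → ℝ) (h0 : ∀ x, 0 ≤ μ x) (h1 : ∑ x, μ x = 1)
    (hnd : ∀ x, μ x < 1) {t : ZMod p} (ht : t ≠ 0) : ‖muh μ t‖ < 1 := by
  -- two points with positive mass
  obtain ⟨a, ha⟩ : ∃ a, 0 < μ a := by
    by_contra hcon
    push Not at hcon
    have h2 : ∑ x, μ x ≤ 0 := Finset.sum_nonpos fun x _ => hcon x
    linarith
  obtain ⟨b, hab, hb⟩ : ∃ b, b ≠ a ∧ 0 < μ b := by
    by_contra hcon
    push Not at hcon
    have h2 : ∑ x, μ x = μ a := Finset.sum_eq_single a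
      (fun x _ hx => le_antisymm (hcon x hx) (h0 x)) (fun h => absurd (Finset.mem_univ a) h)
    have h3 := hnd a
    linarith
  have hne : ch (t * a) ≠ ch (t * b) := by
    intro h
    have h2 : t * a = t * b := ZMod.injective_stdAddChar h
    exact hab (mul_left_cancel₀ ht h2).symm
  have hray : ¬ SameRay ℝ ((μ a : ℂ) * ch (t * a)) ((μ b : ℂ) * ch (t * b)) := by
    intro h
    have h2 : ((μ a : ℂ) * ch (t * a)) = μ a • ch (t * a) := rfl
    have h3 : ((μ b : ℂ) * ch (t * b)) = μ b • ch (t * b) := rfl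
    rw [h2, h3] at h
    have h4 := h.pos_smul_left (inv_pos.2 ha)
    rw [inv_smul_smul₀ ha.ne'] at h4
    have h5 := h4.pos_smul_right (inv_pos.2 hb)
    rw [inv_smul_smul₀ hb.ne', sameRay_iff_of_norm_eq (by rw [sm2_ch_norm, sm2_ch_norm])] at h5
    exact hne h5
  have h2 := norm_add_lt_of_not_sameRay hray
  have hn : ∀ x, ‖(μ x : ℂ) * ch (t * x)‖ = μ x := fun x => by
    rw [norm_mul, sm2_ch_norm, mul_one, Complex.norm_real, Real.norm_of_nonneg (h0 x)]
  rw [hn, hn] at h2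
  unfold muh
  have e1 : ∑ x, (μ x : ℂ) * ch (t * x) = ((μ a : ℂ) * ch (t * a) + (μ b : ℂ) * ch (t * b)) +
      ∑ x ∈ (univ.erase a).erase b, (μ x : ℂ) * ch (t * x) := by
    rw [← Finset.add_sum_erase univ _ (Finset.mem_univ a),
      ← Finset.add_sum_erase (univ.erase a) _ (Finset.mem_erase.2 ⟨hab, Finset.mem_univ b⟩)]
    ring
  have e2 : ∑ x, μ x = (μ a + μ b) + ∑ x ∈ (univ.erase a).erase b, μ x := by
    rw [← Finset.add_sum_erase univ _ (Finset.mem_univ a),
      ← Finset.add_sum_erase (univ.erase a) _ (Finset.mem_erase.2 ⟨hab, Finset.mem_univ b⟩)]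
    ring
  rw [e1, ← h1, e2]
  refine (norm_add_le _ _).trans_lt (add_lt_add_of_lt_of_le h2 ?_)
  refine (norm_sum_le _ _).trans (le_of_eq ?_)
  exact Finset.sum_congr rfl fun x _ => hn x

theorem exists_beta (μ : ZMod p → ℝ) (h0 : ∀ x, 0 ≤ μ x) (h1 : ∑ x, μ x = 1)
    (hnd : ∀ x, μ x < 1) : ∃ β : ℝ, 0 ≤ β ∧ β < 1 ∧ ∀ t : ZMod p, t ≠ 0 → ‖muh μ t‖ ≤ β := by
  classical
  obtain ⟨t₀, -, ht₀⟩ := Finset.exists_max_image (univ : Finset (ZMod p))
    (fun t => if t = 0 then (0 : ℝ) else ‖muh μ t‖) ⟨0, Finset.mem_univ _⟩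
  refine ⟨if t₀ = 0 then (0 : ℝ) else ‖muh μ t₀‖, ?_, ?_, ?_⟩
  · split_ifs
    · exact le_rfl
    · exact norm_nonneg _
  · split_ifs with h
    · exact zero_lt_one
    · exact sm2_muh_lt μ h0 h1 hnd h
  · intro t ht
    have h2 := ht₀ t (Finset.mem_univ t)
    simp only [if_neg ht] at h2
    exact h2

theorem zero_of_window {N w : ℕ} {H : (ZMod p)[X]} (hm : H.Monic) (h0 : H.coeff 0 ≠ 0)
    {s : ℕ → ZMod p} (hA : Ann N H s) (hw : w + H.natDegree ≤ N)
    (hz : ∀ i, w ≤ i → i < w + H.natDegree → s i = 0) : ∀ i < N, s i = 0 := by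
  -- forward
  have hf : ∀ i, w ≤ i → i < N → s i = 0 := by
    intro i
    induction i using Nat.strong_induction_on with
    | _ i ih =>
      intro hwi hi
      by_cases hd : i < w + H.natDegree
      · exact hz i hwi hd
      · push Not at hd
        have h1 := hA (i - H.natDegree) (by omega)
        unfold act at h1
        rw [sum_range_succ, sum_eq_zero, zero_add] at h1
        · rw [hm.coeff_natDegree, one_mul] at h1
          rwa [show H.natDegree + (i - H.natDegree) = i by omega] at h1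
        · intro k hk
          have hk' := mem_range.1 hk
          rw [ih (k + (i - H.natDegree)) (by omega) (by omega) (by omega), mul_zero]
  -- backward
  have hb : ∀ k, 0 < k → ∀ i, i + k = w → s i = 0 := by
    intro k
    induction k using Nat.strong_induction_on with
    | _ k ih =>
      intro hk i hi
      have h1 := hA i (by omega)
      unfold act at h1
      rw [sum_range_succ', sum_eq_zero, zero_add, zero_add] at h1
      · exact (mul_eq_zero.1 h1).resolve_left h0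
      · intro j hj
        have hj' := mem_range.1 hj
        have h2 : s (j + 1 + i) = 0 := by
          rcases lt_or_ge (j + 1 + i) w with h | h
          · exact ih (w - (j + 1 + i)) (by omega) (by omega) _ (by omega)
          · exact hf _ h (by omega)
        rw [h2, mul_zero]
  intro i hi
  rcases lt_or_ge i w with h | h
  · exact hb (w - i) (by omega) i (by omega)
  · exact hf i h hi

theorem sm2_low_inj {N c k m : ℕ} (hk : k < m) (hN : 2 * c * m ≤ N) {θ θ' : Fin N → ZMod p}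
    (h : Low N c θ) (h' : Low N c θ')
    (hw : ∀ i < 2 * c, ext θ (2 * c * k + i) = ext θ' (2 * c * k + i)) : θ = θ' := by
  obtain ⟨G, hG, hG0, hGd, hA⟩ := h
  obtain ⟨G', hG', hG0', hGd', hA'⟩ := h'
  have hQ : (G * G').Monic := hG.mul hG'
  have hdeg : (G * G').natDegree = G.natDegree + G'.natDegree := hG.natDegree_mul hG'
  have hann : Ann N (G * G') (ext θ - ext θ') := by
    intro j hj
    rw [hdeg] at hj
    rw [ann1_act_sub]
    have h1 : act (G * G') (ext θ) j = 0 := by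
      rw [mul_comm, act_mul]
      unfold act
      refine sum_eq_zero fun i hi => ?_
      have hi' := mem_range.1 hi
      have := hA (i + j) (by omega)
      unfold act at this
      rw [this, mul_zero]
    have h2 : act (G * G') (ext θ') j = 0 := by
      rw [act_mul]
      unfold act
      refine sum_eq_zero fun i hi => ?_
      have hi' := mem_range.1 hi
      have := hA' (i + j) (by omega)
      unfold act at this
      rw [this, mul_zero]
    rw [h1, h2, sub_zero]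
  have hkm : 2 * c * k + 2 * c ≤ N := by
    have h3 : 2 * c * (k + 1) ≤ 2 * c * m := Nat.mul_le_mul_left _ hk
    rw [Nat.mul_add, Nat.mul_one] at h3
    omega
  have hz := zero_of_window hQ (by rw [mul_coeff_zero]; exact mul_ne_zero hG0 hG0') hann
    (w := 2 * c * k) (by rw [hdeg]; omega) (by
      intro i h1 h2
      rw [hdeg] at h2
      have h3 := hw (i - 2 * c * k) (by omega)
      rw [show 2 * c * k + (i - 2 * c * k) = i by omega] at h3
      rw [Pi.sub_apply, h3, sub_self])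
  funext i
  have h3 := hz i i.2
  rw [Pi.sub_apply, sub_eq_zero] at h3
  simpa [ext] using h3

theorem sm2_low_zero (N c : ℕ) : Low N c (0 : Fin N → ZMod p) := by
  refine ⟨1, monic_one, by simp, by simp, ?_⟩
  intro j _
  rw [ann1_act_one]
  unfold ext
  split_ifs <;> rfl

theorem sm2_prod_windows (f : ℕ → ℝ) (d m : ℕ) :
    ∏ i ∈ range (d * m), f i = ∏ k ∈ range m, ∏ i ∈ range d, f (d * k + i) := by
  induction m with
  | zero => simp
  | succ m ih => rw [Nat.mul_succ, prod_range_add, prod_range_succ, ih]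

theorem sm2_prod_le_sum_pow (g : ℕ → ℝ) (hg : ∀ k, 0 ≤ g k) {m : ℕ} (hm : 0 < m) :
    ∏ k ∈ range m, g k ≤ ∑ k ∈ range m, g k ^ m := by
  obtain ⟨k₀, hk₀, hmax⟩ := Finset.exists_max_image (range m) g ⟨0, mem_range.2 hm⟩
  calc ∏ k ∈ range m, g k ≤ ∏ k ∈ range m, g k₀ :=
        Finset.prod_le_prod (fun k _ => hg k) hmax
    _ = g k₀ ^ m := by rw [prod_const, card_range]
    _ ≤ ∑ k ∈ range m, g k ^ m :=
        Finset.single_le_sum (f := fun k => g k ^ m) (fun k _ => pow_nonneg (hg k) m) hk₀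

theorem sm2_WW_le (μ : ZMod p → ℝ) (h0 : ∀ x, 0 ≤ μ x) (h1 : ∑ x, μ x = 1) {N c m : ℕ}
    (hN : 2 * c * m ≤ N) (θ : Fin N → ZMod p) :
    WW μ θ ≤ ∏ k ∈ range m, ∏ i ∈ range (2 * c), ‖muh μ (ext θ (2 * c * k + i))‖ := by
  have e1 : WW μ θ = ∏ i ∈ range N, ‖muh μ (ext θ i)‖ := by
    unfold WW
    rw [← Fin.prod_univ_eq_prod_range (fun i => ‖muh μ (ext θ i)‖) N]
    refine Finset.prod_congr rfl fun i _ => ?_
    simp [ext]
  rw [e1, ← sm2_prod_windows (fun i => ‖muh μ (ext θ i)‖) (2 * c) m]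
  obtain ⟨r, rfl⟩ := Nat.exists_eq_add_of_le hN
  rw [prod_range_add]
  refine mul_le_of_le_one_right (Finset.prod_nonneg fun _ _ => norm_nonneg _) ?_
  exact Finset.prod_le_one (fun _ _ => norm_nonneg _) fun i _ => sm2_muh_le μ h0 h1 _

theorem sm2_sum_ne_zero (μ : ZMod p → ℝ) (h1 : ∑ x, μ x = 1) (β : ℝ)
    (hβ0 : 0 ≤ β) (hβ : ∀ t : ZMod p, t ≠ 0 → ‖muh μ t‖ ≤ β) (d m : ℕ) :
    ∑ x ∈ (univ : Finset (Fin d → ZMod p)).erase 0, ∏ i, ‖muh μ (x i)‖ ^ m ≤
      (1 + p * β ^ m) ^ d - 1 := by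
  classical
  have h2 : ∑ a : ZMod p, ‖muh μ a‖ ^ m ≤ 1 + p * β ^ m := by
    rw [← Finset.add_sum_erase univ _ (Finset.mem_univ (0 : ZMod p)), sm2_muh_zero μ h1, norm_one,
      one_pow]
    have h3 : ∑ a ∈ (univ : Finset (ZMod p)).erase 0, ‖muh μ a‖ ^ m ≤
        ∑ a ∈ (univ : Finset (ZMod p)).erase 0, β ^ m :=
      Finset.sum_le_sum fun a ha => pow_le_pow_left₀ (norm_nonneg _)
        (hβ a (Finset.ne_of_mem_erase ha)) m
    have h4 : ∑ a ∈ (univ : Finset (ZMod p)).erase 0, β ^ m ≤ p * β ^ m := by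
      rw [sum_const, nsmul_eq_mul]
      refine mul_le_mul_of_nonneg_right ?_ (pow_nonneg hβ0 m)
      have h5 : ((univ : Finset (ZMod p)).erase 0).card ≤ p := by
        refine (Finset.card_erase_le).trans ?_
        rw [Finset.card_univ, ZMod.card]
      exact_mod_cast h5
    linarith
  have h3 : (∑ a : ZMod p, ‖muh μ a‖ ^ m) ^ d =
      ∑ x : Fin d → ZMod p, ∏ i, ‖muh μ (x i)‖ ^ m := by
    have h := Finset.prod_univ_sum (fun _ : Fin d => (univ : Finset (ZMod p)))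
      (fun _ a => ‖muh μ a‖ ^ m)
    rw [Fintype.piFinset_univ] at h
    rw [← h]
    simp
  have h4 : ∑ x : Fin d → ZMod p, ∏ i, ‖muh μ (x i)‖ ^ m =
      1 + ∑ x ∈ (univ : Finset (Fin d → ZMod p)).erase 0, ∏ i, ‖muh μ (x i)‖ ^ m := by
    rw [← Finset.add_sum_erase univ _ (Finset.mem_univ (0 : Fin d → ZMod p))]
    congr 1
    simp [sm2_muh_zero μ h1]
  have h5 : (∑ a : ZMod p, ‖muh μ a‖ ^ m) ^ d ≤ (1 + p * β ^ m) ^ d :=
    pow_le_pow_left₀ (Finset.sum_nonneg fun _ _ => pow_nonneg (norm_nonneg _) _) h2 d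
  linarith

open Classical in
theorem window_sum (μ : ZMod p → ℝ) (h0 : ∀ x, 0 ≤ μ x) (h1 : ∑ x, μ x = 1) (β : ℝ)
    (hβ0 : 0 ≤ β) (hβ : ∀ t : ZMod p, t ≠ 0 → ‖muh μ t‖ ≤ β) {N c m : ℕ} (hc : 0 < c)
    (hm : 0 < m) (hN : 2 * c * m ≤ N) :
    (∑ θ : Fin N → ZMod p, if θ ≠ 0 ∧ Low N c θ then WW μ θ else 0) ≤
      m * ((1 + p * β ^ m) ^ (2 * c) - 1) := by
  set Θ := (univ : Finset (Fin N → ZMod p)).filter fun θ => θ ≠ 0 ∧ Low N c θ with hΘ
  rw [← Finset.sum_filter, ← hΘ]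
  set W : ℕ → (Fin N → ZMod p) → (Fin (2 * c) → ZMod p) :=
    fun k θ i => ext θ (2 * c * k + i) with hW
  set F : (Fin (2 * c) → ZMod p) → ℝ := fun x => ∏ i, ‖muh μ (x i)‖ ^ m with hF
  have h2 : ∀ θ ∈ Θ, WW μ θ ≤ ∑ k ∈ range m, F (W k θ) := by
    intro θ _
    refine (sm2_WW_le μ h0 h1 hN θ).trans ?_
    refine (sm2_prod_le_sum_pow (fun k => ∏ i ∈ range (2 * c), ‖muh μ (ext θ (2 * c * k + i))‖)
      (fun k => Finset.prod_nonneg fun _ _ => norm_nonneg _) hm).trans (le_of_eq ?_)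
    refine Finset.sum_congr rfl fun k _ => ?_
    simp only [hF, hW]
    rw [← Finset.prod_pow, ← Fin.prod_univ_eq_prod_range
      (fun i => ‖muh μ (ext θ (2 * c * k + i))‖ ^ m) (2 * c)]
  have h3 : ∀ k ∈ range m, ∑ θ ∈ Θ, F (W k θ) ≤ (1 + p * β ^ m) ^ (2 * c) - 1 := by
    intro k hk
    have hk' := mem_range.1 hk
    have hinj : Set.InjOn (W k) (Θ : Set (Fin N → ZMod p)) := by
      intro θ hθ θ' hθ' he
      have h4 := (Finset.mem_filter.1 hθ).2
      have h5 := (Finset.mem_filter.1 hθ').2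
      refine sm2_low_inj hk' hN h4.2 h5.2 fun i hi => ?_
      exact congrFun he ⟨i, hi⟩
    rw [← Finset.sum_image (f := F) hinj]
    refine (Finset.sum_le_sum_of_subset_of_nonneg ?_ ?_).trans
      (sm2_sum_ne_zero μ h1 β hβ0 hβ (2 * c) m)
    · intro x hx
      obtain ⟨θ, hθ, rfl⟩ := Finset.mem_image.1 hx
      have h4 := (Finset.mem_filter.1 hθ).2
      refine Finset.mem_erase.2 ⟨fun h5 => h4.1 ?_, Finset.mem_univ _⟩
      refine sm2_low_inj hk' hN h4.2 (sm2_low_zero N c) fun i hi => ?_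
      have h6 := congrFun h5 ⟨i, hi⟩
      simp only [hW, Pi.zero_apply] at h6
      rw [h6]
      unfold ext
      split_ifs <;> rfl
    · intro x _ _
      exact Finset.prod_nonneg fun _ _ => pow_nonneg (norm_nonneg _) _
  calc ∑ θ ∈ Θ, WW μ θ ≤ ∑ θ ∈ Θ, ∑ k ∈ range m, F (W k θ) := Finset.sum_le_sum h2
    _ = ∑ k ∈ range m, ∑ θ ∈ Θ, F (W k θ) := Finset.sum_comm
    _ ≤ ∑ k ∈ range m, ((1 + p * β ^ m) ^ (2 * c) - 1) := Finset.sum_le_sum h3
    _ = m * ((1 + p * β ^ m) ^ (2 * c) - 1) := by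
        rw [sum_const, card_range, nsmul_eq_mul]

end

end Pool.Agent.MP6cc1fa
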