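import Pool.Agent.Lib.MP_6cc1fa_pr.SM.Defs
import Pool.Agent.Lib.MP_6cc1fa_pr.Div
import Pool.Agent.Lib.MP_6cc1fa_pr.Mon

/-!
MP_6cc1fa_pr, part (A), module SM3: the divisor function.
-/

set_option autoImplicit false

namespace Pool.Agent.MP6cc1fa

open Polynomial Finset UniqueFactorizationMonoid

noncomputable section

variable {p : ℕ} [Fact p.Prime]

theorem tau_mul_le {G K : (ZMod p)[X]} (hG : G.Monic) (hK : K.Monic) :
    tau (G * K) ≤ tau G * tau K := by
  classical
  unfold tau
  rw [← Finset.card_product]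
  apply Finset.card_le_card_of_surjOn (fun q => q.1 * q.2)
  intro h hh
  rw [Finset.mem_coe, Finset.mem_filter, Finset.mem_biUnion, div_mem_tau] at hh
  obtain ⟨h1, _, h3⟩ := hh
  obtain ⟨a, b, ha, hb, hab⟩ := exists_dvd_and_dvd_of_dvd_mul h3
  have ha0 : a ≠ 0 := by
    rintro rfl
    rw [zero_mul] at hab
    exact h1.ne_zero hab
  have hb0 : b ≠ 0 := by
    rintro rfl
    rw [mul_zero] at hab
    exact h1.ne_zero hab
  have hna : normalize a ∣ G := (normalize_dvd_iff).2 ha
  have hnb : normalize b ∣ K := (normalize_dvd_iff).2 hb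
  refine ⟨(normalize a, normalize b), ?_, ?_⟩
  · rw [Finset.mem_coe, Finset.mem_product, Finset.mem_filter, Finset.mem_biUnion, div_mem_tau,
      Finset.mem_filter, Finset.mem_biUnion, div_mem_tau]
    exact ⟨⟨Polynomial.monic_normalize ha0, natDegree_le_of_dvd hna hG.ne_zero, hna⟩,
      ⟨Polynomial.monic_normalize hb0, natDegree_le_of_dvd hnb hK.ne_zero, hnb⟩⟩
  · change normalize a * normalize b = h
    rw [← normalize_mul, ← hab, h1.normalize_eq_self]

open Classical in
theorem sm3_card_mult (i j : ℕ) (hij : i ≤ j) {h : (ZMod p)[X]} (hh : h ∈ MD p i) :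
    ((MD p j).filter fun K => h ∣ K).card ≤ p ^ (j - i) := by
  classical
  rw [← card_MD (p := p) (j - i)]
  apply Finset.card_le_card_of_surjOn (fun q => h * q)
  intro K hK
  rw [Finset.mem_coe, Finset.mem_filter, mem_MD] at hK
  obtain ⟨⟨hK1, hK2⟩, q, hq⟩ := hK
  rw [mem_MD] at hh
  have hq1 : q.Monic := by
    rw [hq] at hK1
    exact hh.1.of_mul_monic_left hK1
  refine ⟨q, ?_, hq.symm⟩
  rw [Finset.mem_coe, mem_MD]
  refine ⟨hq1, ?_⟩
  have := hh.1.natDegree_mul hq1
  rw [← hq, hK2, hh.2] at this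
  omega

open Classical in
theorem sm3_tau_le (j : ℕ) {K : (ZMod p)[X]} (hK : K ∈ MD p j) :
    tau K ≤ ∑ i ∈ range (j + 1), ∑ h ∈ MD p i, if h ∣ K then 1 else 0 := by
  classical
  rw [mem_MD] at hK
  unfold tau
  rw [hK.2, Finset.filter_biUnion]
  refine Finset.card_biUnion_le.trans ?_
  apply Finset.sum_le_sum
  intro i _
  rw [Finset.card_filter]

theorem sum_tau_le (j : ℕ) : ∑ K ∈ MD p j, (tau K : ℝ) ≤ (j + 1) * (p : ℝ) ^ j := by
  classical
  have h1 : ∑ K ∈ MD p j, tau K ≤ (j + 1) * p ^ j := by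
    calc ∑ K ∈ MD p j, tau K
        ≤ ∑ K ∈ MD p j, ∑ i ∈ range (j + 1), ∑ h ∈ MD p i, if h ∣ K then 1 else 0 :=
          Finset.sum_le_sum fun K hK => sm3_tau_le j hK
      _ = ∑ i ∈ range (j + 1), ∑ h ∈ MD p i, ∑ K ∈ MD p j, if h ∣ K then 1 else 0 := by
          rw [Finset.sum_comm]
          apply Finset.sum_congr rfl
          intro i _
          rw [Finset.sum_comm]
      _ ≤ ∑ i ∈ range (j + 1), ∑ h ∈ MD p i, p ^ (j - i) := by
          apply Finset.sum_le_sum
          intro i hi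
          apply Finset.sum_le_sum
          intro h hh
          rw [← Finset.card_filter]
          rw [Finset.mem_range] at hi
          exact sm3_card_mult i j (by omega) hh
      _ = ∑ i ∈ range (j + 1), p ^ j := by
          apply Finset.sum_congr rfl
          intro i hi
          rw [Finset.mem_range] at hi
          rw [Finset.sum_const, card_MD, smul_eq_mul, ← pow_add]
          congr 1
          omega
      _ = (j + 1) * p ^ j := by
          rw [Finset.sum_const, Finset.card_range, smul_eq_mul]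
  calc ∑ K ∈ MD p j, (tau K : ℝ) = ((∑ K ∈ MD p j, tau K : ℕ) : ℝ) := by push_cast; rfl
    _ ≤ (((j + 1) * p ^ j : ℕ) : ℝ) := by exact_mod_cast h1
    _ = (j + 1) * (p : ℝ) ^ j := by push_cast; ring

end

end Pool.Agent.MP6cc1fa
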