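import Pool.Agent.Lib.MP_6cc1fa_pr.SM.SM1
import Pool.Agent.Lib.MP_6cc1fa_pr.SM.SM2
import Pool.Agent.Lib.MP_6cc1fa_pr.SM.SM3
import Pool.Agent.Lib.MP_6cc1fa_pr.Ann1
import Pool.Agent.Lib.MP_6cc1fa_pr.Ann2

/-! MP_6cc1fa_pr, part (A), module SM4: level of distribution (helper60). -/

set_option autoImplicit false

namespace Pool.Agent.MP6cc1fa

open Polynomial Finset UniqueFactorizationMonoid

noncomputable section

variable {p : ℕ} [Fact p.Prime]

theorem sm4_WW_nonneg (μ : ZMod p → ℝ) {N : ℕ} (θ : Fin N → ZMod p) : 0 ≤ WW μ θ :=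
  prod_nonneg fun _ _ => norm_nonneg _

theorem sm4_p_pos : (0 : ℝ) < p := by exact_mod_cast (Fact.out : p.Prime).pos

theorem sm4_p_two : (2 : ℝ) ≤ p := by exact_mod_cast (Fact.out : p.Prime).two_le

open Classical in
/-- The sum over the multiples of `G`. -/
theorem sm4_mult {G : (ZMod p)[X]} (hG : G.Monic) (B : ℕ) :
    ∑ b ∈ range (B + 1), ∑ D ∈ (MD p b).filter (fun D => G ∣ D),
      (tau D : ℝ) / (p : ℝ) ^ D.natDegree ≤
      (tau G : ℝ) / (p : ℝ) ^ G.natDegree * (B + 1) ^ 2 := by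
  have hp := sm4_p_pos (p := p)
  set c := G.natDegree with hc
  -- bound for one degree
  have h1 : ∀ b ∈ range (B + 1), ∑ D ∈ (MD p b).filter (fun D => G ∣ D),
      (tau D : ℝ) / (p : ℝ) ^ D.natDegree ≤ (tau G : ℝ) / (p : ℝ) ^ c * (B + 1) := by
    intro b hb
    by_cases hbc : b < c
    · have : (MD p b).filter (fun D => G ∣ D) = ∅ := by
        refine filter_eq_empty_iff.2 fun D hD hGD => ?_
        obtain ⟨hDm, hDd⟩ := (mem_MD b D).1 hD
        have := natDegree_le_of_dvd hGD hDm.ne_zero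
        omega
      rw [this, sum_empty]
      positivity
    · push Not at hbc
      have h2 : (MD p b).filter (fun D => G ∣ D) ⊆ (MD p (b - c)).image (fun K => G * K) := by
        intro D hD
        obtain ⟨hD, hGD⟩ := mem_filter.1 hD
        obtain ⟨hDm, hDd⟩ := (mem_MD b D).1 hD
        obtain ⟨K, rfl⟩ := hGD
        have hKm : K.Monic := hG.of_mul_monic_left hDm
        refine mem_image.2 ⟨K, (mem_MD _ _).2 ⟨hKm, ?_⟩, rfl⟩
        rw [hG.natDegree_mul hKm] at hDd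
        omega
      have h3 : ∀ K ∈ MD p (b - c), (tau (G * K) : ℝ) / (p : ℝ) ^ (G * K).natDegree ≤
          (tau G : ℝ) / (p : ℝ) ^ b * tau K := by
        intro K hK
        obtain ⟨hKm, hKd⟩ := (mem_MD _ _).1 hK
        have hd : (G * K).natDegree = b := by rw [hG.natDegree_mul hKm]; omega
        rw [hd, div_mul_eq_mul_div]
        refine div_le_div_of_nonneg_right ?_ (by positivity)
        exact_mod_cast tau_mul_le hG hKm
      calc ∑ D ∈ (MD p b).filter (fun D => G ∣ D), (tau D : ℝ) / (p : ℝ) ^ D.natDegree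
          ≤ ∑ D ∈ (MD p (b - c)).image (fun K => G * K), (tau D : ℝ) / (p : ℝ) ^ D.natDegree :=
            sum_le_sum_of_subset_of_nonneg h2 fun _ _ _ => by positivity
        _ = ∑ K ∈ MD p (b - c), (tau (G * K) : ℝ) / (p : ℝ) ^ (G * K).natDegree :=
            sum_image fun K _ K' _ h => mul_left_cancel₀ hG.ne_zero h
        _ ≤ ∑ K ∈ MD p (b - c), (tau G : ℝ) / (p : ℝ) ^ b * tau K := sum_le_sum h3
        _ = (tau G : ℝ) / (p : ℝ) ^ b * ∑ K ∈ MD p (b - c), (tau K : ℝ) := by rw [mul_sum]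
        _ ≤ (tau G : ℝ) / (p : ℝ) ^ b * (((b - c : ℕ) + 1) * (p : ℝ) ^ (b - c)) :=
            mul_le_mul_of_nonneg_left (sum_tau_le _) (by positivity)
        _ = (tau G : ℝ) / (p : ℝ) ^ c * ((b - c : ℕ) + 1) := by
            have : (p : ℝ) ^ b = (p : ℝ) ^ c * (p : ℝ) ^ (b - c) := by
              rw [← pow_add]; congr 1; omega
            rw [this]
            field_simp
        _ ≤ (tau G : ℝ) / (p : ℝ) ^ c * (B + 1) := by
            refine mul_le_mul_of_nonneg_left ?_ (by positivity)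
            have hb' := mem_range.1 hb
            exact_mod_cast (by omega : b - c + 1 ≤ B + 1)
  refine (sum_le_sum h1).trans ?_
  rw [sum_const, card_range, nsmul_eq_mul]
  push_cast
  apply le_of_eq
  ring

open Classical in
/-- First reduction: the sum over moduli is bounded by sums over sequences of given complexity. -/
theorem sm4_reduce (μ : ZMod p → ℝ) (h1 : ∑ x, μ x = 1) {N B : ℕ} (hB : 2 * B ≤ N)
    (M : ℕ → ℝ) (hM : ∀ f : (ZMod p)[X], f.Monic → (tau f : ℝ) ≤ M f.natDegree) :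
    ∑ b ∈ range (B + 1), ∑ D ∈ (MD p b).filter (fun D => D.coeff 0 ≠ 0),
        (tau D : ℝ) * err μ N D ≤
      ∑ c ∈ Icc 1 B, M c / (p : ℝ) ^ c * (B + 1) ^ 2 *
        ∑ θ : Fin N → ZMod p, if θ ≠ 0 ∧ Low N c θ then WW μ θ else 0 := by
  have hp := sm4_p_pos (p := p)
  -- insert the bound for `err` and exchange the sums
  have s1 : ∑ b ∈ range (B + 1), ∑ D ∈ (MD p b).filter (fun D => D.coeff 0 ≠ 0),
        (tau D : ℝ) * err μ N D ≤
      ∑ θ : Fin N → ZMod p, ∑ b ∈ range (B + 1),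
        ∑ D ∈ (MD p b).filter (fun D => D.coeff 0 ≠ 0),
          if θ ≠ 0 ∧ Ann N D (ext θ) then WW μ θ * ((tau D : ℝ) / (p : ℝ) ^ D.natDegree) else 0 := by
    rw [sum_comm]
    refine sum_le_sum fun b hb => ?_
    rw [sum_comm]
    refine sum_le_sum fun D hD => ?_
    obtain ⟨hDm, hDd⟩ := (mem_MD b D).1 (mem_filter.1 hD).1
    have hb' := mem_range.1 hb
    refine (mul_le_mul_of_nonneg_left (err_le μ h1 hDm (by omega)) (Nat.cast_nonneg _)).trans ?_
    rw [← mul_div_assoc, mul_sum, sum_div]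
    refine sum_le_sum fun θ _ => ?_
    split_ifs
    · apply le_of_eq; ring
    · simp
  refine s1.trans ?_
  -- bound for one `θ`
  have s2 : ∀ θ : Fin N → ZMod p, ∑ b ∈ range (B + 1),
        ∑ D ∈ (MD p b).filter (fun D => D.coeff 0 ≠ 0),
          (if θ ≠ 0 ∧ Ann N D (ext θ) then WW μ θ * ((tau D : ℝ) / (p : ℝ) ^ D.natDegree) else 0) ≤
      ∑ c ∈ Icc 1 B, M c / (p : ℝ) ^ c * (B + 1) ^ 2 *
        if θ ≠ 0 ∧ Low N c θ then WW μ θ else 0 := by
    intro θ
    have hM0 : ∀ c, 0 ≤ M c := fun c => by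
      have := hM (X ^ c) (monic_X_pow c)
      rw [natDegree_X_pow] at this
      exact (Nat.cast_nonneg _).trans this
    have hRHS : ∀ c ∈ Icc 1 B, 0 ≤ M c / (p : ℝ) ^ c * (B + 1) ^ 2 *
        if θ ≠ 0 ∧ Low N c θ then WW μ θ else 0 := by
      intro c _
      refine mul_nonneg (mul_nonneg (div_nonneg (hM0 c) (by positivity)) (by positivity)) ?_
      split_ifs
      · exact sm4_WW_nonneg μ θ
      · exact le_rfl
    by_cases hex : θ ≠ 0 ∧ ∃ b ∈ range (B + 1), ∃ D ∈ (MD p b).filter (fun D => D.coeff 0 ≠ 0),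
        Ann N D (ext θ)
    · obtain ⟨hθ, b, hb, D, hD, hA⟩ := hex
      obtain ⟨hD1, hD0⟩ := mem_filter.1 hD
      obtain ⟨hDm, hDd⟩ := (mem_MD b D).1 hD1
      have hb' := mem_range.1 hb
      obtain ⟨G, hGm, hGd, hGA, hGdiv⟩ := exists_gen N (ext θ)
      set c := cx N (ext θ) with hc
      have hc1 : 1 ≤ c := by
        by_contra hcon
        have h0 : cx N (ext θ) = 0 := by omega
        rw [cx_eq_zero_iff] at h0
        apply hθ
        funext i
        have := h0 i i.2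
        simpa [ext] using this
      have hcb : c ≤ b := by
        rw [← hDd]; exact cx_le_of_ann hDm hA
      have hGD : G ∣ D := hGdiv D hA (by omega)
      have hG0 : G.coeff 0 ≠ 0 := by
        obtain ⟨K, rfl⟩ := hGD
        intro h
        apply hD0
        rw [mul_coeff_zero, h, zero_mul]
      have hLow : Low N c θ := ⟨G, hGm, hG0, hGd.le, hGA⟩
      have hle : ∑ b ∈ range (B + 1),
          ∑ D ∈ (MD p b).filter (fun D => D.coeff 0 ≠ 0),
          (if θ ≠ 0 ∧ Ann N D (ext θ) then WW μ θ * ((tau D : ℝ) / (p : ℝ) ^ D.natDegree)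
            else 0) ≤
          WW μ θ * ∑ b ∈ range (B + 1), ∑ D ∈ (MD p b).filter (fun D => G ∣ D),
            (tau D : ℝ) / (p : ℝ) ^ D.natDegree := by
        rw [mul_sum]
        refine sum_le_sum fun b hb => ?_
        rw [mul_sum, ← sum_filter]
        refine sum_le_sum_of_subset_of_nonneg ?_ fun D _ _ =>
          mul_nonneg (sm4_WW_nonneg μ θ) (by positivity)
        intro D hD
        obtain ⟨hD1, -, hA⟩ := mem_filter.1 hD
        obtain ⟨hD2, -⟩ := mem_filter.1 hD1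
        obtain ⟨hDm, hDd⟩ := (mem_MD b D).1 hD2
        have hb' := mem_range.1 hb
        have hcb' : c ≤ b := by rw [← hDd]; exact cx_le_of_ann hDm hA
        exact mem_filter.2 ⟨hD2, hGdiv D hA (by omega)⟩
      refine hle.trans ?_
      refine (mul_le_mul_of_nonneg_left (sm4_mult hGm B) (sm4_WW_nonneg μ θ)).trans ?_
      have hterm : WW μ θ * ((tau G : ℝ) / (p : ℝ) ^ G.natDegree * (B + 1) ^ 2) ≤
          M c / (p : ℝ) ^ c * (B + 1) ^ 2 * if θ ≠ 0 ∧ Low N c θ then WW μ θ else 0 := by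
        rw [if_pos ⟨hθ, hLow⟩, hGd, mul_comm]
        refine mul_le_mul_of_nonneg_right ?_ (sm4_WW_nonneg μ θ)
        refine mul_le_mul_of_nonneg_right ?_ (by positivity)
        refine div_le_div_of_nonneg_right ?_ (by positivity)
        have := hM G hGm
        rwa [hGd] at this
      exact hterm.trans (single_le_sum (f := fun c => M c / (p : ℝ) ^ c * (B + 1) ^ 2 *
        if θ ≠ 0 ∧ Low N c θ then WW μ θ else 0) hRHS (mem_Icc.2 ⟨hc1, by omega⟩))
    · have hz : ∑ b ∈ range (B + 1),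
          ∑ D ∈ (MD p b).filter (fun D => D.coeff 0 ≠ 0),
          (if θ ≠ 0 ∧ Ann N D (ext θ) then WW μ θ * ((tau D : ℝ) / (p : ℝ) ^ D.natDegree)
            else 0) = 0 := by
        refine sum_eq_zero fun b hb => sum_eq_zero fun D hD => ?_
        rw [if_neg]
        rintro ⟨h, hA⟩
        exact hex ⟨h, b, hb, D, hD, hA⟩
      rw [hz]
      exact sum_nonneg hRHS
  refine (sum_le_sum fun θ _ => s2 θ).trans (le_of_eq ?_)
  rw [sum_comm]
  refine sum_congr rfl fun c _ => ?_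
  rw [mul_sum]

/-! ### Analysis -/

theorem sm4_pow_sub_one {x : ℝ} (hx : 0 ≤ x) (k : ℕ) :
    (1 + x) ^ k - 1 ≤ k * x * (1 + x) ^ k := by
  induction k with
  | zero => simp
  | succ k ih =>
    have h1 : (0 : ℝ) ≤ 1 + x := by linarith
    have h2 : (1 : ℝ) ≤ (1 + x) ^ (k + 1) := one_le_pow₀ (by linarith)
    have h3 : (1 + x) ^ (k + 1) - 1 = (1 + x) * ((1 + x) ^ k - 1) + x := by ring
    have h4 := mul_le_mul_of_nonneg_left ih h1
    have h5 : (1 + x) * (k * x * (1 + x) ^ k) = k * x * (1 + x) ^ (k + 1) := by ring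
    rw [h3]
    push_cast
    nlinarith [mul_le_mul_of_nonneg_left h2 hx]

theorem sm4_poly (k : ℕ) {ε : ℝ} (hε : 0 < ε) : ∃ K : ℝ, 0 < K ∧ ∀ N : ℕ,
    ((N : ℝ) + 1) ^ k ≤ K * Real.exp (ε * Real.sqrt N) := by
  refine ⟨(2 * k).factorial / ε ^ (2 * k) * Real.exp ε, by positivity, fun N => ?_⟩
  have h1 := Real.pow_div_factorial_le_exp (ε * (Real.sqrt N + 1)) (by positivity) (2 * k)
  have hf : (0 : ℝ) < (2 * k).factorial := by positivity
  rw [div_le_iff₀ hf, mul_pow] at h1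
  have h2 : ((N : ℝ) + 1) ^ k ≤ (Real.sqrt N + 1) ^ (2 * k) := by
    rw [pow_mul]
    refine pow_le_pow_left₀ (by positivity) ?_ k
    have := Real.sq_sqrt (Nat.cast_nonneg (α := ℝ) N)
    nlinarith [Real.sqrt_nonneg (N : ℝ)]
  refine h2.trans ?_
  have h3 : Real.exp (ε * (Real.sqrt N + 1)) = Real.exp ε * Real.exp (ε * Real.sqrt N) := by
    rw [← Real.exp_add]; congr 1; ring
  rw [h3] at h1
  have h4 : (0 : ℝ) < ε ^ (2 * k) := by positivity
  calc (Real.sqrt N + 1) ^ (2 * k) = ε ^ (2 * k) * (Real.sqrt N + 1) ^ (2 * k) / ε ^ (2 * k) := by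
        field_simp
    _ ≤ Real.exp ε * Real.exp (ε * Real.sqrt N) * (2 * k).factorial / ε ^ (2 * k) :=
        div_le_div_of_nonneg_right h1 h4.le
    _ = _ := by ring

/-- The bound for one complexity. -/
theorem sm4_term {β : ℝ} (hβ1 : 1 / 2 ≤ β) (hβ2 : β < 1) {c1 : ℝ}
    (hc1 : c1 ≤ Real.log p / 2) (hc2 : c1 ≤ -Real.log β / 2) {N c : ℕ} (hc : 0 < c)
    (hcN : 2 * c ≤ N) :
    (p : ℝ) ^ (-(c : ℝ) / 2) * min 1 (2 * c * (p * β ^ (N / (2 * c)))) ≤
      2 * p * N * Real.exp (-c1 * Real.sqrt N) := by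
  have hp := sm4_p_pos (p := p)
  have hp2 := sm4_p_two (p := p)
  have hcr : (0 : ℝ) < c := by exact_mod_cast hc
  have hN : (1 : ℝ) ≤ N := by
    have : 1 ≤ N := by omega
    exact_mod_cast this
  have hNc : (2 : ℝ) * c ≤ N := by exact_mod_cast hcN
  have hlogp : 0 < Real.log p := Real.log_pos (by linarith)
  have hβ0 : 0 < β := by linarith
  have hlogβ : Real.log β < 0 := Real.log_neg hβ0 hβ2
  have hs := Real.sqrt_nonneg (N : ℝ)
  have hss := Real.sq_sqrt (Nat.cast_nonneg (α := ℝ) N)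
  rcases le_total (Real.sqrt N) c with h | h
  · -- large complexity
    have h1 : (p : ℝ) ^ (-(c : ℝ) / 2) ≤ Real.exp (-c1 * Real.sqrt N) := by
      rw [Real.rpow_def_of_pos hp]
      apply Real.exp_le_exp.2
      have e1 : c1 * Real.sqrt N ≤ Real.log p / 2 * Real.sqrt N := mul_le_mul_of_nonneg_right hc1 hs
      have e2 : Real.log p / 2 * Real.sqrt N ≤ Real.log p / 2 * c :=
        mul_le_mul_of_nonneg_left h (by linarith)
      nlinarith
    have h2 : min 1 (2 * c * (p * β ^ (N / (2 * c)))) ≤ 1 := min_le_left _ _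
    have h3 : (1 : ℝ) ≤ 2 * p * N := by nlinarith
    have h0 : 0 ≤ min 1 (2 * c * (p * β ^ (N / (2 * c)))) := by positivity
    calc (p : ℝ) ^ (-(c : ℝ) / 2) * min 1 (2 * c * (p * β ^ (N / (2 * c))))
        ≤ Real.exp (-c1 * Real.sqrt N) * 1 := mul_le_mul h1 h2 h0 (Real.exp_pos _).le
      _ ≤ 2 * p * N * Real.exp (-c1 * Real.sqrt N) := by
          nlinarith [Real.exp_pos (-c1 * Real.sqrt N)]
  · -- small complexity
    have h1 : (p : ℝ) ^ (-(c : ℝ) / 2) ≤ 1 :=
      Real.rpow_le_one_of_one_le_of_nonpos (by linarith) (by linarith)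
    have h2 : β ^ (N / (2 * c)) ≤ 2 * Real.exp (-c1 * Real.sqrt N) := by
      have e0 : (N : ℝ) / (2 * c) < (N / (2 * c) : ℕ) + 1 := by
        have := Nat.lt_floor_add_one ((N : ℝ) / ((2 * c : ℕ) : ℝ))
        rw [Nat.floor_div_natCast, Nat.floor_natCast] at this
        push_cast at this
        exact this
      have e1 : Real.sqrt N / 2 ≤ (N : ℝ) / (2 * c) := by
        rw [div_le_div_iff₀ (by norm_num) (by positivity)]
        nlinarith
      have e2 : Real.sqrt N / 2 - 1 ≤ (N / (2 * c) : ℕ) := by linarith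
      have e3 : β ^ (N / (2 * c)) = Real.exp (Real.log β * (N / (2 * c) : ℕ)) := by
        rw [← Real.rpow_natCast, Real.rpow_def_of_pos hβ0]
      have e4 : Real.log β * (N / (2 * c) : ℕ) ≤ Real.log β * (Real.sqrt N / 2 - 1) :=
        mul_le_mul_of_nonpos_left e2 hlogβ.le
      have e5 : Real.exp (-Real.log β) ≤ 2 := by
        rw [Real.exp_neg, Real.exp_log hβ0, inv_le_comm₀ hβ0 (by norm_num)]
        linarith
      rw [e3]
      calc Real.exp (Real.log β * (N / (2 * c) : ℕ))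
          ≤ Real.exp (-Real.log β + -c1 * Real.sqrt N) := by
            apply Real.exp_le_exp.2
            have : c1 * Real.sqrt N ≤ -Real.log β / 2 * Real.sqrt N :=
              mul_le_mul_of_nonneg_right hc2 hs
            nlinarith
        _ = Real.exp (-Real.log β) * Real.exp (-c1 * Real.sqrt N) := Real.exp_add _ _
        _ ≤ 2 * Real.exp (-c1 * Real.sqrt N) :=
            mul_le_mul_of_nonneg_right e5 (Real.exp_pos _).le
    have h0 : 0 ≤ min 1 (2 * c * (p * β ^ (N / (2 * c)))) := by positivity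
    calc (p : ℝ) ^ (-(c : ℝ) / 2) * min 1 (2 * c * (p * β ^ (N / (2 * c))))
        ≤ 1 * (2 * c * (p * β ^ (N / (2 * c)))) :=
          mul_le_mul h1 (min_le_right _ _) h0 zero_le_one
      _ ≤ N * (p * (2 * Real.exp (-c1 * Real.sqrt N))) := by
          rw [one_mul]
          refine mul_le_mul hNc (mul_le_mul_of_nonneg_left h2 hp.le) (by positivity) (by positivity)
      _ = _ := by ring

/-- Uniform bound for the Fourier transforms of the distributions with `max μ ≤ 1 - η`. -/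
theorem exists_beta_unif {η : ℝ} (hη : 0 < η) : ∃ β : ℝ, 0 ≤ β ∧ β < 1 ∧
    ∀ μ : ZMod p → ℝ, (∀ x, 0 ≤ μ x) → ∑ x, μ x = 1 → (∀ x, μ x ≤ 1 - η) →
      ∀ t : ZMod p, t ≠ 0 → ‖muh μ t‖ ≤ β := by
  classical
  set K : Set (ZMod p → ℝ) := {μ | (∀ x, 0 ≤ μ x) ∧ ∑ x, μ x = 1 ∧ ∀ x, μ x ≤ 1 - η} with hK
  have hclosed : IsClosed K := by
    have e : K = (⋂ x, {μ : ZMod p → ℝ | 0 ≤ μ x}) ∩ ({μ | ∑ x, μ x = 1} ∩
        ⋂ x, {μ : ZMod p → ℝ | μ x ≤ 1 - η}) := by
      ext μ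
      simp [hK]
    rw [e]
    refine IsClosed.inter (isClosed_iInter fun x => ?_) (IsClosed.inter ?_
      (isClosed_iInter fun x => ?_))
    · exact isClosed_le continuous_const (continuous_apply x)
    · exact isClosed_eq (continuous_finsetSum _ fun x _ => continuous_apply x) continuous_const
    · exact isClosed_le (continuous_apply x) continuous_const
  have hcomp : IsCompact K := by
    refine (isCompact_Icc (a := (0 : ZMod p → ℝ)) (b := fun _ => 1)).of_isClosed_subset hclosed ?_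
    intro μ hμ
    refine ⟨fun x => hμ.1 x, fun x => ?_⟩
    have := hμ.2.2 x
    change μ x ≤ 1
    linarith
  have hone : ∀ t : ZMod p, ∃ β : ℝ, 0 ≤ β ∧ β < 1 ∧ ∀ μ ∈ K, t ≠ 0 → ‖muh μ t‖ ≤ β := by
    intro t
    rcases K.eq_empty_or_nonempty with he | hne
    · refine ⟨0, le_rfl, one_pos, fun μ hμ => ?_⟩
      rw [he] at hμ
      exact absurd hμ (Set.notMem_empty _)
    · by_cases ht : t = 0
      · exact ⟨0, le_rfl, one_pos, fun μ _ h => absurd ht h⟩
      · have hcont : Continuous fun μ : ZMod p → ℝ => ‖muh μ t‖ := by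
          unfold muh
          refine Continuous.norm (continuous_finsetSum _ fun x _ => ?_)
          exact (Complex.continuous_ofReal.comp (continuous_apply x)).mul continuous_const
        obtain ⟨μ₀, hμ₀, hmax⟩ := hcomp.exists_isMaxOn hne hcont.continuousOn
        refine ⟨‖muh μ₀ t‖, norm_nonneg _, sm2_muh_lt μ₀ hμ₀.1 hμ₀.2.1 (fun x => ?_) ht,
          fun μ hμ _ => hmax hμ⟩
        have := hμ₀.2.2 x
        linarith
  choose B hB0 hB1 hB using hone
  obtain ⟨t₀, -, ht₀⟩ := Finset.exists_max_image (univ : Finset (ZMod p)) B ⟨0, mem_univ _⟩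
  exact ⟨B t₀, hB0 t₀, hB1 t₀, fun μ h0 h1 h2 t ht =>
    (hB t μ ⟨h0, h1, h2⟩ ht).trans (ht₀ t (mem_univ _))⟩

open Classical in
/-- The level of distribution of the random polynomial with i.i.d. digits, uniformly in the
distributions with `max μ ≤ 1 - η`. -/
theorem level_dist {η : ℝ} (hη : 0 < η) : ∃ δ c C : ℝ, 0 < δ ∧ 0 < c ∧ 0 < C ∧
    ∀ μ : ZMod p → ℝ, (∀ x, 0 ≤ μ x) → ∑ x, μ x = 1 → (∀ x, μ x ≤ 1 - η) →
      ∀ N B : ℕ, (B : ℝ) ≤ δ * N →
      ∑ b ∈ range (B + 1), ∑ D ∈ (MD p b).filter (fun D => D.coeff 0 ≠ 0),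
        (tau D : ℝ) * err μ N D ≤ C * Real.exp (-c * Real.sqrt N) := by
  have hp := sm4_p_pos (p := p)
  have hp2 := sm4_p_two (p := p)
  obtain ⟨β₀, hβ₀0, hβ₀1, hβ₀⟩ := exists_beta_unif (p := p) hη
  set β := max β₀ (1 / 2) with hβdef
  have hβh : 1 / 2 ≤ β := le_max_right _ _
  have hβ1 : β < 1 := max_lt hβ₀1 (by norm_num)
  have hβ0 : 0 ≤ β := by linarith
  -- the number of windows
  obtain ⟨m0, hm0⟩ : ∃ m0 : ℕ, 0 < m0 ∧ 1 + p * β ^ m0 ≤ (p : ℝ) ^ (1 / 8 : ℝ) := by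
    have hlim : Filter.Tendsto (fun m : ℕ => 1 + p * β ^ m) Filter.atTop (nhds (1 + p * 0)) :=
      ((tendsto_pow_atTop_nhds_zero_of_lt_one hβ0 hβ1).const_mul _).const_add _
    have hlt : (1 : ℝ) + p * 0 < (p : ℝ) ^ (1 / 8 : ℝ) := by
      rw [mul_zero, add_zero]
      exact Real.one_lt_rpow (by linarith) (by norm_num)
    obtain ⟨m, hm, hm1⟩ := ((hlim.eventually (gt_mem_nhds hlt)).and
      (Filter.eventually_gt_atTop 0)).exists
    exact ⟨m, hm1, hm.le⟩
  obtain ⟨hm0, hm0'⟩ := hm0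
  obtain ⟨Cτ, hCτ1, hCτ⟩ := tau_le (p := p) (1 / 4) (by norm_num)
  set c1 : ℝ := min (Real.log p / 2) (-Real.log β / 2) with hc1def
  have hc1 : 0 < c1 := lt_min (by have := Real.log_pos (by linarith : (1 : ℝ) < p); linarith)
    (by have := Real.log_neg (by linarith : (0 : ℝ) < β) hβ1; linarith)
  obtain ⟨K, hK, hKN⟩ := sm4_poly 5 (half_pos hc1)
  refine ⟨1 / (2 * m0), c1 / 2, 2 * p * Cτ * K, by positivity, by linarith, by positivity,
    fun μ h0 h1 hμη N B hB => ?_⟩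
  have hβ : ∀ t : ZMod p, t ≠ 0 → ‖muh μ t‖ ≤ β := fun t ht =>
    (hβ₀ μ h0 h1 hμη t ht).trans (le_max_left _ _)
  have hm0r : (1 : ℝ) ≤ m0 := by exact_mod_cast hm0
  have hBN : 2 * m0 * B ≤ N := by
    have : (2 : ℝ) * m0 * B ≤ N := by
      rw [div_mul_eq_mul_div, one_mul, le_div_iff₀ (by positivity)] at hB
      linarith
    exact_mod_cast this
  have hB2 : 2 * B ≤ N := by nlinarith
  set M : ℕ → ℝ := fun c => Cτ * (p : ℝ) ^ (1 / 4 * (c : ℝ)) with hM
  refine (sm4_reduce μ h1 hB2 M fun f hf => hCτ f hf.ne_zero).trans ?_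
  -- bound for one complexity
  have hterm : ∀ c ∈ Icc 1 B, M c / (p : ℝ) ^ c * (B + 1) ^ 2 *
        (∑ θ : Fin N → ZMod p, if θ ≠ 0 ∧ Low N c θ then WW μ θ else 0) ≤
      Cτ * (N + 1) ^ 3 * (2 * p * N * Real.exp (-c1 * Real.sqrt N)) := by
    intro c hc
    obtain ⟨hc1', hcB⟩ := mem_Icc.1 hc
    have hcN : 2 * c ≤ N := by nlinarith
    have hcN' : 2 * c * m0 ≤ N := by nlinarith
    set m := N / (2 * c) with hmdef
    have hm0m : m0 ≤ m := (Nat.le_div_iff_mul_le (by omega)).2 (by nlinarith)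
    have hmpos : 0 < m := by omega
    have hmN : 2 * c * m ≤ N := Nat.mul_div_le N (2 * c)
    have hmN' : m ≤ N := Nat.div_le_self _ _
    have hW := window_sum μ h0 h1 β hβ0 hβ (by omega : 0 < c) hmpos hmN
    have hx0 : 0 ≤ p * β ^ m := by positivity
    have hx1 : 1 + p * β ^ m ≤ (p : ℝ) ^ (1 / 8 : ℝ) := by
      refine le_trans ?_ hm0'
      have := pow_le_pow_of_le_one hβ0 hβ1.le hm0m
      nlinarith
    have hpow : (1 + p * β ^ m) ^ (2 * c) ≤ (p : ℝ) ^ (1 / 4 * (c : ℝ)) := by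
      calc (1 + p * β ^ m) ^ (2 * c) ≤ ((p : ℝ) ^ (1 / 8 : ℝ)) ^ (2 * c) :=
            pow_le_pow_left₀ (by linarith) hx1 _
        _ = (p : ℝ) ^ (1 / 4 * (c : ℝ)) := by
            rw [← Real.rpow_natCast, ← Real.rpow_mul hp.le]
            congr 1
            push_cast
            ring
    have hpc : 0 < (p : ℝ) ^ (1 / 4 * (c : ℝ)) := by positivity
    have hdiff : (1 + p * β ^ m) ^ (2 * c) - 1 ≤
        (p : ℝ) ^ (1 / 4 * (c : ℝ)) * min 1 (2 * c * (p * β ^ m)) := by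
      rw [mul_min_of_nonneg _ _ hpc.le]
      refine le_min (by linarith) ?_
      refine (sm4_pow_sub_one hx0 (2 * c)).trans ?_
      push_cast
      have : 0 ≤ 2 * (c : ℝ) * (p * β ^ m) := by positivity
      nlinarith [mul_le_mul_of_nonneg_left hpow this]
    have hmin0 : 0 ≤ min 1 (2 * c * (p * β ^ m)) := by positivity
    have hmr : (m : ℝ) ≤ N + 1 := by
      have : (m : ℝ) ≤ N := by exact_mod_cast hmN'
      linarith
    have hBr : (B : ℝ) + 1 ≤ N + 1 := by
      have : (B : ℝ) ≤ N := by exact_mod_cast (by omega : B ≤ N)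
      linarith
    have hq : M c / (p : ℝ) ^ c * (p : ℝ) ^ (1 / 4 * (c : ℝ)) = Cτ * (p : ℝ) ^ (-(c : ℝ) / 2) := by
      rw [hM, ← Real.rpow_natCast (p : ℝ) c]
      simp only
      rw [mul_div_assoc, ← Real.rpow_sub hp, mul_assoc, ← Real.rpow_add hp]
      congr 2
      ring
    have hMc : 0 ≤ M c / (p : ℝ) ^ c := by
      rw [hM]
      positivity
    calc M c / (p : ℝ) ^ c * (B + 1) ^ 2 *
        (∑ θ : Fin N → ZMod p, if θ ≠ 0 ∧ Low N c θ then WW μ θ else 0)
        ≤ M c / (p : ℝ) ^ c * (N + 1) ^ 2 *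
            ((N + 1) * ((p : ℝ) ^ (1 / 4 * (c : ℝ)) * min 1 (2 * c * (p * β ^ m)))) := by
          refine mul_le_mul (mul_le_mul_of_nonneg_left (pow_le_pow_left₀ (by positivity) hBr 2)
            hMc) (hW.trans ?_) ?_ (by positivity)
          · exact mul_le_mul hmr hdiff (by
              have : (1 : ℝ) ≤ (1 + p * β ^ m) ^ (2 * c) := one_le_pow₀ (by linarith)
              linarith) (by positivity)
          · refine sum_nonneg fun θ _ => ?_
            split_ifs
            · exact sm4_WW_nonneg μ θ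
            · exact le_rfl
      _ = (M c / (p : ℝ) ^ c * (p : ℝ) ^ (1 / 4 * (c : ℝ))) * (N + 1) ^ 3 *
            min 1 (2 * c * (p * β ^ m)) := by ring
      _ = Cτ * (N + 1) ^ 3 * ((p : ℝ) ^ (-(c : ℝ) / 2) * min 1 (2 * c * (p * β ^ m))) := by
          rw [hq]; ring
      _ ≤ Cτ * (N + 1) ^ 3 * (2 * p * N * Real.exp (-c1 * Real.sqrt N)) := by
          refine mul_le_mul_of_nonneg_left ?_ (by positivity)
          exact sm4_term hβh hβ1 (min_le_left _ _) (min_le_right _ _) (by omega) hcN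
  refine (sum_le_sum hterm).trans ?_
  rw [sum_const, nsmul_eq_mul, Nat.card_Icc, Nat.add_sub_cancel]
  have hBN' : (B : ℝ) ≤ N + 1 := by
    have : (B : ℝ) ≤ N := by exact_mod_cast (by omega : B ≤ N)
    linarith
  have hexp : Real.exp (-c1 * Real.sqrt N) =
      Real.exp (-(c1 / 2) * Real.sqrt N) * Real.exp (-(c1 / 2) * Real.sqrt N) := by
    rw [← Real.exp_add]; congr 1; ring
  have hKN' : ((N : ℝ) + 1) ^ 5 * Real.exp (-(c1 / 2) * Real.sqrt N) ≤ K := by
    have h2 := mul_le_mul_of_nonneg_right (hKN N) (Real.exp_pos (-(c1 / 2) * Real.sqrt N)).le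
    rw [mul_assoc, ← Real.exp_add] at h2
    have h3 : c1 / 2 * Real.sqrt N + -(c1 / 2) * Real.sqrt N = 0 := by ring
    rw [h3, Real.exp_zero, mul_one] at h2
    exact h2
  have hN0 : (0 : ℝ) ≤ N := Nat.cast_nonneg _
  calc (B : ℝ) * (Cτ * (N + 1) ^ 3 * (2 * p * N * Real.exp (-c1 * Real.sqrt N)))
      ≤ (N + 1) * (Cτ * (N + 1) ^ 3 * (2 * p * (N + 1) * Real.exp (-c1 * Real.sqrt N))) := by
        gcongr
        linarith
    _ = 2 * p * Cτ * (((N : ℝ) + 1) ^ 5 * Real.exp (-(c1 / 2) * Real.sqrt N)) *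
          Real.exp (-(c1 / 2) * Real.sqrt N) := by rw [hexp]; ring
    _ ≤ 2 * p * Cτ * K * Real.exp (-(c1 / 2) * Real.sqrt N) := by
        gcongr

end

end Pool.Agent.MP6cc1fa
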