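import Pool.Agent.Lib.MP_6cc1fa_pr.SM.Defs

/-!
# MP_6cc1fa_pr, part (A), module SM5: Brun-Hooley sieve weights
-/

set_option autoImplicit false

namespace Pool.Agent.MP6cc1fa

open Finset

noncomputable section

set_option linter.unusedSectionVars false

variable {ι : Type} [DecidableEq ι]

/-- The truncated alternating sum over the subsets of `S`. -/
def sm5Y (g : ι → ℝ) (r : ℕ) (S : Finset ι) : ℝ :=
  ∑ D ∈ S.powerset, if D.card ≤ r then (-1) ^ D.card * ∏ P ∈ D, g P else 0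

/-- The elementary symmetric sum. -/
def sm5E (g : ι → ℝ) (r : ℕ) (S : Finset ι) : ℝ :=
  ∑ D ∈ S.powerset, if D.card = r then ∏ P ∈ D, g P else 0

theorem sm5E_zero (g : ι → ℝ) (S : Finset ι) : sm5E g 0 S = 1 := by
  unfold sm5E
  rw [Finset.sum_eq_single ∅]
  · simp
  · intro D _ hD
    rw [if_neg]
    rwa [Finset.card_eq_zero]
  · intro h
    exact absurd (Finset.empty_mem_powerset S) h

theorem sm5E_empty (g : ι → ℝ) (r : ℕ) : sm5E g (r + 1) ∅ = 0 := by
  simp [sm5E]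

theorem sm5Y_zero (g : ι → ℝ) (S : Finset ι) : sm5Y g 0 S = 1 := by
  unfold sm5Y
  rw [Finset.sum_eq_single ∅]
  · simp
  · intro D _ hD
    rw [if_neg]
    rw [Nat.le_zero, Finset.card_eq_zero]
    exact hD
  · intro h
    exact absurd (Finset.empty_mem_powerset S) h

theorem sm5Y_empty (g : ι → ℝ) (r : ℕ) : sm5Y g r ∅ = 1 := by
  simp [sm5Y]

theorem sm5Y_insert (g : ι → ℝ) (r : ℕ) {S : Finset ι} {a : ι} (ha : a ∉ S) :
    sm5Y g (r + 1) (insert a S) = sm5Y g (r + 1) S - g a * sm5Y g r S := by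
  unfold sm5Y
  rw [Finset.sum_powerset_insert ha, sub_eq_add_neg, ← neg_mul, Finset.mul_sum]
  congr 1
  refine Finset.sum_congr rfl fun D hD => ?_
  have haD : a ∉ D := fun h => ha (Finset.mem_powerset.1 hD h)
  rw [Finset.card_insert_of_notMem haD, Finset.prod_insert haD]
  by_cases h : D.card ≤ r
  · rw [if_pos (by omega), if_pos h]
    ring
  · rw [if_neg (by omega), if_neg h, mul_zero]

theorem sm5E_insert (g : ι → ℝ) (r : ℕ) {S : Finset ι} {a : ι} (ha : a ∉ S) :
    sm5E g (r + 1) (insert a S) = sm5E g (r + 1) S + g a * sm5E g r S := by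
  unfold sm5E
  rw [Finset.sum_powerset_insert ha, Finset.mul_sum]
  congr 1
  refine Finset.sum_congr rfl fun D hD => ?_
  have haD : a ∉ D := fun h => ha (Finset.mem_powerset.1 hD h)
  rw [Finset.card_insert_of_notMem haD, Finset.prod_insert haD]
  by_cases h : D.card = r
  · rw [if_pos (by omega), if_pos h]
  · rw [if_neg (by omega), if_neg h, mul_zero]

theorem sm5Y_succ (g : ι → ℝ) (r : ℕ) (S : Finset ι) :
    sm5Y g (r + 1) S = sm5Y g r S + (-1) ^ (r + 1) * sm5E g (r + 1) S := by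
  unfold sm5Y sm5E
  rw [Finset.mul_sum, ← Finset.sum_add_distrib]
  refine Finset.sum_congr rfl fun D _ => ?_
  rcases lt_trichotomy D.card (r + 1) with h | h | h
  · rw [if_pos h.le, if_pos (by omega), if_neg h.ne, mul_zero, add_zero]
  · rw [if_pos h.le, if_neg (by omega), if_pos h, zero_add, h]
  · rw [if_neg (by omega), if_neg (by omega), if_neg (by omega), mul_zero, add_zero]

theorem sm5_bonf (g : ι → ℝ) (S : Finset ι) (h0 : ∀ P ∈ S, 0 ≤ g P) (h1 : ∀ P ∈ S, g P ≤ 1) :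
    ∀ r : ℕ, 0 ≤ (-1) ^ r * (sm5Y g r S - ∏ P ∈ S, (1 - g P)) := by
  induction S using Finset.induction_on with
  | empty => intro r; simp [sm5Y_empty]
  | insert a S ha ih =>
    have ih' := ih (fun P hP => h0 P (Finset.mem_insert_of_mem hP))
      (fun P hP => h1 P (Finset.mem_insert_of_mem hP))
    intro r
    cases r with
    | zero =>
      rw [sm5Y_zero, pow_zero, one_mul, sub_nonneg]
      refine Finset.prod_le_one (fun P hP => ?_) (fun P hP => ?_)
      · linarith [h1 P hP]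
      · linarith [h0 P hP]
    | succ r =>
      have h2 := ih' (r + 1)
      have h3 := mul_nonneg (h0 a (Finset.mem_insert_self a S)) (ih' r)
      rw [sm5Y_insert g r ha, Finset.prod_insert ha]
      have h4 : (-1 : ℝ) ^ (r + 1) * (sm5Y g (r + 1) S - g a * sm5Y g r S -
          (1 - g a) * ∏ P ∈ S, (1 - g P)) =
          (-1) ^ (r + 1) * (sm5Y g (r + 1) S - ∏ P ∈ S, (1 - g P)) +
          g a * ((-1) ^ r * (sm5Y g r S - ∏ P ∈ S, (1 - g P))) := by
        rw [pow_succ]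
        ring
      rw [h4]
      exact add_nonneg h2 h3

theorem sm5E_nonneg (g : ι → ℝ) (S : Finset ι) (h0 : ∀ P ∈ S, 0 ≤ g P) (r : ℕ) :
    0 ≤ sm5E g r S := by
  refine Finset.sum_nonneg fun D hD => ?_
  split_ifs
  · exact Finset.prod_nonneg fun P hP => h0 P (Finset.mem_powerset.1 hD hP)
  · exact le_rfl

theorem sm5_bern {s g : ℝ} (hs : 0 ≤ s) (hg : 0 ≤ g) :
    ∀ r : ℕ, s ^ (r + 1) + ((r + 1 : ℕ) : ℝ) * g * s ^ r ≤ (g + s) ^ (r + 1) := by
  intro r
  induction r with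
  | zero => simp [add_comm]
  | succ r ih =>
    have h1 := mul_le_mul_of_nonneg_left ih (add_nonneg hg hs)
    have h2 : 0 ≤ ((r + 1 : ℕ) : ℝ) * g ^ 2 * s ^ r := by positivity
    have h3 : (g + s) ^ (r + 1 + 1) = (g + s) * (g + s) ^ (r + 1) := by rw [pow_succ]; ring
    rw [h3]
    refine le_trans ?_ h1
    have h4 : (g + s) * (s ^ (r + 1) + ((r + 1 : ℕ) : ℝ) * g * s ^ r) =
        s ^ (r + 1 + 1) + ((r + 1 + 1 : ℕ) : ℝ) * g * s ^ (r + 1) +
          ((r + 1 : ℕ) : ℝ) * g ^ 2 * s ^ r := by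
      push_cast
      ring
    rw [h4]
    linarith

theorem sm5E_le (g : ι → ℝ) (S : Finset ι) (h0 : ∀ P ∈ S, 0 ≤ g P) :
    ∀ r : ℕ, sm5E g r S * r.factorial ≤ (∑ P ∈ S, g P) ^ r := by
  induction S using Finset.induction_on with
  | empty =>
    intro r
    cases r with
    | zero => simp [sm5E_zero]
    | succ r => simp [sm5E_empty]
  | insert a S ha ih =>
    have ih' := ih (fun P hP => h0 P (Finset.mem_insert_of_mem hP))
    have hs : 0 ≤ ∑ P ∈ S, g P :=
      Finset.sum_nonneg fun P hP => h0 P (Finset.mem_insert_of_mem hP)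
    have ha0 : 0 ≤ g a := h0 a (Finset.mem_insert_self a S)
    intro r
    cases r with
    | zero => simp [sm5E_zero]
    | succ r =>
      rw [sm5E_insert g r ha, Finset.sum_insert ha]
      have h1 := ih' (r + 1)
      have h2 := mul_le_mul_of_nonneg_left (ih' r) (mul_nonneg (Nat.cast_nonneg (r + 1)) ha0)
      have h3 : (∑ P ∈ S, g P) ^ (r + 1) + ((r + 1 : ℕ) : ℝ) * g a * (∑ P ∈ S, g P) ^ r ≤
          (g a + ∑ P ∈ S, g P) ^ (r + 1) := by
        exact sm5_bern hs ha0 r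
      rw [Nat.factorial_succ] at h1 ⊢
      push_cast at h1 h2 h3 ⊢
      nlinarith [h1, h2, h3]

theorem sm5_mem_part {cls : ι → ℕ} {D : Finset ι} {j : ℕ} {P : ι} :
    P ∈ part cls D j ↔ P ∈ D ∧ cls P = j := by
  simp [part]

theorem sm5_part_insert_same (cls : ι → ℕ) (D : Finset ι) (a : ι) :
    part cls (insert a D) (cls a) = insert a (part cls D (cls a)) := by
  ext P
  rw [sm5_mem_part, Finset.mem_insert, Finset.mem_insert, sm5_mem_part]
  constructor
  · rintro ⟨h | h, h'⟩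
    · exact Or.inl h
    · exact Or.inr ⟨h, h'⟩
  · rintro (h | ⟨h, h'⟩)
    · exact ⟨Or.inl h, by rw [h]⟩
    · exact ⟨Or.inr h, h'⟩

theorem sm5_part_insert_ne (cls : ι → ℕ) (D : Finset ι) (a : ι) {j : ℕ} (hj : j ≠ cls a) :
    part cls (insert a D) j = part cls D j := by
  ext P
  rw [sm5_mem_part, Finset.mem_insert, sm5_mem_part]
  constructor
  · rintro ⟨h | h, h'⟩
    · exact absurd (h ▸ h').symm hj
    · exact ⟨h, h'⟩
  · rintro ⟨h, h'⟩
    exact ⟨Or.inr h, h'⟩

theorem sm5_prod (cls : ι → ℕ) (L : ℕ) (S : Finset ι) (hS : ∀ P ∈ S, cls P < L) :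
    ∀ F : ℕ → Finset ι → ℝ, ∑ D ∈ S.powerset, ∏ j ∈ range L, F j (part cls D j) =
      ∏ j ∈ range L, ∑ D ∈ (part cls S j).powerset, F j D := by
  induction S using Finset.induction_on with
  | empty =>
    intro F
    simp [part]
  | insert a S ha ih =>
    intro F
    have ih' := ih (fun P hP => hS P (Finset.mem_insert_of_mem hP))
    have hc : cls a ∈ range L := Finset.mem_range.2 (hS a (Finset.mem_insert_self a S))
    obtain ⟨F', hF'⟩ : ∃ F' : ℕ → Finset ι → ℝ,
        F' = fun i E => if i = cls a then F i (insert a E) else F i E := ⟨_, rfl⟩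
    rw [Finset.sum_powerset_insert ha, ih' F]
    have h1 : ∑ D ∈ S.powerset, ∏ j ∈ range L, F j (part cls (insert a D) j) =
        ∑ D ∈ S.powerset, ∏ j ∈ range L, F' j (part cls D j) := by
      refine Finset.sum_congr rfl fun D _ => Finset.prod_congr rfl fun j _ => ?_
      rw [hF']
      by_cases hj : j = cls a
      · simp only [if_pos hj]
        rw [hj, sm5_part_insert_same]
      · simp only [if_neg hj]
        rw [sm5_part_insert_ne cls D a hj]
    rw [h1, ih' F', hF']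
    have hac : a ∉ part cls S (cls a) := fun h => ha (sm5_mem_part.1 h).1
    rw [← Finset.mul_prod_erase _ _ hc, ← Finset.mul_prod_erase _ _ hc,
      ← Finset.mul_prod_erase (range L) (fun j => ∑ D ∈ (part cls (insert a S) j).powerset, F j D) hc,
      sm5_part_insert_same, Finset.sum_powerset_insert hac, add_mul]
    congr 1
    · congr 1
      refine Finset.prod_congr rfl fun j hj => ?_
      rw [sm5_part_insert_ne cls S a (Finset.ne_of_mem_erase hj)]
    · simp only [if_true]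
      congr 1
      refine Finset.prod_congr rfl fun j hj => ?_
      rw [sm5_part_insert_ne cls S a (Finset.ne_of_mem_erase hj)]
      simp only [if_neg (Finset.ne_of_mem_erase hj)]

theorem sm5_neg (g : ι → ℝ) (E : Finset ι) :
    (-1) ^ E.card * ∏ P ∈ E, g P = ∏ P ∈ E, (-g P) := by
  rw [← Finset.prod_const, ← Finset.prod_mul_distrib]
  exact Finset.prod_congr rfl fun P _ => by ring

theorem sm5_fiber (cls : ι → ℕ) (L : ℕ) (D : Finset ι) (hD : ∀ P ∈ D, cls P < L) (h : ι → ℝ) :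
    ∏ j ∈ range L, ∏ P ∈ part cls D j, h P = ∏ P ∈ D, h P := by
  unfold part
  exact Finset.prod_fiberwise_of_maps_to (fun P hP => Finset.mem_range.2 (hD P hP)) h

/-- The factor of class `j`. -/
def sm5F (g : ι → ℝ) (b : ℕ → ℕ) (j : ℕ) (E : Finset ι) : ℝ :=
  if E.card ≤ 2 * b j then ∏ P ∈ E, (-g P) else 0

/-- The factor of the exceptional class `l`. -/
def sm5G (g : ι → ℝ) (b : ℕ → ℕ) (l j : ℕ) (E : Finset ι) : ℝ :=
  if j = l then (if E.card = 2 * b l + 1 then ∏ P ∈ E, (-g P) else 0) else sm5F g b j E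

theorem sm5_sum_F (g : ι → ℝ) (b : ℕ → ℕ) (j : ℕ) (S : Finset ι) :
    ∑ E ∈ S.powerset, sm5F g b j E = sm5Y g (2 * b j) S := by
  unfold sm5F sm5Y
  refine Finset.sum_congr rfl fun E _ => ?_
  rw [sm5_neg]

theorem sm5_sum_G (g : ι → ℝ) (b : ℕ → ℕ) (l : ℕ) (S : Finset ι) :
    ∑ E ∈ S.powerset, sm5G g b l l E = -sm5E g (2 * b l + 1) S := by
  unfold sm5G sm5E
  rw [← Finset.sum_neg_distrib]
  refine Finset.sum_congr rfl fun E _ => ?_
  rw [if_pos rfl]
  split_ifs with h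
  · rw [← sm5_neg, h, Odd.neg_one_pow ⟨b l, rfl⟩]
    ring
  · rw [neg_zero]

theorem sm5_lamP (cls : ι → ℕ) (b : ℕ → ℕ) (L : ℕ) (g : ι → ℝ) (D : Finset ι)
    (hD : ∀ P ∈ D, cls P < L) :
    lamP cls b L D * ∏ P ∈ D, g P = ∏ j ∈ range L, sm5F g b j (part cls D j) := by
  unfold lamP
  split_ifs with h
  · rw [sm5_neg, ← sm5_fiber cls L D hD]
    refine Finset.prod_congr rfl fun j hj => ?_
    rw [sm5F, if_pos (h j (Finset.mem_range.1 hj))]
  · push Not at h
    obtain ⟨j, hj, hj'⟩ := h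
    rw [zero_mul, Finset.prod_eq_zero (Finset.mem_range.2 hj)]
    rw [sm5F, if_neg (by omega)]

open Classical in
/-- The part of the lower bound weights with the exceptional class `l`. -/
def sm5T (cls : ι → ℕ) (b : ℕ → ℕ) (L l : ℕ) (D : Finset ι) : ℝ :=
  if (part cls D l).card = 2 * b l + 1 ∧ ∀ j < L, j ≠ l → (part cls D j).card ≤ 2 * b j
    then (-1) ^ D.card else 0

theorem sm5_lamT (cls : ι → ℕ) (b : ℕ → ℕ) (L l : ℕ) (hl : l < L) (g : ι → ℝ) (D : Finset ι)
    (hD : ∀ P ∈ D, cls P < L) :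
    sm5T cls b L l D * ∏ P ∈ D, g P = ∏ j ∈ range L, sm5G g b l j (part cls D j) := by
  unfold sm5T
  split_ifs with h
  · rw [sm5_neg, ← sm5_fiber cls L D hD]
    refine Finset.prod_congr rfl fun j hj => ?_
    by_cases hjl : j = l
    · rw [sm5G, if_pos hjl, hjl, if_pos h.1]
    · rw [sm5G, if_neg hjl, sm5F, if_pos (h.2 j (Finset.mem_range.1 hj) hjl)]
  · rw [zero_mul]
    symm
    by_cases h1 : (part cls D l).card = 2 * b l + 1
    · have h2 : ∃ j < L, j ≠ l ∧ ¬ (part cls D j).card ≤ 2 * b j := by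
        by_contra hcon
        push Not at hcon
        exact h ⟨h1, hcon⟩
      obtain ⟨j, hj, hjl, hj'⟩ := h2
      refine Finset.prod_eq_zero (Finset.mem_range.2 hj) ?_
      rw [sm5G, if_neg hjl, sm5F, if_neg hj']
    · refine Finset.prod_eq_zero (Finset.mem_range.2 hl) ?_
      rw [sm5G, if_pos rfl, if_neg h1]

theorem sm5_lamM (cls : ι → ℕ) (b : ℕ → ℕ) (L : ℕ) (D : Finset ι) :
    lamM cls b L D = lamP cls b L D + ∑ l ∈ range L, sm5T cls b L l D := by
  by_cases hA : ∀ j < L, (part cls D j).card ≤ 2 * b j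
  · have h1 : ∑ l ∈ range L, sm5T cls b L l D = 0 := by
      refine Finset.sum_eq_zero fun l hl => ?_
      have h2 := hA l (Finset.mem_range.1 hl)
      rw [sm5T, if_neg]
      rintro ⟨h3, _⟩
      omega
    rw [h1, add_zero, lamM, lamP, if_pos (Or.inl hA), if_pos hA]
  · rw [lamP, if_neg hA, zero_add]
    by_cases hB : ∃ l < L, (part cls D l).card = 2 * b l + 1 ∧
        ∀ j < L, j ≠ l → (part cls D j).card ≤ 2 * b j
    · rw [lamM, if_pos (Or.inr hB)]
      obtain ⟨l, hl, h1, h2⟩ := hB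
      rw [Finset.sum_eq_single l]
      · rw [sm5T, if_pos ⟨h1, h2⟩]
      · intro l' hl' hne
        rw [sm5T, if_neg]
        rintro ⟨_, h3⟩
        have h4 := h3 l hl (Ne.symm hne)
        omega
      · intro h
        exact absurd (Finset.mem_range.2 hl) h
    · rw [lamM, if_neg (by
        rintro (h | h)
        · exact hA h
        · exact hB h)]
      symm
      refine Finset.sum_eq_zero fun l hl => ?_
      rw [sm5T, if_neg]
      intro h
      exact hB ⟨l, Finset.mem_range.1 hl, h⟩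

theorem sm5_sumP (cls : ι → ℕ) (b : ℕ → ℕ) (L : ℕ) (g : ι → ℝ) (S : Finset ι)
    (hS : ∀ P ∈ S, cls P < L) :
    ∑ D ∈ S.powerset, lamP cls b L D * ∏ P ∈ D, g P =
      ∏ j ∈ range L, sm5Y g (2 * b j) (part cls S j) := by
  rw [Finset.sum_congr rfl fun D hD => sm5_lamP cls b L g D
    (fun P hP => hS P (Finset.mem_powerset.1 hD hP)), sm5_prod cls L S hS (sm5F g b)]
  exact Finset.prod_congr rfl fun j _ => sm5_sum_F g b j _

theorem sm5_sumM (cls : ι → ℕ) (b : ℕ → ℕ) (L : ℕ) (g : ι → ℝ) (S : Finset ι)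
    (hS : ∀ P ∈ S, cls P < L) :
    ∑ D ∈ S.powerset, lamM cls b L D * ∏ P ∈ D, g P =
      ∏ j ∈ range L, sm5Y g (2 * b j) (part cls S j) -
        ∑ l ∈ range L, sm5E g (2 * b l + 1) (part cls S l) *
          ∏ j ∈ (range L).erase l, sm5Y g (2 * b j) (part cls S j) := by
  simp only [sm5_lamM, add_mul, Finset.sum_mul, Finset.sum_add_distrib]
  rw [sm5_sumP cls b L g S hS, Finset.sum_comm, sub_eq_add_neg, ← Finset.sum_neg_distrib]
  congr 1
  refine Finset.sum_congr rfl fun l hl => ?_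
  rw [Finset.sum_congr rfl fun D hD => sm5_lamT cls b L l (Finset.mem_range.1 hl) g D
    (fun P hP => hS P (Finset.mem_powerset.1 hD hP)), sm5_prod cls L S hS (sm5G g b l),
    ← Finset.mul_prod_erase _ _ hl, sm5_sum_G, neg_mul]
  congr 2
  refine Finset.prod_congr rfl fun j hj => ?_
  rw [← sm5_sum_F]
  refine Finset.sum_congr rfl fun E _ => ?_
  rw [sm5G, if_neg (Finset.ne_of_mem_erase hj)]

theorem sm5Y_one_nonneg (b : ℕ) (S : Finset ι) :
    (if S = ∅ then (1 : ℝ) else 0) ≤ sm5Y (fun _ => 1) (2 * b) S := by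
  have h := sm5_bonf (fun _ => 1) S (fun _ _ => zero_le_one) (fun _ _ => le_rfl) (2 * b)
  rw [Even.neg_one_pow ⟨b, by ring⟩, one_mul, sub_nonneg] at h
  refine le_trans ?_ h
  split_ifs with h1
  · rw [h1, Finset.prod_empty]
  · exact Finset.prod_nonneg fun P _ => by norm_num

theorem sm5Y_one_le (b : ℕ) (S : Finset ι) (hS : S.Nonempty) :
    sm5Y (fun _ => 1) (2 * b) S ≤ sm5E (fun _ => 1) (2 * b + 1) S := by
  have h := sm5_bonf (fun _ => 1) S (fun _ _ => zero_le_one) (fun _ _ => le_rfl) (2 * b + 1)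
  obtain ⟨a, ha⟩ := hS
  rw [Finset.prod_eq_zero ha (by norm_num), Odd.neg_one_pow ⟨b, rfl⟩, sm5Y_succ,
    Odd.neg_one_pow ⟨b, rfl⟩] at h
  linarith

theorem lamM_le {ι : Type} [DecidableEq ι] (cls : ι → ℕ) (b : ℕ → ℕ) (L : ℕ) (Q : Finset ι)
    (hQ : ∀ P ∈ Q, cls P < L) :
    ∑ D ∈ Q.powerset, lamM cls b L D ≤ if Q = ∅ then 1 else 0 := by
  split_ifs with h
  · subst h
    simp [lamM, part]
  · obtain ⟨a, ha⟩ := Finset.nonempty_iff_ne_empty.2 h
    have h1 := sm5_sumM cls b L (fun _ => 1) Q hQ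
    simp only [Finset.prod_const_one, mul_one] at h1
    rw [h1]
    have hY : ∀ j, 0 ≤ sm5Y (fun _ => 1) (2 * b j) (part cls Q j) := by
      intro j
      refine le_trans ?_ (sm5Y_one_nonneg (b j) (part cls Q j))
      split_ifs <;> norm_num
    have hE : ∀ j, 0 ≤ sm5E (fun _ => 1) (2 * b j + 1) (part cls Q j) := fun j =>
      sm5E_nonneg _ _ (fun _ _ => zero_le_one) _
    have hl : cls a ∈ range L := Finset.mem_range.2 (hQ a ha)
    have h2 : sm5Y (fun _ => 1) (2 * b (cls a)) (part cls Q (cls a)) ≤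
        sm5E (fun _ => 1) (2 * b (cls a) + 1) (part cls Q (cls a)) :=
      sm5Y_one_le _ _ ⟨a, sm5_mem_part.2 ⟨ha, rfl⟩⟩
    rw [← Finset.mul_prod_erase (range L) _ hl, sub_nonpos]
    refine (mul_le_mul_of_nonneg_right h2 (Finset.prod_nonneg fun j _ => hY j)).trans ?_
    exact Finset.single_le_sum (f := fun l => sm5E (fun _ => 1) (2 * b l + 1) (part cls Q l) *
      ∏ j ∈ (range L).erase l, sm5Y (fun _ => 1) (2 * b j) (part cls Q j))
      (fun l _ => mul_nonneg (hE l) (Finset.prod_nonneg fun j _ => hY j)) hl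

theorem lamP_ge {ι : Type} [DecidableEq ι] (cls : ι → ℕ) (b : ℕ → ℕ) (L : ℕ) (Q : Finset ι)
    (hQ : ∀ P ∈ Q, cls P < L) :
    (if Q = ∅ then (1 : ℝ) else 0) ≤ ∑ D ∈ Q.powerset, lamP cls b L D := by
  have h1 := sm5_sumP cls b L (fun _ => 1) Q hQ
  simp only [Finset.prod_const_one, mul_one] at h1
  rw [h1]
  split_ifs with h
  · subst h
    refine le_of_eq ?_
    symm
    refine Finset.prod_eq_one fun j _ => ?_
    rw [show part cls (∅ : Finset ι) j = ∅ from rfl, sm5Y_empty]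
  · refine Finset.prod_nonneg fun j _ => ?_
    refine le_trans ?_ (sm5Y_one_nonneg (b j) (part cls Q j))
    split_ifs <;> norm_num

theorem sm5Y_ge (g : ι → ℝ) (S : Finset ι) (hg0 : ∀ P ∈ S, 0 ≤ g P)
    (hg1 : ∀ P ∈ S, g P ≤ 1 / 2) (hs : ∑ P ∈ S, g P ≤ 1) (b : ℕ) :
    1 / 8 ≤ sm5Y g (2 * b) S := by
  have h := sm5_bonf g S hg0 (fun P hP => (hg1 P hP).trans (by norm_num)) (2 * b)
  rw [Even.neg_one_pow ⟨b, by ring⟩, one_mul, sub_nonneg] at h
  refine le_trans ?_ h
  have h1 : Real.exp (-2) ≤ ∏ P ∈ S, (1 - g P) := by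
    calc Real.exp (-2) ≤ Real.exp (∑ P ∈ S, (-(2 * g P))) := by
          rw [Real.exp_le_exp, Finset.sum_neg_distrib, ← Finset.mul_sum]
          linarith
      _ = ∏ P ∈ S, Real.exp (-(2 * g P)) := Real.exp_sum _ _
      _ ≤ ∏ P ∈ S, (1 - g P) := by
          refine Finset.prod_le_prod (fun P _ => (Real.exp_pos _).le) fun P hP => ?_
          have h2 := hg0 P hP
          have h3 := hg1 P hP
          have h4 : 1 + 2 * g P ≤ Real.exp (2 * g P) := by
            have := Real.add_one_le_exp (2 * g P)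
            linarith
          rw [Real.exp_neg]
          rw [inv_le_comm₀ (Real.exp_pos _) (by linarith)]
          refine le_trans ?_ h4
          rw [inv_le_comm₀ (by linarith) (by linarith)]
          rw [inv_le_iff_one_le_mul₀ (by linarith)]
          nlinarith
  refine le_trans ?_ h1
  have h2 : Real.exp 2 ≤ 8 := by
    have h3 : Real.exp 2 = Real.exp 1 ^ 2 := by
      rw [← Real.exp_nat_mul]
      norm_num
    rw [h3]
    have h4 := Real.exp_one_lt_d9
    have h5 := Real.exp_pos 1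
    nlinarith
  rw [Real.exp_neg, one_div]
  exact inv_anti₀ (Real.exp_pos 2) h2

theorem lam_main {ι : Type} [DecidableEq ι] (cls : ι → ℕ) (b : ℕ → ℕ) (L : ℕ) (S : Finset ι)
    (hS : ∀ P ∈ S, cls P < L) (g : ι → ℝ) (hg0 : ∀ P ∈ S, 0 ≤ g P) (hg1 : ∀ P ∈ S, g P ≤ 1 / 2)
    (hs : ∀ l < L, ∑ P ∈ part cls S l, g P ≤ 1) :
    0 ≤ ∑ D ∈ S.powerset, lamP cls b L D * ∏ P ∈ D, g P ∧
    (1 - ∑ l ∈ range L, (8 : ℝ) / (2 * b l + 1).factorial) *
        ∑ D ∈ S.powerset, lamP cls b L D * ∏ P ∈ D, g P ≤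
      ∑ D ∈ S.powerset, lamM cls b L D * ∏ P ∈ D, g P := by
  have hsub : ∀ j, ∀ P ∈ part cls S j, P ∈ S := fun j P hP => (sm5_mem_part.1 hP).1
  have hY : ∀ j ∈ range L, 1 / 8 ≤ sm5Y g (2 * b j) (part cls S j) := fun j hj =>
    sm5Y_ge g _ (fun P hP => hg0 P (hsub j P hP)) (fun P hP => hg1 P (hsub j P hP))
      (hs j (Finset.mem_range.1 hj)) (b j)
  have hY0 : ∀ j ∈ range L, 0 ≤ sm5Y g (2 * b j) (part cls S j) := fun j hj =>
    le_trans (by norm_num) (hY j hj)
  rw [sm5_sumP cls b L g S hS, sm5_sumM cls b L g S hS]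
  refine ⟨Finset.prod_nonneg hY0, ?_⟩
  rw [sub_mul, one_mul, Finset.sum_mul]
  refine sub_le_sub_left (Finset.sum_le_sum fun l hl => ?_) _
  rw [← Finset.mul_prod_erase (range L) _ hl, ← mul_assoc]
  refine mul_le_mul_of_nonneg_right ?_
    (Finset.prod_nonneg fun j hj => hY0 j (Finset.mem_of_mem_erase hj))
  have hf : (0 : ℝ) < (2 * b l + 1).factorial := by positivity
  have h1 := sm5E_le g (part cls S l) (fun P hP => hg0 P (hsub l P hP)) (2 * b l + 1)
  have h2 : (∑ P ∈ part cls S l, g P) ^ (2 * b l + 1) ≤ 1 :=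
    pow_le_one₀ (Finset.sum_nonneg fun P hP => hg0 P (hsub l P hP))
      (hs l (Finset.mem_range.1 hl))
  have h3 : sm5E g (2 * b l + 1) (part cls S l) ≤ 1 / (2 * b l + 1).factorial := by
    rw [le_div_iff₀ hf]
    exact h1.trans h2
  refine h3.trans ?_
  rw [div_mul_eq_mul_div, div_le_div_iff_of_pos_right hf]
  have h4 := hY l hl
  linarith

end

end Pool.Agent.MP6cc1fa
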