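import Pool.Agent.Lib.MP_6cc1fa_pr.SM.Defs
import Pool.Agent.Lib.MP_6cc1fa_pr.Mon
import Pool.Agent.Lib.MP_6cc1fa_pr.S1

/-! MP_6cc1fa_pr, part (A), module SM6: dyadic classes. -/

set_option autoImplicit false

namespace Pool.Agent.MP6cc1fa

open Polynomial Finset UniqueFactorizationMonoid

noncomputable section

variable {p : ℕ} [Fact p.Prime]

theorem sm6_mem_PP {m : ℕ} {P : (ZMod p)[X]} (hP : P ∈ PP p m) :
    P ∈ Irr p P.natDegree ∧ 0 < P.natDegree ∧ P.natDegree ≤ m := by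
  classical
  unfold PP at hP
  rw [Finset.mem_filter, Finset.mem_biUnion] at hP
  obtain ⟨⟨d, hd, hPd⟩, _⟩ := hP
  have h := (mem_Irr d P).1 hPd
  have hdm : d ≤ m := by
    rw [Finset.mem_range] at hd
    omega
  obtain ⟨h1, h2, h3⟩ := h
  subst h2
  exact ⟨hPd, h3.natDegree_pos, hdm⟩

theorem dcl_lt {m : ℕ} {P : (ZMod p)[X]} (hP : P ∈ PP p m) : dcl m P < Nat.log 2 m + 1 := by
  have _h := hP
  unfold dcl
  exact Nat.lt_succ_of_le (Nat.log_mono_right (Nat.div_le_self _ _))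

/-- The degrees in a dyadic class. -/
theorem sm6_dcl {m l : ℕ} {P : (ZMod p)[X]} (hP : P ∈ PP p m) (h : dcl m P = l) :
    P.natDegree * 2 ^ l ≤ m ∧ m < P.natDegree * 2 ^ (l + 1) := by
  obtain ⟨_, hd, hdm⟩ := sm6_mem_PP hP
  have h1 : m / P.natDegree ≠ 0 := (Nat.div_pos hdm hd).ne'
  unfold dcl at h
  have h2 := (Nat.log_eq_iff (Or.inr ⟨by norm_num, h1⟩)).1 h
  constructor
  · rw [mul_comm]
    exact (Nat.le_div_iff_mul_le hd).1 h2.1
  · rw [mul_comm]
    exact (Nat.div_lt_iff_lt_mul hd).1 h2.2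

theorem dcl_sum {m : ℕ} (l : ℕ) :
    ∑ P ∈ part (dcl m) (PP p m) l, 1 / (p : ℝ) ^ P.natDegree ≤ 1 := by
  classical
  have hp0 : (0 : ℝ) < p := by exact_mod_cast (Fact.out : p.Prime).pos
  set M : ℕ := m / 2 ^ l with hM
  set k : ℕ := M / 2 with hk
  have hmaps : ∀ P ∈ part (dcl m) (PP p m) l, P.natDegree ∈ Finset.Ioc k M := by
    intro P hP
    unfold part at hP
    rw [Finset.mem_filter] at hP
    have h := sm6_dcl hP.1 hP.2
    rw [Finset.mem_Ioc]
    have h2 : 0 < 2 ^ l := by positivity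
    constructor
    · rw [hk, Nat.div_lt_iff_lt_mul (by norm_num), hM, Nat.div_lt_iff_lt_mul h2]
      calc m < P.natDegree * 2 ^ (l + 1) := h.2
        _ = P.natDegree * 2 * 2 ^ l := by ring
    · rw [hM]
      exact (Nat.le_div_iff_mul_le h2).2 h.1
  rw [← Finset.sum_fiberwise_of_maps_to hmaps]
  have h1 : ∀ d ∈ Finset.Ioc k M,
      ∑ P ∈ (part (dcl m) (PP p m) l).filter (fun P => P.natDegree = d),
        1 / (p : ℝ) ^ P.natDegree ≤ 1 / ((k : ℝ) + 1) := by
    intro d hd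
    rw [Finset.mem_Ioc] at hd
    have hd0 : 0 < d := by omega
    have e : ∑ P ∈ (part (dcl m) (PP p m) l).filter (fun P => P.natDegree = d),
        1 / (p : ℝ) ^ P.natDegree =
        ∑ P ∈ (part (dcl m) (PP p m) l).filter (fun P => P.natDegree = d),
          1 / (p : ℝ) ^ d := by
      refine Finset.sum_congr rfl fun P hP => ?_
      rw [(Finset.mem_filter.1 hP).2]
    rw [e, Finset.sum_const, nsmul_eq_mul]
    have hsub : (part (dcl m) (PP p m) l).filter (fun P => P.natDegree = d) ⊆ Irr p d := by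
      intro P hP
      rw [Finset.mem_filter] at hP
      have h3 := hP.1
      unfold part at h3
      rw [Finset.mem_filter] at h3
      have h4 := (sm6_mem_PP h3.1).1
      rwa [hP.2] at h4
    have hc : (((part (dcl m) (PP p m) l).filter (fun P => P.natDegree = d)).card : ℝ) ≤
        ((Irr p d).card : ℝ) := by exact_mod_cast Finset.card_le_card hsub
    have hI : (d : ℝ) * ((Irr p d).card : ℝ) ≤ (p : ℝ) ^ d := by
      exact_mod_cast s1_card_Irr_le (p := p) d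
    have hd0' : (0 : ℝ) < d := by exact_mod_cast hd0
    have hpd : (0 : ℝ) < (p : ℝ) ^ d := by positivity
    have hkd : (k : ℝ) + 1 ≤ d := by exact_mod_cast hd.1
    calc (((part (dcl m) (PP p m) l).filter (fun P => P.natDegree = d)).card : ℝ) *
          (1 / (p : ℝ) ^ d) ≤ ((Irr p d).card : ℝ) * (1 / (p : ℝ) ^ d) :=
          mul_le_mul_of_nonneg_right hc (by positivity)
      _ ≤ 1 / (d : ℝ) := by
          rw [mul_one_div, div_le_div_iff₀ hpd hd0']
          linarith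
      _ ≤ 1 / ((k : ℝ) + 1) := one_div_le_one_div_of_le (by positivity) hkd
  refine (Finset.sum_le_sum h1).trans ?_
  rw [Finset.sum_const, nsmul_eq_mul, Nat.card_Ioc, mul_one_div,
    div_le_one (by positivity)]
  have h5 : M - k ≤ k + 1 := by
    clear_value k M
    omega
  exact_mod_cast h5

omit [Fact p.Prime] in
theorem sm6_series (A : ℝ) (L : ℕ) :
    ∑ j ∈ range L, (A + 2 * (j : ℝ)) / 2 ^ j = (2 * A + 4) - (2 * A + 4 + 4 * (L : ℝ)) / 2 ^ L := by
  induction L with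
  | zero => simp
  | succ L ih =>
    rw [Finset.sum_range_succ, ih]
    push_cast
    field_simp
    ring

theorem lam_level {m b0 : ℕ} (hm : 1 ≤ m) {D : Finset (ZMod p)[X]} (hD : D ⊆ PP p m)
    (h : lamM (dcl m) (fun l => b0 + l) (Nat.log 2 m + 1) D ≠ 0) :
    ∑ P ∈ D, P.natDegree ≤ (4 * b0 + 6) * m := by
  classical
  have hcard : ∀ j < Nat.log 2 m + 1, (part (dcl m) D j).card ≤ 2 * (b0 + j) + 1 := by
    intro j hj
    unfold lamM at h
    split_ifs at h with h'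
    · rcases h' with h' | ⟨l, hl, h2, h3⟩
      · exact (h' j hj).trans (Nat.le_succ _)
      · by_cases hjl : j = l
        · subst hjl
          exact h2.le
        · exact (h3 j hj hjl).trans (Nat.le_succ _)
    · exact absurd rfl h
  have hmaps : ∀ P ∈ D, dcl m P ∈ range (Nat.log 2 m + 1) := fun P hP =>
    Finset.mem_range.2 (dcl_lt (hD hP))
  have h1 : (∑ P ∈ D, P.natDegree : ℕ) =
      ∑ j ∈ range (Nat.log 2 m + 1), ∑ P ∈ part (dcl m) D j, P.natDegree := by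
    rw [← Finset.sum_fiberwise_of_maps_to hmaps]
    rfl
  have h2 : ∀ j ∈ range (Nat.log 2 m + 1),
      ((∑ P ∈ part (dcl m) D j, P.natDegree : ℕ) : ℝ) ≤
        m * (((2 * (b0 : ℝ) + 1) + 2 * (j : ℝ)) / 2 ^ j) := by
    intro j hj
    rw [Finset.mem_range] at hj
    have h3 : ∀ P ∈ part (dcl m) D j, (P.natDegree : ℝ) ≤ m / 2 ^ j := by
      intro P hP
      unfold part at hP
      rw [Finset.mem_filter] at hP
      have h4 := (sm6_dcl (hD hP.1) hP.2).1
      rw [le_div_iff₀ (by positivity)]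
      exact_mod_cast h4
    push_cast
    have hc : ((part (dcl m) D j).card : ℝ) ≤ 2 * (b0 : ℝ) + 1 + 2 * (j : ℝ) := by
      have := hcard j hj
      have h6 : ((part (dcl m) D j).card : ℝ) ≤ ((2 * (b0 + j) + 1 : ℕ) : ℝ) := by
        exact_mod_cast this
      push_cast at h6
      linarith
    calc ∑ P ∈ part (dcl m) D j, (P.natDegree : ℝ) ≤
          ∑ P ∈ part (dcl m) D j, ((m : ℝ) / 2 ^ j) := Finset.sum_le_sum h3
      _ = ((part (dcl m) D j).card : ℝ) * ((m : ℝ) / 2 ^ j) := by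
          rw [Finset.sum_const, nsmul_eq_mul]
      _ ≤ (2 * (b0 : ℝ) + 1 + 2 * (j : ℝ)) * ((m : ℝ) / 2 ^ j) :=
          mul_le_mul_of_nonneg_right hc (by positivity)
      _ = m * (((2 * (b0 : ℝ) + 1) + 2 * (j : ℝ)) / 2 ^ j) := by ring
  have h3 : ((∑ P ∈ D, P.natDegree : ℕ) : ℝ) ≤ (4 * (b0 : ℝ) + 6) * m := by
    rw [h1, Nat.cast_sum]
    refine (Finset.sum_le_sum h2).trans ?_
    rw [← Finset.mul_sum, sm6_series]
    have hm0 : (0 : ℝ) ≤ m := Nat.cast_nonneg _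
    have h7 : 0 ≤ (2 * (2 * (b0 : ℝ) + 1) + 4 + 4 * ((Nat.log 2 m + 1 : ℕ) : ℝ)) /
        2 ^ (Nat.log 2 m + 1) := by positivity
    nlinarith
  exact_mod_cast h3

theorem sm6_fact (k : ℕ) : 4 ^ k ≤ (2 * k + 1).factorial := by
  induction k with
  | zero => simp
  | succ k ih =>
    have e : 2 * (k + 1) + 1 = (2 * k + 1) + 1 + 1 := by ring
    rw [e, Nat.factorial_succ, Nat.factorial_succ, pow_succ]
    have h : 4 ≤ (2 * k + 1 + 1 + 1) * (2 * k + 1 + 1) := by nlinarith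
    calc 4 ^ k * 4 ≤ (2 * k + 1).factorial * ((2 * k + 1 + 1 + 1) * (2 * k + 1 + 1)) :=
          Nat.mul_le_mul ih h
      _ = (2 * k + 1 + 1 + 1) * ((2 * k + 1 + 1) * (2 * k + 1).factorial) := by ring

theorem lam_eps (b0 L : ℕ) :
    ∑ l ∈ range L, (8 : ℝ) / (2 * (b0 + l) + 1).factorial ≤ 11 / 4 ^ b0 := by
  have h1 : ∀ l ∈ range L, (8 : ℝ) / (2 * (b0 + l) + 1).factorial ≤
      (8 / 4 ^ b0) * (1 / 4 : ℝ) ^ l := by
    intro l _
    have h2 : ((4 : ℝ) ^ (b0 + l)) ≤ ((2 * (b0 + l) + 1).factorial : ℝ) := by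
      exact_mod_cast sm6_fact (b0 + l)
    calc (8 : ℝ) / (2 * (b0 + l) + 1).factorial ≤ 8 / 4 ^ (b0 + l) :=
          div_le_div_of_nonneg_left (by norm_num) (by positivity) h2
      _ = (8 / 4 ^ b0) * (1 / 4 : ℝ) ^ l := by
          rw [pow_add, one_div, inv_pow]
          field_simp
  refine (Finset.sum_le_sum h1).trans ?_
  rw [← Finset.mul_sum]
  have h3 : ∑ l ∈ range L, (1 / 4 : ℝ) ^ l ≤ 4 / 3 := by
    rw [geom_sum_eq (by norm_num)]
    have h4 : (0 : ℝ) ≤ (1 / 4 : ℝ) ^ L := by positivity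
    have h5 : ((1 / 4 : ℝ) ^ L - 1) / (1 / 4 - 1) = (1 - (1 / 4 : ℝ) ^ L) * (4 / 3) := by
      field_simp
      ring
    rw [h5]
    nlinarith
  have h6 : (0 : ℝ) < 4 ^ b0 := by positivity
  calc 8 / (4 : ℝ) ^ b0 * ∑ l ∈ range L, (1 / 4 : ℝ) ^ l ≤ 8 / 4 ^ b0 * (4 / 3) :=
        mul_le_mul_of_nonneg_left h3 (by positivity)
    _ ≤ 11 / 4 ^ b0 := by
        rw [div_mul_eq_mul_div, div_le_div_iff_of_pos_right h6]
        norm_num

end

end Pool.Agent.MP6cc1fa
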