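import Pool.Agent.Lib.MP_6cc1fa_pr.SM.Defs
import Pool.Agent.Lib.MP_6cc1fa_pr.Mon
import Pool.Agent.Lib.MP_6cc1fa_pr.S1

/-!
MP_6cc1fa_pr, second hand-in, module SM7: large smooth parts are rare (Rankin's bound).
-/

set_option autoImplicit false

namespace Pool.Agent.MP6cc1fa

open Polynomial Finset UniqueFactorizationMonoid

noncomputable section

variable {p : ℕ} [Fact p.Prime]

/-! ### Multiplicities -/

open Classical in
/-- The multiplicity of `P` in `f`. -/
def sm7_v (P f : (ZMod p)[X]) : ℕ := (normalizedFactors f).count P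

open Classical in
theorem sm7_v_mul {P g : (ZMod p)[X]} (hP : Irreducible P) (hm : P.Monic) (hg : g ≠ 0)
    (P' : (ZMod p)[X]) : sm7_v P' (P * g) = (if P' = P then 1 else 0) + sm7_v P' g := by
  unfold sm7_v
  rw [normalizedFactors_mul hP.ne_zero hg, Multiset.count_add, normalizedFactors_irreducible hP,
    hm.normalize_eq_self, Multiset.count_singleton]

open Classical in
theorem sm7_v_of_not_dvd {P f : (ZMod p)[X]} (h : ¬ P ∣ f) : sm7_v P f = 0 := by
  unfold sm7_v
  rw [Multiset.count_eq_zero]
  intro h1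
  exact h (dvd_of_mem_normalizedFactors h1)

/-! ### Sums over multiples of a prime -/

open Classical in
theorem sm7_sum_dvd {P : (ZMod p)[X]} (hm : P.Monic) (j : ℕ) (φ : (ZMod p)[X] → ℝ)
    (hφ : ∀ f, ¬ P ∣ f → φ f = 0) :
    ∑ f ∈ MD p j, φ f =
      if P.natDegree ≤ j then ∑ g ∈ MD p (j - P.natDegree), φ (P * g) else 0 := by
  split_ifs with hj
  · rw [← Finset.sum_filter_add_sum_filter_not (MD p j) (fun f => P ∣ f)]
    rw [Finset.sum_eq_zero (s := (MD p j).filter fun f => ¬ P ∣ f), add_zero]
    · symm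
      apply Finset.sum_bij (fun g _ => P * g)
      · intro g hg
        rw [mem_MD] at hg
        rw [mem_filter, mem_MD]
        refine ⟨⟨hm.mul hg.1, ?_⟩, dvd_mul_right _ _⟩
        rw [hm.natDegree_mul hg.1, hg.2]
        omega
      · intro a _ b _ hab
        exact mul_left_cancel₀ hm.ne_zero hab
      · intro f hf
        rw [mem_filter, mem_MD] at hf
        obtain ⟨⟨h1, h2⟩, g, rfl⟩ := hf
        have hg : g.Monic := hm.of_mul_monic_left h1
        refine ⟨g, ?_, rfl⟩
        rw [mem_MD]
        refine ⟨hg, ?_⟩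
        rw [hm.natDegree_mul hg] at h2
        omega
      · intro g _
        rfl
    · intro f hf
      exact hφ f (mem_filter.1 hf).2
  · apply Finset.sum_eq_zero
    intro f hf
    apply hφ
    intro hd
    rw [mem_MD] at hf
    have := Polynomial.natDegree_le_of_dvd hd hf.1.ne_zero
    omega

/-! ### The weighted sum -/

/-- The weight. -/
def sm7_w (u : (ZMod p)[X] → ℝ) (Q : Finset (ZMod p)[X]) (f : (ZMod p)[X]) : ℝ :=
  ∏ P ∈ Q, u P ^ sm7_v P f

theorem sm7_w_nonneg {u : (ZMod p)[X] → ℝ} {Q : Finset (ZMod p)[X]} (hu : ∀ P ∈ Q, 1 ≤ u P)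
    (f : (ZMod p)[X]) : 0 ≤ sm7_w u Q f :=
  Finset.prod_nonneg fun P hP => pow_nonneg (zero_le_one.trans (hu P hP)) _

open Classical in
theorem sm7_main (u : (ZMod p)[X] → ℝ) (Q : Finset (ZMod p)[X])
    (hQ : ∀ P ∈ Q, Irreducible P ∧ P.Monic ∧ 1 ≤ u P ∧ u P < (p : ℝ) ^ P.natDegree) :
    ∀ j, ∑ f ∈ MD p j, sm7_w u Q f ≤
      (∏ P ∈ Q, (1 + (u P - 1) / ((p : ℝ) ^ P.natDegree - u P))) * (p : ℝ) ^ j := by
  have hp0 : (0 : ℝ) < p := by exact_mod_cast (Fact.out : p.Prime).pos
  induction Q using Finset.induction_on with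
  | empty =>
    intro j
    simp only [sm7_w, Finset.prod_empty, Finset.sum_const, card_MD, nsmul_eq_mul, mul_one, one_mul]
    push_cast
    exact le_rfl
  | @insert P Q hPQ ih =>
    have hP := hQ P (mem_insert_self _ _)
    obtain ⟨hPi, hPm, hu1, hu2⟩ := hP
    have ih' := ih fun P' hP' => hQ P' (mem_insert_of_mem hP')
    have hu1' : ∀ P' ∈ Q, 1 ≤ u P' := fun P' hP' => (hQ P' (mem_insert_of_mem hP')).2.2.1
    set B : ℝ := ∏ P ∈ Q, (1 + (u P - 1) / ((p : ℝ) ^ P.natDegree - u P)) with hB
    set d := P.natDegree with hd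
    set c : ℝ := (u P - 1) / ((p : ℝ) ^ d - u P) with hc
    have hd0 : 0 < d := hPi.natDegree_pos
    have hpos : 0 < (p : ℝ) ^ d - u P := by linarith
    have hc0 : 0 ≤ c := div_nonneg (by linarith) hpos.le
    have hcmul : u P * c + (u P - 1) = c * (p : ℝ) ^ d := by
      have : c * ((p : ℝ) ^ d - u P) = u P - 1 := by
        rw [hc]
        field_simp
      linarith
    have hB0 : 0 ≤ B := by
      have := ih' 0
      have h2 : 0 ≤ ∑ f ∈ MD p 0, sm7_w u Q f :=
        Finset.sum_nonneg fun f _ => sm7_w_nonneg hu1' f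
      rw [pow_zero, mul_one] at this
      linarith
    -- the difference
    have hH : ∀ j, ∑ f ∈ MD p j, (u P ^ sm7_v P f - 1) * sm7_w u Q f ≤ c * B * (p : ℝ) ^ j := by
      intro j
      induction j using Nat.strong_induction_on with
      | _ j IH =>
        rw [sm7_sum_dvd hPm j (fun f => (u P ^ sm7_v P f - 1) * sm7_w u Q f)]
        · split_ifs with hj
          · have h1 : ∀ g ∈ MD p (j - d),
                (u P ^ sm7_v P (P * g) - 1) * sm7_w u Q (P * g) =
                  u P * ((u P ^ sm7_v P g - 1) * sm7_w u Q g) + (u P - 1) * sm7_w u Q g := by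
              intro g hg
              rw [mem_MD] at hg
              have hw : sm7_w u Q (P * g) = sm7_w u Q g := by
                unfold sm7_w
                apply Finset.prod_congr rfl
                intro P' hP'
                rw [sm7_v_mul hPi hPm hg.1.ne_zero, if_neg, zero_add]
                rintro rfl
                exact hPQ hP'
              rw [hw, sm7_v_mul hPi hPm hg.1.ne_zero, if_pos rfl, pow_add, pow_one]
              ring
            rw [Finset.sum_congr rfl h1, Finset.sum_add_distrib, ← Finset.mul_sum,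
              ← Finset.mul_sum]
            have h2 := IH (j - d) (by omega)
            have h3 := ih' (j - d)
            calc u P * ∑ g ∈ MD p (j - d), (u P ^ sm7_v P g - 1) * sm7_w u Q g +
                  (u P - 1) * ∑ g ∈ MD p (j - d), sm7_w u Q g
                ≤ u P * (c * B * (p : ℝ) ^ (j - d)) + (u P - 1) * (B * (p : ℝ) ^ (j - d)) := by
                  apply add_le_add
                  · exact mul_le_mul_of_nonneg_left h2 (by linarith)
                  · exact mul_le_mul_of_nonneg_left h3 (by linarith)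
              _ = (u P * c + (u P - 1)) * B * (p : ℝ) ^ (j - d) := by ring
              _ = c * B * ((p : ℝ) ^ d * (p : ℝ) ^ (j - d)) := by
                  rw [hcmul]
                  ring
              _ = c * B * (p : ℝ) ^ j := by
                  rw [← pow_add, Nat.add_sub_cancel' hj]
          · positivity
        · intro f hf
          rw [sm7_v_of_not_dvd hf, pow_zero, sub_self, zero_mul]
    intro j
    rw [Finset.prod_insert hPQ]
    have h1 : ∀ f ∈ MD p j, sm7_w u (insert P Q) f =
        (u P ^ sm7_v P f - 1) * sm7_w u Q f + sm7_w u Q f := by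
      intro f _
      unfold sm7_w
      rw [Finset.prod_insert hPQ]
      ring
    rw [Finset.sum_congr rfl h1, Finset.sum_add_distrib]
    have h2 := hH j
    have h3 := ih' j
    calc _ ≤ c * B * (p : ℝ) ^ j + B * (p : ℝ) ^ j := add_le_add h2 h3
      _ = (1 + c) * B * (p : ℝ) ^ j := by ring

/-! ### The degree of the smooth part -/

open Classical in
theorem sm7_mem_PP {m : ℕ} {P : (ZMod p)[X]} :
    P ∈ PP p m ↔ P.Monic ∧ Irreducible P ∧ P ≠ X ∧ P.natDegree ≤ m := by
  unfold PP
  rw [mem_filter, mem_biUnion]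
  constructor
  · rintro ⟨⟨d, hd, h⟩, hX⟩
    rw [mem_Irr] at h
    rw [mem_range] at hd
    exact ⟨h.1, h.2.2, hX, by omega⟩
  · rintro ⟨h1, h2, h3, h4⟩
    refine ⟨⟨P.natDegree, mem_range.2 (by omega), ?_⟩, h3⟩
    rw [mem_Irr]
    exact ⟨h1, rfl, h2⟩

open Classical in
theorem sm7_monic_of_mem {f P : (ZMod p)[X]} (h : P ∈ normalizedFactors f) : P.Monic := by
  have h1 := normalize_normalized_factor P h
  have h2 := (irreducible_of_normalized_factor P h).ne_zero
  rw [← h1]
  exact Polynomial.monic_normalize h2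

open Classical in
theorem sm7_natDegree_smo (m : ℕ) (f : (ZMod p)[X]) :
    (smo m f).natDegree = ∑ P ∈ PP p m, sm7_v P f * P.natDegree := by
  unfold smo
  rw [Polynomial.natDegree_multiset_prod_of_monic]
  · rw [Finset.sum_multiset_map_count]
    have hsub : (Multiset.filter (fun P => P ≠ X ∧ P.natDegree ≤ m)
        (normalizedFactors f)).toFinset ⊆ PP p m := by
      intro P hP
      rw [Multiset.mem_toFinset, Multiset.mem_filter] at hP
      rw [sm7_mem_PP]
      exact ⟨sm7_monic_of_mem hP.1, irreducible_of_normalized_factor P hP.1, hP.2⟩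
    rw [← Finset.sum_subset hsub]
    · apply Finset.sum_congr rfl
      intro P hP
      rw [Multiset.mem_toFinset, Multiset.mem_filter] at hP
      rw [Multiset.count_filter_of_pos (p := fun P : (ZMod p)[X] => P ≠ X ∧ P.natDegree ≤ m) hP.2,
        smul_eq_mul]
      unfold sm7_v
      congr!
    · intro P hP hP'
      rw [sm7_mem_PP] at hP
      rw [Multiset.mem_toFinset, Multiset.mem_filter] at hP'
      have : sm7_v P f = 0 := by
        unfold sm7_v
        rw [Multiset.count_eq_zero]
        intro h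
        exact hP' ⟨h, hP.2.2⟩
      rw [this, zero_mul]
  · intro P hP
    rw [Multiset.mem_filter] at hP
    exact sm7_monic_of_mem hP.1

/-! ### The exponential moment -/

/-- The weight of a prime. -/
def sm7_u (m : ℕ) (P : (ZMod p)[X]) : ℝ := Real.exp ((P.natDegree : ℝ) / (2 * m))

theorem sm7_w_eq (m : ℕ) (f : (ZMod p)[X]) :
    sm7_w (sm7_u m) (PP p m) f = Real.exp (((smo m f).natDegree : ℝ) / (2 * m)) := by
  rw [sm7_natDegree_smo]
  unfold sm7_w sm7_u
  push_cast
  rw [Finset.sum_div, Real.exp_sum]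
  apply Finset.prod_congr rfl
  intro P _
  rw [← Real.exp_nat_mul]
  congr 1
  ring

open Classical in
theorem sm7_sum_PP (m : ℕ) :
    ∑ P ∈ PP p m, (P.natDegree : ℝ) / (p : ℝ) ^ P.natDegree ≤ m := by
  have hp0 : (0 : ℝ) < p := by exact_mod_cast (Fact.out : p.Prime).pos
  calc ∑ P ∈ PP p m, (P.natDegree : ℝ) / (p : ℝ) ^ P.natDegree
      ≤ ∑ P ∈ (range (m + 1)).biUnion (Irr p), (P.natDegree : ℝ) / (p : ℝ) ^ P.natDegree := by
        apply Finset.sum_le_sum_of_subset_of_nonneg
        · unfold PP
          exact Finset.filter_subset _ _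
        · intro P _ _
          positivity
    _ = ∑ d ∈ range (m + 1), ∑ P ∈ Irr p d, (P.natDegree : ℝ) / (p : ℝ) ^ P.natDegree := by
        apply Finset.sum_biUnion
        intro d _ e _ hde
        rw [Function.onFun, Finset.disjoint_left]
        intro P h1 h2
        rw [mem_Irr] at h1 h2
        exact hde (h1.2.1.symm.trans h2.2.1)
    _ = ∑ d ∈ range (m + 1), (d : ℝ) * (Irr p d).card / (p : ℝ) ^ d := by
        apply Finset.sum_congr rfl
        intro d _
        rw [Finset.sum_congr rfl (g := fun _ => (d : ℝ) / (p : ℝ) ^ d)]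
        · rw [Finset.sum_const, nsmul_eq_mul]
          ring
        · intro P hP
          rw [mem_Irr] at hP
          rw [hP.2.1]
    _ ≤ ∑ d ∈ range (m + 1), (if d = 0 then (0 : ℝ) else 1) := by
        apply Finset.sum_le_sum
        intro d _
        split_ifs with h
        · rw [h]
          simp
        · rw [div_le_one (by positivity)]
          exact_mod_cast s1_card_Irr_le (p := p) d
    _ = m := by
        rw [Finset.sum_range_succ']
        simp

theorem sm7_exp_half : Real.exp (1 / 2) < 1.65 := by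
  have h1 : Real.exp (1 / 2) ^ 2 < 1.65 ^ 2 := by
    rw [← Real.exp_nat_mul]
    have := Real.exp_one_lt_d9
    norm_num
    linarith
  exact lt_of_pow_lt_pow_left₀ 2 (by norm_num) h1

theorem sm7_u_bounds {m : ℕ} (hm : 1 ≤ m) {P : (ZMod p)[X]} (hP : P.natDegree ≤ m) :
    1 ≤ sm7_u m P ∧ sm7_u m P < 1.65 ∧
      sm7_u m P - 1 ≤ 1.65 * ((P.natDegree : ℝ) / (2 * m)) := by
  have hm0 : (0 : ℝ) < m := by exact_mod_cast hm
  set x : ℝ := (P.natDegree : ℝ) / (2 * m) with hx
  have hx0 : 0 ≤ x := by positivity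
  have hx1 : x ≤ 1 / 2 := by
    rw [hx, div_le_div_iff₀ (by positivity) (by norm_num)]
    have : (P.natDegree : ℝ) ≤ m := by exact_mod_cast hP
    linarith
  have hu : sm7_u m P = Real.exp x := rfl
  have h1 : Real.exp x ≤ Real.exp (1 / 2) := Real.exp_le_exp.2 hx1
  have h2 := sm7_exp_half
  refine ⟨?_, ?_, ?_⟩
  · rw [hu]
    exact Real.one_le_exp hx0
  · rw [hu]
    linarith
  · rw [hu]
    have h3 : 1 - x ≤ Real.exp (-x) := by
      have := Real.add_one_le_exp (-x)
      linarith
    have h4 : Real.exp x * Real.exp (-x) = 1 := by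
      rw [← Real.exp_add, add_neg_cancel, Real.exp_zero]
    have h5 : Real.exp x - 1 ≤ x * Real.exp x := by
      have h6 : Real.exp x * (1 - x) ≤ Real.exp x * Real.exp (-x) :=
        mul_le_mul_of_nonneg_left h3 (Real.exp_pos x).le
      rw [h4] at h6
      linarith
    have h7 : x * Real.exp x ≤ x * 1.65 := mul_le_mul_of_nonneg_left (by linarith) hx0
    linarith

open Classical in
theorem sm7_moment {m : ℕ} (hm : 1 ≤ m) (n : ℕ) :
    ∑ f ∈ MD p n, Real.exp (((smo m f).natDegree : ℝ) / (2 * m)) ≤
      Real.exp 6 * (p : ℝ) ^ n := by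
  have hp0 : (0 : ℝ) < p := by exact_mod_cast (Fact.out : p.Prime).pos
  have hp2 : (2 : ℝ) ≤ p := by exact_mod_cast (Fact.out : p.Prime).two_le
  have hm0 : (0 : ℝ) < m := by exact_mod_cast hm
  have hpd : ∀ P ∈ PP p m, (2 : ℝ) ≤ (p : ℝ) ^ P.natDegree := by
    intro P hP
    rw [sm7_mem_PP] at hP
    have hd : 0 < P.natDegree := hP.2.1.natDegree_pos
    calc (2 : ℝ) ≤ (p : ℝ) ^ 1 := by rwa [pow_one]
      _ ≤ (p : ℝ) ^ P.natDegree := pow_le_pow_right₀ (by linarith) hd
  have h1 := sm7_main (p := p) (sm7_u m) (PP p m) (by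
    intro P hP
    have h2 := hpd P hP
    rw [sm7_mem_PP] at hP
    have h3 := sm7_u_bounds hm hP.2.2.2
    exact ⟨hP.2.1, hP.1, h3.1, by linarith⟩) n
  simp only [sm7_w_eq] at h1
  refine h1.trans ?_
  apply mul_le_mul_of_nonneg_right _ (by positivity)
  calc ∏ P ∈ PP p m, (1 + (sm7_u m P - 1) / ((p : ℝ) ^ P.natDegree - sm7_u m P))
      ≤ ∏ P ∈ PP p m, Real.exp ((6 / m) * ((P.natDegree : ℝ) / (p : ℝ) ^ P.natDegree)) := by
        apply Finset.prod_le_prod
        · intro P hP
          have h2 := hpd P hP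
          rw [sm7_mem_PP] at hP
          have h3 := sm7_u_bounds hm hP.2.2.2
          have : 0 ≤ (sm7_u m P - 1) / ((p : ℝ) ^ P.natDegree - sm7_u m P) :=
            div_nonneg (by linarith) (by linarith)
          linarith
        · intro P hP
          have h2 := hpd P hP
          rw [sm7_mem_PP] at hP
          obtain ⟨h3, h4, h5⟩ := sm7_u_bounds hm hP.2.2.2
          have h6 : (sm7_u m P - 1) / ((p : ℝ) ^ P.natDegree - sm7_u m P) ≤
              (6 / m) * ((P.natDegree : ℝ) / (p : ℝ) ^ P.natDegree) := by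
            set N : ℝ := (p : ℝ) ^ P.natDegree with hN
            set D : ℝ := (P.natDegree : ℝ) with hD
            have hD0 : 0 ≤ D := Nat.cast_nonneg _
            rw [div_le_iff₀ (by linarith)]
            have h7 : 0.175 * N ≤ N - sm7_u m P := by
              norm_num at h4 ⊢
              linarith
            have h8 : (6 / m) * (D / N) * (0.175 * N) ≤ (6 / m) * (D / N) * (N - sm7_u m P) :=
              mul_le_mul_of_nonneg_left h7 (by positivity)
            refine le_trans ?_ h8
            refine h5.trans ?_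
            have h9 : (6 / (m : ℝ)) * (D / N) * (0.175 * N) = 1.05 * (D / m) := by
              have : N ≠ 0 := by positivity
              field_simp
              ring
            have h10 : (1.65 : ℝ) * (D / (2 * m)) = 0.825 * (D / m) := by
              field_simp
              ring
            rw [h9, h10]
            apply mul_le_mul_of_nonneg_right (by norm_num)
            positivity
          have h11 := Real.add_one_le_exp ((6 / m) * ((P.natDegree : ℝ) / (p : ℝ) ^ P.natDegree))
          linarith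
    _ = Real.exp ((6 / m) * ∑ P ∈ PP p m, ((P.natDegree : ℝ) / (p : ℝ) ^ P.natDegree)) := by
        rw [Finset.mul_sum, Real.exp_sum]
    _ ≤ Real.exp 6 := by
        apply Real.exp_le_exp.2
        calc (6 / (m : ℝ)) * ∑ P ∈ PP p m, ((P.natDegree : ℝ) / (p : ℝ) ^ P.natDegree)
            ≤ (6 / m) * m := mul_le_mul_of_nonneg_left (sm7_sum_PP m) (by positivity)
          _ = 6 := by field_simp

open Classical in
theorem rankin {m : ℕ} (hm : 1 ≤ m) (n : ℕ) (t : ℝ) :
    (((MD p n).filter fun f => t < ((smo m f).natDegree : ℝ)).card : ℝ) ≤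
      Real.exp 6 * Real.exp (-t / (2 * m)) * (p : ℝ) ^ n := by
  have hm0 : (0 : ℝ) < m := by exact_mod_cast hm
  have h1 := sm7_moment (p := p) hm n
  calc (((MD p n).filter fun f => t < ((smo m f).natDegree : ℝ)).card : ℝ)
      = ∑ f ∈ (MD p n).filter (fun f => t < ((smo m f).natDegree : ℝ)), (1 : ℝ) := by simp
    _ ≤ ∑ f ∈ (MD p n).filter (fun f => t < ((smo m f).natDegree : ℝ)),
          Real.exp (-t / (2 * m)) * Real.exp (((smo m f).natDegree : ℝ) / (2 * m)) := by
        apply Finset.sum_le_sum
        intro f hf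
        rw [← Real.exp_add]
        apply Real.one_le_exp
        rw [← add_div]
        apply div_nonneg _ (by positivity)
        have := (mem_filter.1 hf).2
        linarith
    _ ≤ ∑ f ∈ MD p n,
          Real.exp (-t / (2 * m)) * Real.exp (((smo m f).natDegree : ℝ) / (2 * m)) := by
        apply Finset.sum_le_sum_of_subset_of_nonneg (Finset.filter_subset _ _)
        intro f _ _
        positivity
    _ = Real.exp (-t / (2 * m)) * ∑ f ∈ MD p n, Real.exp (((smo m f).natDegree : ℝ) / (2 * m)) := by
        rw [Finset.mul_sum]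
    _ ≤ Real.exp (-t / (2 * m)) * (Real.exp 6 * (p : ℝ) ^ n) :=
        mul_le_mul_of_nonneg_left h1 (Real.exp_pos _).le
    _ = Real.exp 6 * Real.exp (-t / (2 * m)) * (p : ℝ) ^ n := by ring

end

end Pool.Agent.MP6cc1fa
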