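import Pool.Agent.Lib.MP_6cc1fa_pr.SM.SM4
import Pool.Agent.Lib.MP_6cc1fa_pr.SM.SM5
import Pool.Agent.Lib.MP_6cc1fa_pr.SM.SM6
import Pool.Agent.Lib.MP_6cc1fa_pr.SM.SM7
import Pool.Agent.Lib.MP_6cc1fa_pr.Mon

/-! MP_6cc1fa_pr, part (A), module SM8: total variation of smooth parts (helper60). -/

set_option autoImplicit false

namespace Pool.Agent.MP6cc1fa

open Polynomial Finset UniqueFactorizationMonoid

noncomputable section

variable {p : ℕ} [Fact p.Prime]

/-! ### Smooth parts -/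

theorem sm8_mem_PP {m : ℕ} {P : (ZMod p)[X]} :
    P ∈ PP p m ↔ P.Monic ∧ Irreducible P ∧ P.natDegree ≤ m ∧ P ≠ X := by
  classical
  unfold PP
  rw [mem_filter, mem_biUnion]
  constructor
  · rintro ⟨⟨d, hd, hP⟩, hX⟩
    rw [mem_Irr] at hP
    exact ⟨hP.1, hP.2.2, by rw [hP.2.1]; have := mem_range.1 hd; omega, hX⟩
  · rintro ⟨h1, h2, h3, h4⟩
    exact ⟨⟨P.natDegree, mem_range.2 (by omega), (mem_Irr _ _).2 ⟨h1, rfl, h2⟩⟩, h4⟩

theorem sm8_PP_nonempty {m : ℕ} (hm : 1 ≤ m) : (PP p m).Nonempty := by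
  refine ⟨X - C 1, sm8_mem_PP.2 ⟨monic_X_sub_C 1, irreducible_X_sub_C 1, ?_, ?_⟩⟩
  · rw [natDegree_X_sub_C]; exact hm
  · intro h
    have h1 : (C 1 : (ZMod p)[X]) = 0 := by
      have := congrArg (fun f => X - f) h
      simpa using this
    rw [C_eq_zero] at h1
    exact one_ne_zero h1

theorem sm8_dvd {m : ℕ} {D : Finset (ZMod p)[X]} (hD : D ⊆ PP p m) (g : (ZMod p)[X]) :
    ∏ P ∈ D, P ∣ g ↔ ∀ P ∈ D, P ∣ g := by
  constructor
  · intro h P hP
    exact (dvd_prod_of_mem (fun P => P) hP).trans h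
  · intro h
    refine Finset.prod_dvd_of_coprime ?_ h
    intro P hP Q hQ hPQ
    obtain ⟨h1, h2, -, -⟩ := sm8_mem_PP.1 (hD hP)
    obtain ⟨h3, h4, -, -⟩ := sm8_mem_PP.1 (hD hQ)
    change IsCoprime P Q
    rw [h2.coprime_iff_not_dvd]
    intro hd
    exact hPQ (eq_of_monic_of_associated h1 h3 (h2.associated_of_dvd h4 hd))

theorem sm8_prod_monic {m : ℕ} {D : Finset (ZMod p)[X]} (hD : D ⊆ PP p m) :
    (∏ P ∈ D, P).Monic := monic_prod_of_monic _ _ fun P hP => (sm8_mem_PP.1 (hD hP)).1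

theorem sm8_natDegree_prod {m : ℕ} {D : Finset (ZMod p)[X]} (hD : D ⊆ PP p m) :
    (∏ P ∈ D, P).natDegree = ∑ P ∈ D, P.natDegree :=
  natDegree_prod_of_monic _ _ fun P hP => (sm8_mem_PP.1 (hD hP)).1

theorem sm8_coeff_zero {m : ℕ} {P : (ZMod p)[X]} (hP : P ∈ PP p m) : P.coeff 0 ≠ 0 := by
  obtain ⟨h1, h2, h3, h4⟩ := sm8_mem_PP.1 hP
  intro h
  have hX : X ∣ P := X_dvd_iff.2 h
  exact h4 (eq_of_monic_of_associated h1 monic_X
    (irreducible_X.associated_of_dvd h2 hX).symm)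

theorem sm8_prod_coeff_zero {m : ℕ} {D : Finset (ZMod p)[X]} (hD : D ⊆ PP p m) :
    (∏ P ∈ D, P).coeff 0 ≠ 0 := by
  rw [coeff_zero_prod]
  exact prod_ne_zero_iff.2 fun P hP => sm8_coeff_zero (hD hP)

open Classical in
theorem sm8_smo_def (m : ℕ) (f : (ZMod p)[X]) :
    smo m f = ((normalizedFactors f).filter fun P => P ≠ X ∧ P.natDegree ≤ m).prod := by
  unfold smo
  congr

open Classical in
theorem sm8_mem {m : ℕ} {f P : (ZMod p)[X]}
    (h : P ∈ (normalizedFactors f).filter fun P => P ≠ X ∧ P.natDegree ≤ m) : P ∈ PP p m := by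
  obtain ⟨h1, h2, h3⟩ := Multiset.mem_filter.1 h
  exact sm8_mem_PP.2 ⟨div_factor_monic h1, irreducible_of_normalized_factor P h1, h3, h2⟩

theorem sm8_smo_monic (m : ℕ) (f : (ZMod p)[X]) : (smo m f).Monic := by
  classical
  rw [sm8_smo_def]
  have h := monic_multiset_prod_of_monic ((normalizedFactors f).filter
    fun P => P ≠ X ∧ P.natDegree ≤ m) id fun P hP => (sm8_mem_PP.1 (sm8_mem (m := m) hP)).1
  simpa using h

theorem sm8_smo_dvd (m : ℕ) (f : (ZMod p)[X]) : smo m f ∣ f := by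
  classical
  by_cases hf : f = 0
  · rw [hf]; exact dvd_zero _
  rw [sm8_smo_def]
  exact (Multiset.prod_dvd_prod_of_le (Multiset.filter_le _ _)).trans (prod_normalizedFactors hf).dvd

open Classical in
theorem sm8_nf_smo (m : ℕ) (f : (ZMod p)[X]) : normalizedFactors (smo m f) =
    (normalizedFactors f).filter fun P => P ≠ X ∧ P.natDegree ≤ m := by
  rw [sm8_smo_def]
  have key : ∀ s : Multiset (ZMod p)[X], (∀ P ∈ s, P ∈ PP p m) → normalizedFactors s.prod = s := by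
    intro s
    induction s using Multiset.induction with
    | empty => intro _; simp
    | cons P s ih =>
      intro h
      obtain ⟨h1, h2, -, -⟩ := sm8_mem_PP.1 (h P (Multiset.mem_cons_self _ _))
      have hs : ∀ Q ∈ s, Q ∈ PP p m := fun Q hQ => h Q (Multiset.mem_cons_of_mem hQ)
      have hne : s.prod ≠ 0 :=
        (monic_multiset_prod_of_monic s id fun Q hQ => (sm8_mem_PP.1 (hs Q hQ)).1).ne_zero
          |> fun h => by simpa using h
      rw [Multiset.prod_cons, normalizedFactors_mul h2.ne_zero hne, ih hs,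
        normalizedFactors_irreducible h2, h1.normalize_eq_self, Multiset.singleton_add]
  exact key _ fun P hP => sm8_mem hP

theorem sm8_smo_smo (m : ℕ) (f : (ZMod p)[X]) : smo m (smo m f) = smo m f := by
  classical
  rw [sm8_smo_def m (smo m f), sm8_nf_smo, Multiset.filter_filter]
  rw [sm8_smo_def]
  congr 1
  refine Multiset.filter_congr fun P _ => ?_
  tauto

theorem sm8_smo_coeff_zero (m : ℕ) (f : (ZMod p)[X]) : (smo m f).coeff 0 ≠ 0 := by
  classical
  intro h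
  have hX : X ∣ smo m f := X_dvd_iff.2 h
  have h1 : (X : (ZMod p)[X]) ∈ normalizedFactors (smo m f) := by
    obtain ⟨q, hq, hq2⟩ := exists_mem_normalizedFactors_of_dvd (sm8_smo_monic m f).ne_zero
      irreducible_X hX
    have := eq_of_monic_of_associated monic_X (div_factor_monic hq) hq2
    rwa [this]
  rw [sm8_nf_smo] at h1
  exact (Multiset.mem_filter.1 h1).2.1 rfl

theorem sm8_smo_mul {m : ℕ} {A g : (ZMod p)[X]} (hA : A.Monic) (hs : smo m A = A) (hg : g ≠ 0) :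
    smo m (A * g) = A * smo m g := by
  classical
  rw [sm8_smo_def m (A * g), normalizedFactors_mul hA.ne_zero hg, Multiset.filter_add,
    Multiset.prod_add, ← sm8_smo_def, ← sm8_smo_def, hs]

theorem sm8_smo_eq_one {m : ℕ} {g : (ZMod p)[X]} (hg : g ≠ 0) :
    smo m g = 1 ↔ ∀ P ∈ PP p m, ¬ P ∣ g := by
  classical
  constructor
  · intro h P hP hd
    obtain ⟨h1, h2, h3, h4⟩ := sm8_mem_PP.1 hP
    obtain ⟨q, hq, hq2⟩ := exists_mem_normalizedFactors_of_dvd hg h2 hd
    have hPq := eq_of_monic_of_associated h1 (div_factor_monic hq) hq2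
    have h5 : P ∈ (normalizedFactors g).filter fun P => P ≠ X ∧ P.natDegree ≤ m := by
      rw [Multiset.mem_filter]
      exact ⟨by rw [hPq]; exact hq, h4, h3⟩
    have h6 := Multiset.dvd_prod h5
    rw [← sm8_smo_def, h] at h6
    exact h2.not_isUnit (isUnit_of_dvd_one h6)
  · intro h
    rw [sm8_smo_def]
    have : (normalizedFactors g).filter (fun P => P ≠ X ∧ P.natDegree ≤ m) = 0 := by
      refine Multiset.eq_zero_of_forall_notMem fun P hP => ?_
      exact h P (sm8_mem hP) (dvd_of_mem_normalizedFactors (Multiset.mem_filter.1 hP).1)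
    rw [this, Multiset.prod_zero]

theorem sm8_smo_eq_iff {m : ℕ} {A g : (ZMod p)[X]} (hA : A.Monic) (hs : smo m A = A) (hg : g ≠ 0) :
    smo m (A * g) = A ↔ ∀ P ∈ PP p m, ¬ P ∣ g := by
  rw [sm8_smo_mul hA hs hg, ← sm8_smo_eq_one hg]
  constructor
  · intro h
    have : A * smo m g = A * 1 := by rw [h, mul_one]
    exact mul_left_cancel₀ hA.ne_zero this
  · intro h
    rw [h, mul_one]

/-! ### The sieve -/

open Classical in
theorem sm8_sum_lam {m : ℕ} {A g : (ZMod p)[X]} (hA : A.Monic) (lam : Finset (ZMod p)[X] → ℝ) :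
    (∑ D ∈ (PP p m).powerset, if A * ∏ P ∈ D, P ∣ A * g then lam D else 0) =
      ∑ D ∈ ((PP p m).filter fun P => P ∣ g).powerset, lam D := by
  rw [← sum_filter]
  refine sum_congr ?_ fun _ _ => rfl
  ext D
  rw [mem_filter, mem_powerset, mem_powerset, mul_dvd_mul_iff_left hA.ne_zero]
  constructor
  · rintro ⟨h1, h2⟩ P hP
    exact mem_filter.2 ⟨h1 hP, (sm8_dvd h1 g).1 h2 P hP⟩
  · intro h
    have h1 : D ⊆ PP p m := fun P hP => (mem_filter.1 (h hP)).1
    exact ⟨h1, (sm8_dvd h1 g).2 fun P hP => (mem_filter.1 (h hP)).2⟩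

open Classical in
theorem sm8_lower {m : ℕ} (hm : 1 ≤ m) (b : ℕ → ℕ) {A : (ZMod p)[X]} (hA : A.Monic)
    (hs : smo m A = A) (f : (ZMod p)[X]) :
    (∑ D ∈ (PP p m).powerset, if A * ∏ P ∈ D, P ∣ f then
      lamM (dcl m) b (Nat.log 2 m + 1) D else 0) ≤ if smo m f = A then 1 else 0 := by
  by_cases hd : A ∣ f
  · obtain ⟨g, rfl⟩ := hd
    rw [sm8_sum_lam hA]
    refine (lamM_le (dcl m) b (Nat.log 2 m + 1) _ fun P hP =>
      dcl_lt (mem_filter.1 hP).1).trans ?_
    by_cases hg : g = 0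
    · have : (PP p m).filter (fun P => P ∣ g) ≠ ∅ := by
        rw [hg, filter_true_of_mem fun P _ => dvd_zero P]
        exact (sm8_PP_nonempty hm).ne_empty
      rw [if_neg this]
      split_ifs <;> norm_num
    · by_cases he : (PP p m).filter (fun P => P ∣ g) = ∅
      · rw [if_pos he, if_pos]
        rw [sm8_smo_eq_iff hA hs hg]
        exact fun P hP => (filter_eq_empty_iff.1 he) hP
      · rw [if_neg he]
        split_ifs <;> norm_num
  · have h0 : (∑ D ∈ (PP p m).powerset, if A * ∏ P ∈ D, P ∣ f then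
      lamM (dcl m) b (Nat.log 2 m + 1) D else 0) = 0 := by
      refine sum_eq_zero fun D _ => if_neg fun h => hd ((dvd_mul_right _ _).trans h)
    rw [h0]
    split_ifs <;> norm_num

open Classical in
theorem sm8_upper {m : ℕ} (b : ℕ → ℕ) {A : (ZMod p)[X]} (hA : A.Monic)
    (hs : smo m A = A) {f : (ZMod p)[X]} (hf : f ≠ 0) :
    (if smo m f = A then (1 : ℝ) else 0) ≤
    (∑ D ∈ (PP p m).powerset, if A * ∏ P ∈ D, P ∣ f then
      lamP (dcl m) b (Nat.log 2 m + 1) D else 0) := by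
  by_cases hd : A ∣ f
  · obtain ⟨g, rfl⟩ := hd
    have hg : g ≠ 0 := right_ne_zero_of_mul hf
    rw [sm8_sum_lam hA]
    refine le_trans (le_of_eq ?_) (lamP_ge (dcl m) b (Nat.log 2 m + 1) _ fun P hP =>
      dcl_lt (mem_filter.1 hP).1)
    have : smo m (A * g) = A ↔ (PP p m).filter (fun P => P ∣ g) = ∅ := by
      rw [sm8_smo_eq_iff hA hs hg, filter_eq_empty_iff]
    simp only [this]
  · have h0 : (∑ D ∈ (PP p m).powerset, if A * ∏ P ∈ D, P ∣ f then
      lamP (dcl m) b (Nat.log 2 m + 1) D else 0) = 0 := by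
      refine sum_eq_zero fun D _ => if_neg fun h => hd ((dvd_mul_right _ _).trans h)
    rw [h0, if_neg]
    rintro rfl
    exact hd (sm8_smo_dvd m f)

/-! ### One smooth part -/

open Classical in
/-- The law of the smooth part of the random polynomial. -/
theorem sm8_lower_law (μ : ZMod p → ℝ) (h0 : ∀ x, 0 ≤ μ x) {m N : ℕ} (hm : 1 ≤ m) (b : ℕ → ℕ)
    {A : (ZMod p)[X]} (hA : A.Monic) (hs : smo m A = A) :
    ∑ D ∈ (PP p m).powerset, lamM (dcl m) b (Nat.log 2 m + 1) D *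
        prD μ N (A * ∏ P ∈ D, P) ≤
      ∑ a : Fin N → ZMod p, if smo m (pol a) = A then ∏ i, μ (a i) else 0 := by
  have h1 : ∑ D ∈ (PP p m).powerset, lamM (dcl m) b (Nat.log 2 m + 1) D *
        prD μ N (A * ∏ P ∈ D, P) =
      ∑ a : Fin N → ZMod p, (∏ i, μ (a i)) * ∑ D ∈ (PP p m).powerset,
        if A * ∏ P ∈ D, P ∣ pol a then lamM (dcl m) b (Nat.log 2 m + 1) D else 0 := by
    simp only [prD, mul_sum]
    rw [sum_comm]
    refine sum_congr rfl fun a _ => sum_congr rfl fun D _ => ?_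
    split_ifs
    · ring
    · ring
  rw [h1]
  refine sum_le_sum fun a _ => ?_
  have hw : 0 ≤ ∏ i, μ (a i) := prod_nonneg fun i _ => h0 _
  refine (mul_le_mul_of_nonneg_left (sm8_lower hm b hA hs (pol a)) hw).trans (le_of_eq ?_)
  split_ifs <;> simp

open Classical in
theorem sm8_card_mult {B : (ZMod p)[X]} (hB : B.Monic) {n : ℕ} (h : B.natDegree ≤ n) :
    ((MD p n).filter fun f => B ∣ f).card = p ^ (n - B.natDegree) := by
  have : (MD p n).filter (fun f => B ∣ f) = (MD p (n - B.natDegree)).image fun g => B * g := by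
    ext f
    rw [mem_filter, mem_image, mem_MD]
    constructor
    · rintro ⟨⟨h1, h2⟩, g, rfl⟩
      have hg : g.Monic := hB.of_mul_monic_left h1
      refine ⟨g, (mem_MD _ _).2 ⟨hg, ?_⟩, rfl⟩
      rw [hB.natDegree_mul hg] at h2
      omega
    · rintro ⟨g, hg, rfl⟩
      obtain ⟨h1, h2⟩ := (mem_MD _ _).1 hg
      refine ⟨⟨hB.mul h1, ?_⟩, dvd_mul_right _ _⟩
      rw [hB.natDegree_mul h1, h2]
      omega
  rw [this, card_image_of_injective _ fun g g' h => mul_left_cancel₀ hB.ne_zero h, card_MD]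

theorem sm8_lamP_lamM {ι : Type} [DecidableEq ι] {cls : ι → ℕ} {b : ℕ → ℕ} {L : ℕ}
    {D : Finset ι} (h : lamP cls b L D ≠ 0) : lamM cls b L D ≠ 0 := by
  classical
  unfold lamP at h
  unfold lamM
  split_ifs at h with h1
  · rw [if_pos (Or.inl h1)]
    exact h
  · exact absurd rfl h

theorem sm8_lamM_abs {ι : Type} [DecidableEq ι] {cls : ι → ℕ} {b : ℕ → ℕ} {L : ℕ}
    {D : Finset ι} : |lamM cls b L D| ≤ 1 := by
  classical
  unfold lamM
  split_ifs
  · rw [abs_pow, abs_neg, abs_one, one_pow]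
  · simp

open Classical in
/-- The law of the smooth part of the uniform monic polynomial. -/
theorem sm8_upper_law {m n t b0 : ℕ} (hm : 1 ≤ m) (hn : t + (4 * b0 + 6) * m ≤ n)
    {A : (ZMod p)[X]} (hA : A.Monic) (hs : smo m A = A) (hAt : A.natDegree ≤ t) :
    (∑ f ∈ MD p n, if smo m f = A then (1 : ℝ) else 0) ≤ (p : ℝ) ^ n *
      (1 / (p : ℝ) ^ A.natDegree * ∑ D ∈ (PP p m).powerset,
        lamP (dcl m) (fun l => b0 + l) (Nat.log 2 m + 1) D * ∏ P ∈ D, 1 / (p : ℝ) ^ P.natDegree) := by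
  have hp := sm4_p_pos (p := p)
  have h1 : (∑ f ∈ MD p n, if smo m f = A then (1 : ℝ) else 0) ≤
      ∑ f ∈ MD p n, ∑ D ∈ (PP p m).powerset, if A * ∏ P ∈ D, P ∣ f then
        lamP (dcl m) (fun l => b0 + l) (Nat.log 2 m + 1) D else 0 :=
    sum_le_sum fun f hf => sm8_upper _ hA hs ((mem_MD _ _).1 hf).1.ne_zero
  refine h1.trans (le_of_eq ?_)
  rw [sum_comm, mul_sum, mul_sum]
  refine sum_congr rfl fun D hD => ?_
  have hD' := mem_powerset.1 hD
  rw [← sum_filter, sum_const, nsmul_eq_mul]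
  by_cases hz : lamP (dcl m) (fun l => b0 + l) (Nat.log 2 m + 1) D = 0
  · rw [hz]; ring
  · have hlev := lam_level hm hD' (sm8_lamP_lamM hz)
    have hdeg : (A * ∏ P ∈ D, P).natDegree = A.natDegree + ∑ P ∈ D, P.natDegree := by
      rw [hA.natDegree_mul (sm8_prod_monic hD'), sm8_natDegree_prod hD']
    rw [sm8_card_mult (hA.mul (sm8_prod_monic hD')) (by omega), hdeg]
    push_cast
    rw [prod_div_distrib, prod_const_one, prod_pow_eq_pow_sum, pow_sub₀ _ hp.ne' (by omega),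
      pow_add]
    field_simp

/-! ### The errors -/

open Classical in
/-- `m`-smooth polynomials of degree at most `t`. -/
def GG (p : ℕ) [Fact p.Prime] (m t : ℕ) : Finset (ZMod p)[X] :=
  ((range (t + 1)).biUnion (MD p)).filter fun A => smo m A = A

theorem sm8_mem_GG {m t : ℕ} {A : (ZMod p)[X]} :
    A ∈ GG p m t ↔ A.Monic ∧ A.natDegree ≤ t ∧ smo m A = A := by
  classical
  unfold GG
  rw [mem_filter, mem_biUnion]
  constructor
  · rintro ⟨⟨d, hd, h⟩, h'⟩
    rw [mem_MD] at h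
    have := mem_range.1 hd
    exact ⟨h.1, by omega, h'⟩
  · rintro ⟨h1, h2, h3⟩
    exact ⟨⟨A.natDegree, mem_range.2 (by omega), (mem_MD _ _).2 ⟨h1, rfl⟩⟩, h3⟩

open Classical in
theorem sm8_errors (μ : ZMod p → ℝ) {N m t b0 : ℕ} (hm : 1 ≤ m) :
    ∑ A ∈ GG p m t, ∑ D ∈ (PP p m).powerset.filter
        (fun D => lamM (dcl m) (fun l => b0 + l) (Nat.log 2 m + 1) D ≠ 0),
          err μ N (A * ∏ P ∈ D, P) ≤
      ∑ b ∈ range (t + (4 * b0 + 6) * m + 1), ∑ B ∈ (MD p b).filter (fun B => B.coeff 0 ≠ 0),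
        (tau B : ℝ) * err μ N B := by
  set S := (PP p m).powerset.filter
        (fun D => lamM (dcl m) (fun l => b0 + l) (Nat.log 2 m + 1) D ≠ 0) with hS
  set U : Finset (ZMod p)[X] := ((range (t + (4 * b0 + 6) * m + 1)).biUnion fun b =>
    (MD p b).filter (fun B => B.coeff 0 ≠ 0)) with hU
  have hdisj : ((range (t + (4 * b0 + 6) * m + 1) : Finset ℕ) : Set ℕ).PairwiseDisjoint fun b =>
      (MD p b).filter (fun B => B.coeff 0 ≠ 0) := by
    intro b _ b' _ hbb'
    rw [Function.onFun, Finset.disjoint_left]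
    intro B hB hB'
    have h1 := ((mem_MD _ _).1 (mem_filter.1 hB).1).2
    have h2 := ((mem_MD _ _).1 (mem_filter.1 hB').1).2
    exact hbb' (h1.symm.trans h2)
  rw [← sum_biUnion hdisj, ← hU, ← sum_product']
  have hmaps : ∀ x ∈ GG p m t ×ˢ S, x.1 * ∏ P ∈ x.2, P ∈ U := by
    rintro ⟨A, D⟩ hx
    obtain ⟨hA, hD⟩ := mem_product.1 hx
    obtain ⟨hA1, hA2, hA3⟩ := sm8_mem_GG.1 hA
    obtain ⟨hD1, hD2⟩ := mem_filter.1 hD
    have hD' := mem_powerset.1 hD1
    have hlev := lam_level hm hD' hD2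
    change A * ∏ P ∈ D, P ∈ U
    change A.natDegree ≤ t at hA2
    change smo m A = A at hA3
    change ∑ P ∈ D, P.natDegree ≤ _ at hlev
    have hdeg : (A * ∏ P ∈ D, P).natDegree = A.natDegree + ∑ P ∈ D, P.natDegree := by
      rw [hA1.natDegree_mul (sm8_prod_monic hD'), sm8_natDegree_prod hD']
    refine mem_biUnion.2 ⟨(A * ∏ P ∈ D, P).natDegree, mem_range.2 (by rw [hdeg]; omega),
      mem_filter.2 ⟨(mem_MD _ _).2 ⟨hA1.mul (sm8_prod_monic hD'), rfl⟩, ?_⟩⟩
    rw [mul_coeff_zero]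
    refine mul_ne_zero ?_ (sm8_prod_coeff_zero hD')
    rw [← hA3]
    exact sm8_smo_coeff_zero m A
  rw [← sum_fiberwise_of_maps_to hmaps]
  refine sum_le_sum fun B hB => ?_
  have hBm : B.Monic := by
    obtain ⟨b, -, hb⟩ := mem_biUnion.1 hB
    exact ((mem_MD _ _).1 (mem_filter.1 hb).1).1
  rw [sum_congr rfl (g := fun _ => err μ N B) (fun x hx => by rw [(mem_filter.1 hx).2]),
    sum_const, nsmul_eq_mul]
  refine mul_le_mul_of_nonneg_right ?_ (abs_nonneg _)
  norm_cast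
  unfold tau
  refine card_le_card_of_injOn (fun x => x.1) ?_ ?_
  · rintro ⟨A, D⟩ hx
    obtain ⟨hx1, hx2⟩ := mem_filter.1 hx
    obtain ⟨hA, hD⟩ := mem_product.1 hx1
    obtain ⟨hA1, hA2, hA3⟩ := sm8_mem_GG.1 hA
    have hdvd : A ∣ B := ⟨_, hx2.symm⟩
    change A ∈ (((range (B.natDegree + 1)).biUnion (MD p)).filter fun h => h ∣ B : Finset _)
    rw [mem_filter, mem_biUnion, div_mem_tau]
    exact ⟨hA1, natDegree_le_of_dvd hdvd hBm.ne_zero, hdvd⟩
  · rintro ⟨A, D⟩ hx ⟨A', D'⟩ hx' hAA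
    obtain ⟨hx1, hx2⟩ := mem_filter.1 (mem_coe.1 hx)
    obtain ⟨hx1', hx2'⟩ := mem_filter.1 (mem_coe.1 hx')
    obtain ⟨hA, hD⟩ := mem_product.1 hx1
    obtain ⟨hA', hD'⟩ := mem_product.1 hx1'
    have hAA' : A = A' := hAA
    subst hAA'
    obtain ⟨hA1, hA2, hA3⟩ := sm8_mem_GG.1 hA
    have hDP := mem_powerset.1 (mem_filter.1 hD).1
    have hDP' := mem_powerset.1 (mem_filter.1 hD').1
    have hprod : ∏ P ∈ D, P = ∏ P ∈ D', P := by
      have h1 : A * ∏ P ∈ D, P = A * ∏ P ∈ D', P := hx2.trans hx2'.symm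
      exact mul_left_cancel₀ hA1.ne_zero h1
    have hsub : ∀ D₁ D₂ : Finset (ZMod p)[X], D₁ ⊆ PP p m → D₂ ⊆ PP p m →
        ∏ P ∈ D₁, P = ∏ P ∈ D₂, P → D₁ ⊆ D₂ := by
      intro D₁ D₂ h1 h2 h12 P hP
      obtain ⟨hPm, hPi, -, -⟩ := sm8_mem_PP.1 (h1 hP)
      have hd : P ∣ ∏ Q ∈ D₂, Q := by rw [← h12]; exact dvd_prod_of_mem (fun P => P) hP
      obtain ⟨Q, hQ, hPQ⟩ := (hPi.prime.dvd_finsetProd_iff _).1 hd
      obtain ⟨hQm, hQi, -, -⟩ := sm8_mem_PP.1 (h2 hQ)
      rwa [eq_of_monic_of_associated hPm hQm (hPi.associated_of_dvd hQi hPQ)]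
    rw [Prod.mk.injEq]
    exact ⟨rfl, (hsub D D' hDP hDP' hprod).antisymm (hsub D' D hDP' hDP hprod.symm)⟩

/-! ### Assembly -/

open Classical in
/-- The bound for one smooth part. -/
theorem sm8_one (μ : ZMod p → ℝ) (h0 : ∀ x, 0 ≤ μ x) {n m t b0 : ℕ} (hm : 1 ≤ m)
    (hn : t + (4 * b0 + 6) * m ≤ n) {A : (ZMod p)[X]} (hA : A ∈ GG p m t) :
    (1 - 11 / 4 ^ b0) * ((∑ f ∈ MD p n, if smo m f = A then (1 : ℝ) else 0) / (p : ℝ) ^ n) -
      ∑ D ∈ (PP p m).powerset.filter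
        (fun D => lamM (dcl m) (fun l => b0 + l) (Nat.log 2 m + 1) D ≠ 0),
          err μ (n + 1) (A * ∏ P ∈ D, P) ≤
      ∑ a : Fin (n + 1) → ZMod p, if smo m (pol a) = A then ∏ i, μ (a i) else 0 := by
  have hp := sm4_p_pos (p := p)
  have hp2 := sm4_p_two (p := p)
  obtain ⟨hA1, hA2, hA3⟩ := sm8_mem_GG.1 hA
  set E := ∑ D ∈ (PP p m).powerset.filter
        (fun D => lamM (dcl m) (fun l => b0 + l) (Nat.log 2 m + 1) D ≠ 0),
          err μ (n + 1) (A * ∏ P ∈ D, P) with hE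
  set q' := (∑ f ∈ MD p n, if smo m f = A then (1 : ℝ) else 0) / (p : ℝ) ^ n with hq'
  have hE0 : 0 ≤ E := sum_nonneg fun D _ => abs_nonneg _
  have hq'0 : 0 ≤ q' := div_nonneg (sum_nonneg fun f _ => by split_ifs <;> norm_num)
    (by positivity)
  rcases le_total (1 - 11 / 4 ^ b0 : ℝ) 0 with hneg | hpos
  · have h1 : 0 ≤ ∑ a : Fin (n + 1) → ZMod p, if smo m (pol a) = A then ∏ i, μ (a i) else 0 := by
      refine sum_nonneg fun a _ => ?_
      split_ifs
      · exact prod_nonneg fun i _ => h0 _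
      · exact le_rfl
    have h2 := mul_nonpos_of_nonpos_of_nonneg hneg hq'0
    linarith
  · set Mp := ∑ D ∈ (PP p m).powerset, lamP (dcl m) (fun l => b0 + l) (Nat.log 2 m + 1) D *
      ∏ P ∈ D, 1 / (p : ℝ) ^ P.natDegree with hMp
    set Mm := ∑ D ∈ (PP p m).powerset, lamM (dcl m) (fun l => b0 + l) (Nat.log 2 m + 1) D *
      ∏ P ∈ D, 1 / (p : ℝ) ^ P.natDegree with hMm
    obtain ⟨hMp0, hMain⟩ := lam_main (dcl m) (fun l => b0 + l) (Nat.log 2 m + 1) (PP p m)
      (fun P hP => dcl_lt hP) (fun P => 1 / (p : ℝ) ^ P.natDegree)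
      (fun P _ => by positivity) (fun P hP => by
        obtain ⟨-, h2, -, -⟩ := sm8_mem_PP.1 hP
        have hd := h2.natDegree_pos
        rw [one_div, one_div]
        refine inv_anti₀ (by norm_num) ?_
        calc (2 : ℝ) ≤ p := hp2
          _ = (p : ℝ) ^ 1 := (pow_one _).symm
          _ ≤ (p : ℝ) ^ P.natDegree := pow_le_pow_right₀ (by linarith) hd)
      (fun l _ => dcl_sum l)
    rw [← hMp] at hMp0
    rw [← hMp, ← hMm] at hMain
    have hup := sm8_upper_law (b0 := b0) hm hn hA1 hA3 hA2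
    rw [← hMp] at hup
    have hq'up : q' ≤ 1 / (p : ℝ) ^ A.natDegree * Mp := by
      rw [hq', div_le_iff₀ (by positivity)]
      linarith
    have heps : (∑ l ∈ range (Nat.log 2 m + 1), (8 : ℝ) / (2 * (b0 + l) + 1).factorial) ≤
        11 / 4 ^ b0 := lam_eps b0 _
    have h1 : (1 - 11 / 4 ^ b0) * q' ≤ 1 / (p : ℝ) ^ A.natDegree * Mm := by
      calc (1 - 11 / 4 ^ b0) * q' ≤ (1 - 11 / 4 ^ b0) * (1 / (p : ℝ) ^ A.natDegree * Mp) :=
            mul_le_mul_of_nonneg_left hq'up hpos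
        _ = 1 / (p : ℝ) ^ A.natDegree * ((1 - 11 / 4 ^ b0) * Mp) := by ring
        _ ≤ 1 / (p : ℝ) ^ A.natDegree * Mm := by
            refine mul_le_mul_of_nonneg_left (le_trans ?_ hMain) (by positivity)
            refine mul_le_mul_of_nonneg_right ?_ hMp0
            linarith
    have h2 := sm8_lower_law μ h0 (N := n + 1) hm (fun l => b0 + l) hA1 hA3
    have h3 : 1 / (p : ℝ) ^ A.natDegree * Mm - E ≤
        ∑ D ∈ (PP p m).powerset, lamM (dcl m) (fun l => b0 + l) (Nat.log 2 m + 1) D *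
          prD μ (n + 1) (A * ∏ P ∈ D, P) := by
      rw [hE, hMm, mul_sum, sum_filter, ← sum_sub_distrib]
      refine sum_le_sum fun D hD => ?_
      have hD' := mem_powerset.1 hD
      by_cases hz : lamM (dcl m) (fun l => b0 + l) (Nat.log 2 m + 1) D = 0
      · rw [hz]; simp
      · rw [if_pos hz]
        have hdeg : (A * ∏ P ∈ D, P).natDegree = A.natDegree + ∑ P ∈ D, P.natDegree := by
          rw [hA1.natDegree_mul (sm8_prod_monic hD'), sm8_natDegree_prod hD']
        have hg : 1 / (p : ℝ) ^ A.natDegree * (lamM (dcl m) (fun l => b0 + l) (Nat.log 2 m + 1) D *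
            ∏ P ∈ D, 1 / (p : ℝ) ^ P.natDegree) =
            lamM (dcl m) (fun l => b0 + l) (Nat.log 2 m + 1) D *
              (1 / (p : ℝ) ^ (A * ∏ P ∈ D, P).natDegree) := by
          rw [hdeg, prod_div_distrib, prod_const_one, prod_pow_eq_pow_sum, pow_add]
          field_simp
        rw [hg]
        have he : lamM (dcl m) (fun l => b0 + l) (Nat.log 2 m + 1) D *
            (1 / (p : ℝ) ^ (A * ∏ P ∈ D, P).natDegree - prD μ (n + 1) (A * ∏ P ∈ D, P)) ≤
            err μ (n + 1) (A * ∏ P ∈ D, P) := by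
          refine (le_abs_self _).trans ?_
          rw [abs_mul, abs_sub_comm]
          have h5 := sm8_lamM_abs (cls := dcl m) (b := fun l => b0 + l) (L := Nat.log 2 m + 1)
            (D := D)
          have h6 : 0 ≤ err μ (n + 1) (A * ∏ P ∈ D, P) := abs_nonneg _
          calc _ ≤ 1 * err μ (n + 1) (A * ∏ P ∈ D, P) := mul_le_mul_of_nonneg_right h5 h6
            _ = _ := one_mul _
        linarith
    linarith

open Classical in
/-- One-sided comparison of the laws of the smooth parts. -/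
theorem sm8_side (μ : ZMod p → ℝ) (h0 : ∀ x, 0 ≤ μ x) {n m t b0 : ℕ} (hm : 1 ≤ m)
    (hn : t + (4 * b0 + 6) * m ≤ n) (T : Set (ZMod p)[X]) :
    (∑ f ∈ MD p n, if smo m f ∈ T then (1 : ℝ) else 0) / (p : ℝ) ^ n -
      (11 / 4 ^ b0 + Real.exp 6 * Real.exp (-t / (2 * m)) +
        ∑ b ∈ range (t + (4 * b0 + 6) * m + 1), ∑ B ∈ (MD p b).filter (fun B => B.coeff 0 ≠ 0),
          (tau B : ℝ) * err μ (n + 1) B) ≤
      ∑ a : Fin (n + 1) → ZMod p, if smo m (pol a) ∈ T then ∏ i, μ (a i) else 0 := by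
  have hp := sm4_p_pos (p := p)
  set q : (ZMod p)[X] → ℝ := fun A =>
    ∑ a : Fin (n + 1) → ZMod p, if smo m (pol a) = A then ∏ i, μ (a i) else 0 with hq
  set q' : (ZMod p)[X] → ℝ := fun A =>
    (∑ f ∈ MD p n, if smo m f = A then (1 : ℝ) else 0) / (p : ℝ) ^ n with hq'
  set E : (ZMod p)[X] → ℝ := fun A => ∑ D ∈ (PP p m).powerset.filter
        (fun D => lamM (dcl m) (fun l => b0 + l) (Nat.log 2 m + 1) D ≠ 0),
          err μ (n + 1) (A * ∏ P ∈ D, P) with hE
  have hq'0 : ∀ A, 0 ≤ q' A := fun A => div_nonneg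
    (sum_nonneg fun f _ => by split_ifs <;> norm_num) (by positivity)
  have hE0 : ∀ A, 0 ≤ E A := fun A => sum_nonneg fun D _ => abs_nonneg _
  set G := (GG p m t).filter fun A => A ∈ T with hG
  -- (1) the law of the random polynomial
  have h1 : ∑ A ∈ G, q A ≤
      ∑ a : Fin (n + 1) → ZMod p, if smo m (pol a) ∈ T then ∏ i, μ (a i) else 0 := by
    rw [hq]
    simp only
    rw [sum_comm]
    refine sum_le_sum fun a _ => ?_
    rw [sum_ite_eq G (smo m (pol a)) fun _ => ∏ i, μ (a i)]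
    split_ifs with h2 h3 h3
    · exact le_rfl
    · exact absurd (mem_filter.1 h2).2 h3
    · exact prod_nonneg fun i _ => h0 _
    · exact le_rfl
  -- (2) the law of the uniform polynomial
  have h2 : (∑ f ∈ MD p n, if smo m f ∈ T then (1 : ℝ) else 0) / (p : ℝ) ^ n ≤
      ∑ A ∈ G, q' A + Real.exp 6 * Real.exp (-t / (2 * m)) := by
    have hr := rankin (p := p) hm n t
    rw [hq']
    simp only
    rw [← sum_div, div_add' _ _ _ (by positivity), div_le_div_iff_of_pos_right (by positivity)]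
    refine le_trans ?_ (add_le_add_right hr _)
    rw [sum_comm, card_filter]
    push_cast
    rw [← sum_add_distrib]
    refine sum_le_sum fun f hf => ?_
    rw [sum_ite_eq G (smo m f) fun _ => (1 : ℝ)]
    by_cases h3 : smo m f ∈ T
    · by_cases h4 : (t : ℝ) < ((smo m f).natDegree : ℝ)
      · rw [if_pos h3, if_pos h4]
        split_ifs <;> norm_num
      · have h5 : smo m f ∈ G := by
          refine mem_filter.2 ⟨sm8_mem_GG.2 ⟨sm8_smo_monic m f, ?_, sm8_smo_smo m f⟩, h3⟩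
          push Not at h4
          exact_mod_cast h4
        rw [if_pos h3, if_pos h5, if_neg h4]
        norm_num
    · rw [if_neg h3]
      positivity
  -- (3) total mass
  have h3 : ∑ A ∈ G, q' A ≤ 1 := by
    rw [hq']
    simp only
    rw [← sum_div, div_le_one (by positivity), sum_comm]
    calc ∑ f ∈ MD p n, ∑ A ∈ G, (if smo m f = A then (1 : ℝ) else 0) ≤ ∑ f ∈ MD p n, (1 : ℝ) := by
          refine sum_le_sum fun f _ => ?_
          rw [sum_ite_eq G (smo m f) fun _ => (1 : ℝ)]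
          split_ifs <;> norm_num
      _ = (p : ℝ) ^ n := by rw [sum_const, card_MD, nsmul_eq_mul, mul_one]; push_cast; rfl
  -- (4) errors
  have h4 : ∑ A ∈ G, E A ≤ ∑ b ∈ range (t + (4 * b0 + 6) * m + 1),
      ∑ B ∈ (MD p b).filter (fun B => B.coeff 0 ≠ 0), (tau B : ℝ) * err μ (n + 1) B :=
    (sum_le_sum_of_subset_of_nonneg (filter_subset _ _) fun A _ _ => hE0 A).trans
      (sm8_errors μ hm)
  have h5 : ∑ A ∈ G, ((1 - 11 / 4 ^ b0) * q' A - E A) ≤ ∑ A ∈ G, q A :=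
    sum_le_sum fun A hA => sm8_one μ h0 hm hn (mem_filter.1 hA).1
  rw [sum_sub_distrib, ← mul_sum] at h5
  have h6 : (0 : ℝ) ≤ 11 / 4 ^ b0 := by positivity
  have h7 : 11 / 4 ^ b0 * ∑ A ∈ G, q' A ≤ 11 / 4 ^ b0 * 1 := mul_le_mul_of_nonneg_left h3 h6
  linarith

open Classical in
theorem sm8_mass (μ : ZMod p → ℝ) (h1 : ∑ x, μ x = 1) {N : ℕ} (m : ℕ) (T : Set (ZMod p)[X]) :
    (∑ a : Fin N → ZMod p, if smo m (pol a) ∈ T then ∏ i, μ (a i) else 0) +
      (∑ a : Fin N → ZMod p, if smo m (pol a) ∈ Tᶜ then ∏ i, μ (a i) else 0) = 1 := by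
  rw [← sum_add_distrib]
  calc _ = ∑ a : Fin N → ZMod p, ∏ i, μ (a i) := by
        refine sum_congr rfl fun a _ => ?_
        by_cases h : smo m (pol a) ∈ T
        · have h' : smo m (pol a) ∉ Tᶜ := fun h' => h' h
          rw [if_pos h, if_neg h', add_zero]
        · have h' : smo m (pol a) ∈ Tᶜ := h
          rw [if_neg h, if_pos h', zero_add]
    _ = ∏ _i : Fin N, ∑ x, μ x := by
        rw [prod_univ_sum, Fintype.piFinset_univ]
    _ = 1 := by rw [h1, prod_const_one]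

open Classical in
theorem sm8_mass' {n : ℕ} (m : ℕ) (T : Set (ZMod p)[X]) :
    (∑ f ∈ MD p n, if smo m f ∈ T then (1 : ℝ) else 0) / (p : ℝ) ^ n +
      (∑ f ∈ MD p n, if smo m f ∈ Tᶜ then (1 : ℝ) else 0) / (p : ℝ) ^ n = 1 := by
  have hp := sm4_p_pos (p := p)
  rw [← add_div, ← sum_add_distrib, div_eq_one_iff_eq (by positivity)]
  calc _ = ∑ f ∈ MD p n, (1 : ℝ) := by
        refine sum_congr rfl fun a _ => ?_
        by_cases h : smo m a ∈ T
        · have h' : smo m a ∉ Tᶜ := fun h' => h' h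
          rw [if_pos h, if_neg h', add_zero]
        · have h' : smo m a ∈ Tᶜ := h
          rw [if_neg h, if_pos h', zero_add]
    _ = (p : ℝ) ^ n := by rw [sum_const, card_MD, nsmul_eq_mul, mul_one]; push_cast; rfl

open Classical in
theorem sm8_two_sides (μ : ZMod p → ℝ) (h0 : ∀ x, 0 ≤ μ x) (h1 : ∑ x, μ x = 1) {n m t b0 : ℕ}
    (hm : 1 ≤ m) (hn : t + (4 * b0 + 6) * m ≤ n) (T : Set (ZMod p)[X]) :
    |(∑ a : Fin (n + 1) → ZMod p, if smo m (pol a) ∈ T then ∏ i, μ (a i) else 0) -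
      (∑ f ∈ MD p n, if smo m f ∈ T then (1 : ℝ) else 0) / (p : ℝ) ^ n| ≤
      (11 / 4 ^ b0 + Real.exp 6 * Real.exp (-t / (2 * m)) +
        ∑ b ∈ range (t + (4 * b0 + 6) * m + 1), ∑ B ∈ (MD p b).filter (fun B => B.coeff 0 ≠ 0),
          (tau B : ℝ) * err μ (n + 1) B) := by
  have s1 := sm8_side μ h0 hm hn T
  have m1 := sm8_mass μ h1 (N := n + 1) m T
  have m2 := sm8_mass' (p := p) (n := n) m T
  set Q := ∑ a : Fin (n + 1) → ZMod p, if smo m (pol a) ∈ T then ∏ i, μ (a i) else 0 with hQ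
  set Qc := ∑ a : Fin (n + 1) → ZMod p, if smo m (pol a) ∈ Tᶜ then ∏ i, μ (a i) else 0 with hQc
  set R := (∑ f ∈ MD p n, if smo m f ∈ T then (1 : ℝ) else 0) / (p : ℝ) ^ n with hR
  set Rc := (∑ f ∈ MD p n, if smo m f ∈ Tᶜ then (1 : ℝ) else 0) / (p : ℝ) ^ n with hRc
  have s2 : Rc - (11 / 4 ^ b0 + Real.exp 6 * Real.exp (-t / (2 * m)) +
        ∑ b ∈ range (t + (4 * b0 + 6) * m + 1), ∑ B ∈ (MD p b).filter (fun B => B.coeff 0 ≠ 0),
          (tau B : ℝ) * err μ (n + 1) B) ≤ Qc := by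
    convert sm8_side μ h0 hm hn Tᶜ
  rw [abs_le]
  constructor
  · linarith
  · linarith

open Classical in
theorem sm8_sum_mon {n : ℕ} (m : ℕ) (T : Set (ZMod p)[X]) :
    (∑ a : Fin n → ZMod p, if smo m (mon a) ∈ T then (1 : ℝ) else 0) =
      ∑ f ∈ MD p n, if smo m f ∈ T then (1 : ℝ) else 0 := by
  unfold MD
  rw [sum_image fun a _ b _ h => mon_aux_inj h]

open Classical in
theorem smooth_tv {η : ℝ} (hη : 0 < η) : ∃ C c : ℝ, 0 < C ∧ 0 < c ∧
    ∀ μ : ZMod p → ℝ, (∀ x, 0 ≤ μ x) → ∑ x, μ x = 1 → (∀ x, μ x ≤ 1 - η) →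
      ∀ n m : ℕ, 1 ≤ n → 1 ≤ m → ∀ T : Set (ZMod p)[X],
        |(∑ a : Fin (n + 1) → ZMod p, if smo m (pol a) ∈ T then ∏ i, μ (a i) else 0) -
          (∑ a : Fin n → ZMod p, if smo m (mon a) ∈ T then (1 : ℝ) else 0) / (p : ℝ) ^ n| ≤
        C * (Real.exp (-c * n / m) + Real.exp (-c * Real.sqrt n)) := by
  have hp := sm4_p_pos (p := p)
  obtain ⟨δ₀, c₀, C₀, hδ₀, hc₀, hC₀, hlev⟩ := level_dist (p := p) hη
  set δ := min δ₀ 1 with hδdef
  have hδ : 0 < δ := lt_min hδ₀ one_pos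
  have hδ1 : δ ≤ 1 := min_le_right _ _
  have hδδ : δ ≤ δ₀ := min_le_left _ _
  set c := min (δ / 8) c₀ with hcdef
  have hc : 0 < c := lt_min (by positivity) hc₀
  have hc8 : c ≤ δ / 8 := min_le_left _ _
  have hcc : c ≤ c₀ := min_le_right _ _
  refine ⟨Real.exp 2 + 352 + Real.exp 7 + C₀, c, by positivity, hc,
    fun μ h0 h1 hμη n m hn hm T => ?_⟩
  rw [sm8_sum_mon]
  have hn0 : (1 : ℝ) ≤ n := by exact_mod_cast hn
  have hm0 : (1 : ℝ) ≤ m := by exact_mod_cast hm
  have he1 := Real.exp_pos (-c * n / m)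
  have he2 := Real.exp_pos (-c * Real.sqrt n)
  rcases lt_or_ge (δ * n) (12 * m) with hsmall | hbig
  · -- trivial bound
    have hq0 : 0 ≤ ∑ a : Fin (n + 1) → ZMod p, if smo m (pol a) ∈ T then ∏ i, μ (a i) else 0 := by
      refine sum_nonneg fun a _ => ?_
      split_ifs
      · exact prod_nonneg fun i _ => h0 _
      · exact le_rfl
    have hq0c : 0 ≤ ∑ a : Fin (n + 1) → ZMod p,
        if smo m (pol a) ∈ Tᶜ then ∏ i, μ (a i) else 0 := by
      refine sum_nonneg fun a _ => ?_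
      split_ifs
      · exact prod_nonneg fun i _ => h0 _
      · exact le_rfl
    have hq1 := sm8_mass μ h1 (N := n + 1) m T
    have hr0 : 0 ≤ (∑ f ∈ MD p n, if smo m f ∈ T then (1 : ℝ) else 0) / (p : ℝ) ^ n :=
      div_nonneg (sum_nonneg fun f _ => by split_ifs <;> norm_num) (by positivity)
    have hr0c : 0 ≤ (∑ f ∈ MD p n, if smo m f ∈ Tᶜ then (1 : ℝ) else 0) / (p : ℝ) ^ n :=
      div_nonneg (sum_nonneg fun f _ => by split_ifs <;> norm_num) (by positivity)
    have hr1 := sm8_mass' (p := p) (n := n) m T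
    have h2 : 1 ≤ Real.exp 2 * Real.exp (-c * n / m) := by
      rw [← Real.exp_add]
      apply Real.one_le_exp
      have h3 : c * n / m ≤ 2 := by
        rw [div_le_iff₀ (by linarith)]
        nlinarith
      have h4 : -c * n / m = -(c * n / m) := by ring
      rw [h4]
      linarith
    have h5 : (Real.exp 2 + 352 + Real.exp 7 + C₀) *
        (Real.exp (-c * n / m) + Real.exp (-c * Real.sqrt n)) ≥
        Real.exp 2 * Real.exp (-c * n / m) := by
      have h6 : 0 ≤ (352 + Real.exp 7 + C₀) *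
        (Real.exp (-c * n / m) + Real.exp (-c * Real.sqrt n)) := by positivity
      nlinarith [Real.exp_pos 2]
    refine le_trans ?_ (h2.trans h5)
    rw [abs_le]
    constructor <;> linarith
  · -- choice of the parameters
    set t := ⌊δ * n / 2⌋₊ with htdef
    set b0 := ⌊(δ * n / (2 * m) - 6) / 4⌋₊ with hb0def
    have hm00 : (0 : ℝ) < m := by linarith
    have ht1 : (t : ℝ) ≤ δ * n / 2 := Nat.floor_le (by positivity)
    have ht2 : δ * n / 2 < t + 1 := Nat.lt_floor_add_one _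
    have hx0 : 0 ≤ (δ * n / (2 * m) - 6) / 4 := by
      have : 6 ≤ δ * n / (2 * m) := by
        rw [le_div_iff₀ (by positivity)]
        linarith
      linarith
    have hb1 : (b0 : ℝ) ≤ (δ * n / (2 * m) - 6) / 4 := Nat.floor_le hx0
    have hb2 : (δ * n / (2 * m) - 6) / 4 < b0 + 1 := Nat.lt_floor_add_one _
    have hlevel : ((t + (4 * b0 + 6) * m : ℕ) : ℝ) ≤ δ * n := by
      push_cast
      have h3 : (4 * (b0 : ℝ) + 6) * m ≤ δ * n / 2 := by
        have : 4 * (b0 : ℝ) + 6 ≤ δ * n / (2 * m) := by linarith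
        calc (4 * (b0 : ℝ) + 6) * m ≤ δ * n / (2 * m) * m := mul_le_mul_of_nonneg_right this hm00.le
          _ = δ * n / 2 := by field_simp
      linarith
    have hle : t + (4 * b0 + 6) * m ≤ n := by
      have : ((t + (4 * b0 + 6) * m : ℕ) : ℝ) ≤ n := hlevel.trans (by nlinarith)
      exact_mod_cast this
    refine (sm8_two_sides μ h0 h1 hm hle T).trans ?_
    have hE := hlev μ h0 h1 hμη (n + 1) (t + (4 * b0 + 6) * m) (hlevel.trans (by
      push_cast
      nlinarith))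
    -- the three terms
    have e1 : (11 : ℝ) / 4 ^ b0 ≤ 352 * Real.exp (-c * n / m) := by
      have h4 : Real.exp 1 ≤ 4 := by
        have := Real.exp_one_lt_d9
        linarith
      have h5 : Real.exp (b0 : ℝ) ≤ 4 ^ b0 := by
        rw [← Real.exp_one_pow]
        exact pow_le_pow_left₀ (Real.exp_pos _).le h4 _
      have h6 : δ * n / (8 * m) - 5 / 2 ≤ b0 := by
        have : δ * n / (8 * m) - 5 / 2 = (δ * n / (2 * m) - 6) / 4 - 1 := by
          field_simp
          ring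
        linarith
      have h7 : c * n / m ≤ δ * n / (8 * m) := by
        rw [div_le_div_iff₀ hm00 (by positivity)]
        have : c * (8 * m) ≤ δ * m := by nlinarith
        nlinarith
      have h8 : Real.exp (5 / 2) ≤ 32 := by
        have h9 : Real.exp (5 / 2) ≤ Real.exp 3 := Real.exp_le_exp.2 (by norm_num)
        have h10 : Real.exp 3 = Real.exp 1 ^ 3 := by rw [Real.exp_one_pow]; norm_num
        have h11 := Real.exp_one_lt_d9
        have h12 : Real.exp 1 ^ 3 ≤ 2.8 ^ 3 := pow_le_pow_left₀ (Real.exp_pos _).le (by linarith) 3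
        norm_num at h12
        linarith
      have h13 : Real.exp (c * n / m) ≤ 32 * 4 ^ b0 := by
        calc Real.exp (c * n / m) ≤ Real.exp (5 / 2 + b0) := Real.exp_le_exp.2 (by linarith)
          _ = Real.exp (5 / 2) * Real.exp b0 := Real.exp_add _ _
          _ ≤ 32 * 4 ^ b0 := mul_le_mul h8 h5 (Real.exp_pos _).le (by norm_num)
      have h14 : Real.exp (-c * n / m) = (Real.exp (c * n / m))⁻¹ := by
        rw [← Real.exp_neg]; congr 1; ring
      rw [h14, ← div_eq_mul_inv, div_le_div_iff₀ (by positivity) (Real.exp_pos _)]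
      nlinarith
    have e2 : Real.exp 6 * Real.exp (-t / (2 * m)) ≤ Real.exp 7 * Real.exp (-c * n / m) := by
      rw [← Real.exp_add, ← Real.exp_add]
      apply Real.exp_le_exp.2
      have h3 : c * n / m ≤ δ * n / (4 * m) := by
        rw [div_le_div_iff₀ hm00 (by positivity)]
        have : c * (4 * m) ≤ δ * m := by nlinarith
        nlinarith
      have h4 : δ * n / (4 * m) - 1 / 2 ≤ t / (2 * m) := by
        have h5 : δ * n / (4 * m) = (δ * n / 2) / (2 * m) := by field_simp; ring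
        have h6 : (δ * n / 2) / (2 * m) ≤ (t + 1) / (2 * m) :=
          div_le_div_of_nonneg_right ht2.le (by positivity)
        have h7 : ((t : ℝ) + 1) / (2 * m) = t / (2 * m) + 1 / (2 * m) := by ring
        have h8 : 1 / (2 * (m : ℝ)) ≤ 1 / 2 := by
          rw [div_le_div_iff₀ (by positivity) (by norm_num)]
          linarith
        linarith
      have h9 : -(t : ℝ) / (2 * m) = -(t / (2 * m)) := by ring
      have h10 : -c * n / m = -(c * n / m) := by ring
      rw [h9, h10]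
      linarith
    have e3 : C₀ * Real.exp (-c₀ * Real.sqrt (n + 1 : ℕ)) ≤ C₀ * Real.exp (-c * Real.sqrt n) := by
      refine mul_le_mul_of_nonneg_left (Real.exp_le_exp.2 ?_) hC₀.le
      have h3 : Real.sqrt n ≤ Real.sqrt (n + 1 : ℕ) := Real.sqrt_le_sqrt (by push_cast; linarith)
      have h4 := Real.sqrt_nonneg (n : ℝ)
      have h5 : c * Real.sqrt n ≤ c₀ * Real.sqrt (n + 1 : ℕ) := mul_le_mul hcc h3 h4 hc₀.le
      linarith
    have hsum := add_le_add (add_le_add e1 e2) (hE.trans e3)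
    refine hsum.trans ?_
    have k1 : 0 ≤ Real.exp 2 * (Real.exp (-c * n / m) + Real.exp (-c * Real.sqrt n)) := by
      positivity
    have k2 : 0 ≤ (352 + Real.exp 7) * Real.exp (-c * Real.sqrt n) := by positivity
    have k3 : 0 ≤ C₀ * Real.exp (-c * n / m) := by positivity
    nlinarith

end

end Pool.Agent.MP6cc1fa
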